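import Pool.Agent.Lib.MP_23b606_ag.T4.Adj
import Pool.Agent.Lib.MP_23b606_ag.T3.Fin

/-! Fin: the definitions of the final statement of T4. -/

set_option autoImplicit false

open scoped BigOperators

namespace T4

open T1 T3

variable {k : Type} [Field k] [Algebra ℂ k] {K : Type} [Field K] [Algebra k K]

/-- The elements `a t` of `k` are local coordinates, with partial derivatives `D t`, of a smooth
variety with function field `k` at the centre of the valuation ring `O` of `K ⊇ k`: they belong to
`O`, and every `u ∈ k` which is regular at all those prime divisors `O'` at which the `a t` are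
regular coordinates (`a t ∈ O'` and `D t` maps `O'` into itself) belongs to `O`. -/
structure BaseAt {e : ℕ} (a : Fin e → k) (D : Fin e → Derivation ℂ k k)
    (O : ValuationSubring K) : Prop where
  dual : ∀ s t, D s (a t) = if s = t then 1 else 0
  mem : ∀ t, algebraMap k K (a t) ∈ O
  reg : ∀ u : k, (∀ O' : ValuationSubring k, IsDiv e O' → (∀ t, a t ∈ O') →
    (∀ t, ∀ c ∈ O', D t c ∈ O') → u ∈ O') → algebraMap k K u ∈ O

variable {M : Type} [AddCommGroup M] {ι : Type} [Fintype ι]

/-- The derivative of the coefficients: `∑ D(c_m) ψ(m)`. -/
noncomputable def dc (D : Derivation ℂ k k) (ψ : Multiplicative M →* K) (f : M →₀ k) : K :=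
  f.sum fun m c => algebraMap k K (D c) * ψ (Multiplicative.ofAdd m)

/-- `O` has its centre in the locus where the base, the toric bundle over it and the complete
intersection `{f = 0}` in the bundle are smooth, and `f i`, `g i` are sections of the same line
bundle there: there are

* local coordinates `a t` of the base with partial derivatives `D t` (`BaseAt`),
* a local trivialisation `s` of the toric bundle, and of the line bundles (`ℓ i`): with the new
  characters `ψ = s χ` the sections are `f i = ℓ i * f' i`, `g i = ℓ i * g' i`, and the
  coefficients of `f' i` and `g' i` are in `O`,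
* a basis `b` of `M` with coordinates `z_x = ψ (b x) ∈ O`, so that `O` has its centre on the chart of
  the smooth cone which is spanned by the functions `b.coord x` with `z_x` in the maximal ideal of
  `O`,
* `p i ∈ M` such that these functions are at least as large as at `p i` on the support of `g i`, so
  that `ψ^(-p i) f' i` is a local equation of the `i`-th divisor,
* a set `σ (inr _)` of `card ι` of the coordinates `z_x`, `a t` such that the Jacobian determinant
  of these equations in these coordinates is a unit at `O`.

Either all the `p i` are in the support of `g i` (base point freeness at the centre over the generic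
point of the base); or this is so for `i ≠ i0`, all the `z_x` with `x ≠ x1, x2` are units at `O` (the
centre is on a toric stratum of codimension at most two) and the partial derivative of the equation
`i0` in the direction of `z_x1` is a unit at `O`. For `card ι = 1` and the prime divisors of the
hypersurface `{f = 0}` one of these always holds if the hypersurface is smooth there. -/
def SmoothOver (n e : ℕ) [DecidableEq ι] (f g : ι → M →₀ k) (χ : Multiplicative M →* K)
    (O : ValuationSubring K) : Prop :=
  ∃ (a : Fin e → k) (D : Fin e → Derivation ℂ k k) (s : Multiplicative M →* k) (ℓ : ι → k)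
    (f' g' : ι → M →₀ k) (ψ : Multiplicative M →* K) (p : ι → M) (d : ℕ)
    (b : Module.Basis (Fin d) ℤ M) (σ : Fin (n + e) ⊕ ι ≃ Fin d ⊕ Fin e),
    BaseAt a D O ∧ (∀ m, ψ m = algebraMap k K (s m) * χ m) ∧ (∀ i, ℓ i ≠ 0) ∧
    (∀ i m, f i m = ℓ i * s (Multiplicative.ofAdd m) * f' i m) ∧
    (∀ i m, g i m = ℓ i * s (Multiplicative.ofAdd m) * g' i m) ∧
    (∀ i m, algebraMap k K (f' i m) ∈ O ∧ algebraMap k K (g' i m) ∈ O) ∧
    (∀ x, ψ (Multiplicative.ofAdd (b x)) ∈ O) ∧
    (∀ i, ∀ m ∈ (g i).support, ∀ x, O.valuation (ψ (Multiplicative.ofAdd (b x))) < 1 →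
      0 ≤ b.coord x (m - p i)) ∧
    ((∀ i, p i ∈ (g i).support) ∨ ∃ (i0 : ι) (x1 x2 : Fin d),
      (∀ i, i ≠ i0 → p i ∈ (g i).support) ∧
      (∀ x, x ≠ x1 → x ≠ x2 → O.valuation (ψ (Multiplicative.ofAdd (b x))) = 1) ∧
      O.valuation (dl ψ (f' i0) (b.coord x1).toAddMonoidHom / ψ (Multiplicative.ofAdd (b x1)) /
        ψ (Multiplicative.ofAdd (p i0))) = 1) ∧
    O.valuation (Matrix.det (Matrix.of fun i i' : ι => Sum.elim
      (fun x => dl ψ (f' i) (b.coord x).toAddMonoidHom / ψ (Multiplicative.ofAdd (b x)))
      (fun t => dc (D t) ψ (f' i)) (σ (Sum.inr i')) / ψ (Multiplicative.ofAdd (p i)))) = 1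

end T4
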