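import Pool.Agent.Lib.MP_23b606_ag.T4.Om
import Pool.Agent.Lib.MP_23b606_ag.T4.Fin

/-! Base: differentials of the base field. -/

set_option autoImplicit false

open scoped BigOperators KaehlerDifferential

namespace T4

open T1 T3

/-- A derivation of a field of characteristic zero with values in a vector space which vanishes on
a transcendence basis is zero. -/
theorem der_eq_zero {F k N : Type} [Field F] [Field k] [Algebra F k] [CharZero F]
    [AddCommGroup N] [Module F N] [Module k N] [IsScalarTower F k N] (D : Derivation F k N)
    {q : Type} (y : q → k) (hy : IsTranscendenceBasis F y) (h0 : ∀ i, D (y i) = 0) (c : k) :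
    D c = 0 := by
  let S : IntermediateField F k :=
    { carrier := {x | D x = 0}
      mul_mem' := fun {x y} (hx : D x = 0) (hy : D y = 0) => by
        show D (x * y) = 0
        rw [Derivation.leibniz, hx, hy, smul_zero, smul_zero, add_zero]
      add_mem' := fun {x y} (hx : D x = 0) (hy : D y = 0) => by
        show D (x + y) = 0
        rw [map_add, hx, hy, add_zero]
      algebraMap_mem' := fun r => D.map_algebraMap r
      inv_mem' := fun x (hx : D x = 0) => by
        show D x⁻¹ = 0
        rw [Derivation.leibniz_inv, hx, smul_zero] }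
  have hS : IntermediateField.adjoin F (Set.range y) ≤ S := by
    rw [IntermediateField.adjoin_le_iff]
    rintro _ ⟨i, rfl⟩
    exact h0 i
  have halg : Algebra.IsAlgebraic (IntermediateField.adjoin F (Set.range y)) k :=
    hy.isAlgebraic_field
  have hcalg : IsAlgebraic S c := by
    obtain ⟨p, hp, hpc⟩ := halg.isAlgebraic c
    refine ⟨p.map (IntermediateField.inclusion hS).toRingHom, ?_, ?_⟩
    · rw [Ne, Polynomial.map_eq_zero_iff]
      · exact hp
      · exact (IntermediateField.inclusion hS).toRingHom.injective
    · rw [Polynomial.aeval_def, Polynomial.eval₂_map]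
      rw [Polynomial.aeval_def] at hpc
      exact hpc
  let D' : Derivation S k N :=
    { toFun := D
      map_add' := fun x y => map_add D x y
      map_smul' := fun r x => by
        have h1 : D (r : k) = 0 := r.2
        show D ((r : k) * x) = r • D x
        rw [Derivation.leibniz, h1, smul_zero, add_zero]
        rfl
      map_one_eq_zero' := D.map_one_eq_zero
      leibniz' := fun x y => D.leibniz x y }
  have hi : IsIntegral S c := hcalg.isIntegral
  have h1 : Polynomial.aeval c (minpoly S c) = 0 := minpoly.aeval S c
  have h2 := congrArg D' h1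
  rw [map_zero, Derivation.map_aeval D' (minpoly S c) c] at h2
  have h3 : Polynomial.aeval c (Polynomial.derivative (minpoly S c)) ≠ 0 :=
    (minpoly.irreducible hi).separable.aeval_derivative_ne_zero h1
  exact (smul_eq_zero.mp h2).resolve_left h3

/-- The differentials of a transcendence basis span. -/
theorem span_D {F k : Type} [Field F] [Field k] [Algebra F k] [CharZero F] {q : Type} (y : q → k)
    (hy : IsTranscendenceBasis F y) :
    Submodule.span k (Set.range fun i => KaehlerDifferential.D F k (y i)) = ⊤ := by
  set N := Submodule.span k (Set.range fun i => KaehlerDifferential.D F k (y i)) with hN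
  let D' : Derivation F k (Ω[k⁄F] ⧸ N) := N.mkQ.compDer (KaehlerDifferential.D F k)
  have h1 : ∀ c, D' c = 0 := der_eq_zero D' y hy (fun i => by
    show N.mkQ (KaehlerDifferential.D F k (y i)) = 0
    rw [Submodule.mkQ_apply, Submodule.Quotient.mk_eq_zero]
    exact Submodule.subset_span ⟨i, rfl⟩)
  rw [eq_top_iff, ← KaehlerDifferential.span_range_derivation F k, Submodule.span_le]
  rintro _ ⟨c, rfl⟩
  have h2 : N.mkQ (KaehlerDifferential.D F k c) = 0 := h1 c
  rw [Submodule.mkQ_apply, Submodule.Quotient.mk_eq_zero] at h2
  exact h2

/-- The dimension of the space of differentials is the transcendence degree. -/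
theorem finrank_omega {F k : Type} [Field F] [Field k] [Algebra F k] [CharZero F] {e : ℕ}
    (he : Algebra.trdeg F k = e) :
    Module.Finite k Ω[k⁄F] ∧ Module.finrank k Ω[k⁄F] = e := by
  classical
  obtain ⟨q, y, hy⟩ := exists_isTranscendenceBasis' F k
  have h1 := hy.cardinalMk_eq_trdeg
  rw [he, ← Cardinal.mk_fin e] at h1
  obtain ⟨σ⟩ := Cardinal.eq.1 h1
  have hli : LinearIndependent k fun i : q => KaehlerDifferential.D F k (y i) :=
    linearIndependent_D y hy.1
  let b : Module.Basis q k Ω[k⁄F] := Module.Basis.mk hli (span_D y hy).ge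
  have b' := b.reindex σ
  refine ⟨Module.Finite.of_basis b', ?_⟩
  rw [Module.finrank_eq_card_basis b', Fintype.card_fin]

section base

variable {k : Type} [Field k] [Algebra ℂ k] {K : Type} [Field K] [Algebra ℂ K] [Algebra k K]
  [IsScalarTower ℂ k K]

/-- The total differential on the base. -/
theorem D_base {e : ℕ} (he : Algebra.trdeg ℂ k = e) (a : Fin e → k)
    (D : Fin e → Derivation ℂ k k) (hD : ∀ s t, D s (a t) = if s = t then 1 else 0) (c : k) :
    KaehlerDifferential.D ℂ k c = ∑ t, D t c • KaehlerDifferential.D ℂ k (a t) := by
  classical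
  have : CharZero k := by
    have h : Function.Injective (algebraMap ℂ k) := (algebraMap ℂ k).injective
    exact (RingHom.charZero_iff h).1 inferInstance
  obtain ⟨hfin, hrk⟩ := finrank_omega he
  have hval : ∀ (g : Fin e → k) (s : Fin e), (D s).liftKaehlerDifferential
      (∑ t, g t • KaehlerDifferential.D ℂ k (a t)) = g s := by
    intro g s
    rw [map_sum]
    simp only [map_smul, Derivation.liftKaehlerDifferential_comp_D, hD, smul_eq_mul]
    simp
  have hli : LinearIndependent k fun t => KaehlerDifferential.D ℂ k (a t) := by
    rw [Fintype.linearIndependent_iff]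
    intro g hg s
    have h1 := hval g s
    rw [hg, map_zero] at h1
    exact h1.symm
  have hspan : Submodule.span k (Set.range fun t => KaehlerDifferential.D ℂ k (a t)) = ⊤ :=
    hli.span_eq_top_of_card_eq_finrank' (by rw [Fintype.card_fin, hrk])
  have hc : KaehlerDifferential.D ℂ k c ∈
      Submodule.span k (Set.range fun t => KaehlerDifferential.D ℂ k (a t)) := by
    rw [hspan]
    trivial
  obtain ⟨g, hg⟩ := (Submodule.mem_span_range_iff_exists_fun k).1 hc
  rw [← hg]
  refine Finset.sum_congr rfl fun t _ => ?_
  have h1 := hval g t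
  rw [hg, Derivation.liftKaehlerDifferential_comp_D] at h1
  rw [h1]

/-- The total differential of an element of the base in `K`. -/
theorem D_base' {e : ℕ} (he : Algebra.trdeg ℂ k = e) (a : Fin e → k)
    (D : Fin e → Derivation ℂ k k) (hD : ∀ s t, D s (a t) = if s = t then 1 else 0) (c : k) :
    KaehlerDifferential.D ℂ K (algebraMap k K c) =
      ∑ t, algebraMap k K (D t c) • KaehlerDifferential.D ℂ K (algebraMap k K (a t)) := by
  have h1 := congrArg (KaehlerDifferential.map ℂ ℂ k K) (D_base he a D hD c)
  rw [map_sum, KaehlerDifferential.map_D] at h1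
  rw [h1]
  refine Finset.sum_congr rfl fun t _ => ?_
  rw [map_smul, KaehlerDifferential.map_D, algebraMap_smul]

/-- Derivations of `K` on the base. -/
theorem der_base {e : ℕ} (he : Algebra.trdeg ℂ k = e) (a : Fin e → k)
    (D : Fin e → Derivation ℂ k k) (hD : ∀ s t, D s (a t) = if s = t then 1 else 0)
    (E : Derivation ℂ K K) (c : k) :
    E (algebraMap k K c) = ∑ t, algebraMap k K (D t c) * E (algebraMap k K (a t)) := by
  have h1 := congrArg E.liftKaehlerDifferential (D_base' (K := K) he a D hD c)
  rw [Derivation.liftKaehlerDifferential_comp_D, map_sum] at h1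
  rw [h1]
  refine Finset.sum_congr rfl fun t _ => ?_
  rw [map_smul, Derivation.liftKaehlerDifferential_comp_D, smul_eq_mul]

end base

end T4
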