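import Pool.Agent.Lib.MP_23b606_ag.T4.El

/-!
# T4: the adjunction inequality over a base field

`V δ`, `δ : Δ`, is a family of normalised valuations of `K` (the prime divisors of a normal model
of `K` over `ℂ`), `w δ` is the order at `V δ` of a fixed total form `(d x_0 ∧ d y)^(m_0) g_0`.
-/

set_option autoImplicit false

open scoped BigOperators KaehlerDifferential

namespace T4

open T1 T3

variable {k : Type} [Field k] [CharZero k]
variable {M : Type} [AddCommGroup M] {K : Type} [Field K] [Algebra k K] {ι : Type} [Fintype ι]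

/-- The adjunction inequality at `V`: there are finitely many `n_q ≠ 0` with sum `ν` and integers
`lam i` such that all the terms `c χ(m)` of `f i` and `g i` have value at least `lam i + ν(m)`, the
support functions of the `g i` are additive on the sum `ν = ∑ n_q`, and
`m_0 v(l(dx_0)) ≤ m_0 (∑ (lam i + h_i(ν)) + card α) + w`. -/
def Adj (f g : ι → M →₀ k) (χ : Multiplicative M →* K) {n : ℕ} (l : ⋀[K]^n Ω[K⁄k] →ₗ[K] K)
    (x0 : Fin n → K) (m0 : ℕ) {O : ValuationSubring K} (V : NVal O) (w : ℤ) : Prop :=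
  ∃ (α : Type) (_ : Fintype α) (nn : α → M →+ ℤ) (lam : ι → ℤ),
    (∀ q, nn q ≠ 0) ∧
    (∀ i m, f i m ≠ 0 → lam i + (∑ q, nn q) m ≤
      V.v (algebraMap k K (f i m) * χ (Multiplicative.ofAdd m))) ∧
    (∀ i m, g i m ≠ 0 → lam i + (∑ q, nn q) m ≤
      V.v (algebraMap k K (g i m) * χ (Multiplicative.ofAdd m))) ∧
    (∀ i, hm (g i) (∑ q, nn q) = ∑ q, hm (g i) (nn q)) ∧
    (m0 : ℤ) * V.v (l (W k x0)) ≤
      m0 * (∑ i, (lam i + hm (g i) (∑ q, nn q)) + (Fintype.card α : ℤ)) + w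

/-- What is used of the geometric hypotheses. -/
structure GoodK {Δ : Type} {O : Δ → ValuationSubring K} (V : ∀ δ, NVal (O δ)) (w : Δ → ℤ) {n : ℕ}
    (x0 : Fin n → K) (m0 : ℕ) (f g : ι → M →₀ k) (χ : Multiplicative M →* K) : Prop where
  ind : LinearIndependent K fun i => dl χ (f i)
  sub : ∀ i, (f i).support ⊆ (g i).support
  adj : ∀ (d : ℕ) (b : Module.Basis (Fin d) ℤ M) (e : Fin n ⊕ ι ≃ Fin d)
    (l : ⋀[K]^n Ω[K⁄k] →ₗ[K] K), IsEll b χ f e l → ∀ δ, Adj f g χ l x0 m0 (V δ) (w δ)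

end T4
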