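import Pool.Agent.Lib.MP_23b606_ag.T4.Defs

/-! S/Sys: the weighted homogeneous system of a circuit. -/

set_option autoImplicit false

namespace T4

open T1 T3

variable {k : Type} [Field k] [CharZero k]

variable {M : Type} [AddCommGroup M]

theorem hm_le (f : M →₀ k) (n : M →+ ℤ) {m : M} (hm' : m ∈ f.support) : hm f n ≤ n m := by
  unfold hm
  rw [dif_pos ⟨m, hm'⟩]
  exact Finset.inf'_le _ hm'

theorem exists_eq_hm (f : M →₀ k) (hf : f ≠ 0) (n : M →+ ℤ) : ∃ m ∈ f.support, n m = hm f n := by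
  have h := Finsupp.support_nonempty_iff.2 hf
  obtain ⟨m, h1, h2⟩ := Finset.exists_mem_eq_inf' h (fun m => n m)
  refine ⟨m, h1, ?_⟩
  unfold hm
  rw [dif_pos h]
  exact h2.symm

theorem ne_zero_of_ind {K : Type} [Field K] [Algebra k K] {ι : Type} {f : ι → M →₀ k}
    (χ : Multiplicative M →* K) (hI : LinearIndependent K fun i => dl χ (f i)) (i : ι) :
    f i ≠ 0 := by
  intro h
  refine hI.ne_zero i ?_
  funext n'
  simp only [dl, h, Finsupp.sum_zero_index, Pi.zero_apply]

variable {J : Type} [Fintype J]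

/-- The relation at `m`. -/
private theorem rel_apply (f : M →₀ k) (nn : J → M →+ ℤ) (lam : J → ℕ)
    (hrel : ∑ j, lam j • nn j = 0) (m : M) :
    -∑ j, (lam j : ℤ) * hm f (nn j) = ∑ j, (lam j : ℤ) * (nn j m - hm f (nn j)) := by
  have h := DFunLike.congr_fun hrel m
  rw [AddMonoidHom.finsetSum_apply, AddMonoidHom.zero_apply] at h
  simp only [mul_sub, Finset.sum_sub_distrib]
  have h2 : ∑ j, (lam j : ℤ) * nn j m = 0 := by
    rw [← h]
    refine Finset.sum_congr rfl fun j _ => ?_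
    rw [AddMonoidHom.smul_apply, nsmul_eq_mul]
  rw [h2, zero_sub]

private theorem rel_nonneg (f : M →₀ k) (nn : J → M →+ ℤ) (lam : J → ℕ)
    (hrel : ∑ j, lam j • nn j = 0) : 0 ≤ -∑ j, (lam j : ℤ) * hm f (nn j) := by
  by_cases hf : f = 0
  · have h0 : ∀ n : M →+ ℤ, hm f n = 0 := by
      intro n
      unfold hm
      rw [dif_neg]
      rw [Finsupp.support_nonempty_iff]
      exact fun h => h hf
    simp [h0]
  · obtain ⟨m, hm'⟩ := Finsupp.support_nonempty_iff.2 hf
    rw [rel_apply f nn lam hrel m]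
    exact Finset.sum_nonneg fun j _ => mul_nonneg (Int.natCast_nonneg _)
      (sub_nonneg.2 (hm_le f _ hm'))

theorem dd_eq (f : M →₀ k) (nn : J → M →+ ℤ) (lam : J → ℕ) (hrel : ∑ j, lam j • nn j = 0) :
    (dd f nn lam : ℤ) = -∑ j, (lam j : ℤ) * hm f (nn j) :=
  Int.toNat_of_nonneg (rel_nonneg f nn lam hrel)

/-- `d = 0` iff all the `n_j` are constant on the support. -/
theorem dd_eq_zero_iff (f : M →₀ k) (nn : J → M →+ ℤ) (lam : J → ℕ) (hpos : ∀ j, 1 ≤ lam j)
    (hrel : ∑ j, lam j • nn j = 0) :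
    dd f nn lam = 0 ↔ ∀ m ∈ f.support, ∀ j, nn j m = hm f (nn j) := by
  constructor
  · intro h m hm' j
    have h1 := dd_eq f nn lam hrel
    rw [h, rel_apply f nn lam hrel m] at h1
    have h2 := (Finset.sum_eq_zero_iff_of_nonneg (fun j _ => mul_nonneg (Int.natCast_nonneg _)
      (sub_nonneg.2 (hm_le f (nn j) hm')))).1 h1.symm j (Finset.mem_univ _)
    have h3 : ((lam j : ℕ) : ℤ) ≠ 0 := by
      have := hpos j
      exact_mod_cast (by omega : lam j ≠ 0)
    exact sub_eq_zero.1 ((mul_eq_zero.1 h2).resolve_left h3)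
  · intro h
    have h1 := dd_eq f nn lam hrel
    by_cases hf : f = 0
    · have h0 : ∀ n : M →+ ℤ, hm f n = 0 := by
        intro n
        unfold hm
        rw [dif_neg]
        rw [Finsupp.support_nonempty_iff]
        exact fun h => h hf
      simp only [h0, mul_zero, Finset.sum_const_zero, neg_zero] at h1
      exact_mod_cast h1
    · obtain ⟨m, hm'⟩ := Finsupp.support_nonempty_iff.2 hf
      rw [rel_apply f nn lam hrel m, Finset.sum_eq_zero (fun j _ => by
        rw [h m hm' j, sub_self, mul_zero])] at h1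
      exact_mod_cast h1

theorem Fp_hom {L : Type} [Field L] [Algebra k L] (χ : Multiplicative M →* L) (f : M →₀ k)
    (nn : J → M →+ ℤ) (lam : J → ℕ) (hrel : ∑ j, lam j • nn j = 0) :
    (Fp χ nn f).IsWeightedHomogeneous lam (dd f nn lam) := by
  rw [← MvPolynomial.mem_weightedHomogeneousSubmodule]
  unfold Fp Finsupp.sum
  refine Submodule.sum_mem _ fun m hm' => ?_
  rw [MvPolynomial.mem_weightedHomogeneousSubmodule]
  refine MvPolynomial.isWeightedHomogeneous_monomial _ _ _ ?_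
  rw [Finsupp.weight_apply, Finsupp.sum_fintype _ _ (fun i => by rw [zero_smul])]
  have h1 := dd_eq f nn lam hrel
  rw [rel_apply f nn lam hrel m] at h1
  have h2 : ((∑ j, (Finsupp.equivFunOnFinite.symm fun j =>
      (nn j m - hm f (nn j)).toNat) j • lam j : ℕ) : ℤ) = (dd f nn lam : ℤ) := by
    rw [h1]
    push_cast
    refine Finset.sum_congr rfl fun j _ => ?_
    rw [Finsupp.equivFunOnFinite_symm_apply_apply, smul_eq_mul]
    push_cast
    rw [Int.toNat_of_nonneg (sub_nonneg.2 (hm_le f (nn j) hm')), mul_comm]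
  exact_mod_cast h2

theorem Fp_one {L : Type} [Field L] [Algebra k L] (χ : Multiplicative M →* L) (f : M →₀ k)
    (nn : J → M →+ ℤ) : MvPolynomial.eval (fun _ => 1) (Fp χ nn f) = ev χ f := by
  unfold Fp ev Finsupp.sum
  rw [map_sum]
  refine Finset.sum_congr rfl fun m _ => ?_
  rw [MvPolynomial.eval_monomial]
  simp

theorem idx_le {ι : Type} [Fintype ι] {f : ι → M →₀ k} {nn : J → M →+ ℤ} {lam : J → ℕ}
    (hC : Circ f nn lam) : 1 + ∑ i, dd (f i) nn lam ≤ ∑ j, lam j := by
  have h1 := hC.idx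
  have h2 : ((∑ i, dd (f i) nn lam : ℕ) : ℤ) = -∑ j, (lam j : ℤ) * ∑ i, hm (f i) (nn j) := by
    push_cast
    rw [Finset.sum_congr rfl fun i _ => dd_eq (f i) nn lam hC.rel, Finset.sum_neg_distrib,
      Finset.sum_comm]
    congr 1
    refine Finset.sum_congr rfl fun j _ => ?_
    rw [Finset.mul_sum]
  simp only [mul_add, mul_one, Finset.sum_add_distrib] at h1
  have h3 : ((1 + ∑ i, dd (f i) nn lam : ℕ) : ℤ) ≤ ((∑ j, lam j : ℕ) : ℤ) := by
    rw [Nat.cast_add, h2]
    push_cast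
    linarith
  exact_mod_cast h3

/-- Twisting the point `χ` by `∏ y_j ^ n_j`. -/
theorem ev_twist {L L' : Type} [Field L] [Algebra k L] [Field L'] [Algebra k L'] [Algebra L L']
    [IsScalarTower k L L'] (χ : Multiplicative M →* L) (f : M →₀ k) (nn : J → M →+ ℤ)
    (y : J → L') (hy : ∀ j, y j ≠ 0) (ψ : Multiplicative M →* L')
    (hψ : ∀ m : M, ψ (Multiplicative.ofAdd m)
      = algebraMap L L' (χ (Multiplicative.ofAdd m)) * ∏ j, y j ^ (nn j m)) :
    ev ψ f = (∏ j, y j ^ hm f (nn j)) * MvPolynomial.aeval y (Fp χ nn f) := by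
  unfold Fp ev Finsupp.sum
  rw [map_sum, Finset.mul_sum]
  refine Finset.sum_congr rfl fun m hm' => ?_
  beta_reduce
  rw [MvPolynomial.aeval_monomial, hψ, Finsupp.prod_fintype _ _ (fun i => by rw [pow_zero]),
    map_mul, ← IsScalarTower.algebraMap_apply]
  have h1 : ∏ j, y j ^ (nn j m) = (∏ j, y j ^ hm f (nn j)) *
      ∏ j, y j ^ (Finsupp.equivFunOnFinite.symm fun j => (nn j m - hm f (nn j)).toNat) j := by
    rw [← Finset.prod_mul_distrib]
    refine Finset.prod_congr rfl fun j _ => ?_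
    rw [Finsupp.equivFunOnFinite_symm_apply_apply, ← zpow_natCast,
      Int.toNat_of_nonneg (sub_nonneg.2 (hm_le f (nn j) hm')), ← zpow_add₀ (hy j)]
    congr 1
    ring
  rw [h1]
  ring

/-- The weighted homogeneous system of a circuit at a point `χ`. -/
noncomputable def sysOf {L : Type} [Field L] [Algebra k L] (χ : Multiplicative M →* L) {ι : Type}
    [Fintype ι] {f : ι → M →₀ k} {nn : J → M →+ ℤ} {lam : J → ℕ} (hC : Circ f nn lam)
    (hχ : ∀ i, ev χ (f i) = 0) : WSys L J ι where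
  lam := lam
  d := fun i => dd (f i) nn lam
  F := fun i => Fp χ nn (f i)
  lam_pos := hC.pos
  hom := fun i => Fp_hom χ (f i) nn lam hC.rel
  one := fun i => by rw [Fp_one, hχ i]

end T4
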