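import Pool.Agent.Lib.MP_23b606_ag.T3.Bnd
import Pool.Agent.Lib.MP_23b606_ag.T4.Sys

/-! Bnd: the bound for the determinant (row T4-3). -/

set_option autoImplicit false

open scoped BigOperators

namespace T4

open T1 T3

variable {k : Type} [Field k] [CharZero k]

private theorem Bnd_v_prod {K : Type} [Field K] {O : ValuationSubring K} (V : NVal O) {α : Type}
    (S : Finset α) (x : α → K) (hx : ∀ i ∈ S, x i ≠ 0) :
    V.v (∏ i ∈ S, x i) = ∑ i ∈ S, V.v (x i) := by
  classical
  induction S using Finset.induction_on with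
  | empty => rw [Finset.prod_empty, Finset.sum_empty, V.one]
  | insert a S ha ih =>
    rw [Finset.prod_insert ha, Finset.sum_insert ha, V.mul _ _ (hx a (Finset.mem_insert_self a S))
      (Finset.prod_ne_zero_iff.2 fun i hi => hx i (Finset.mem_insert_of_mem hi)),
      ih fun i hi => hx i (Finset.mem_insert_of_mem hi)]

/-- The bound for `Δ = det (dl χ (f s) (θ s'))`:
`∑_s (lam s + hm (g s) ν) + card Z ≤ v(Δ)`, `ν = ∑ nn q`, if all `nn q`, `q ∈ Z`, are nonzero
combinations of the `θ s`. The proof is that of `T3.v_det_ge` (T3/Bnd.lean; copy it; use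
`T3.det_expand`), with `hterm` instead of `V.nu`: a term with nonzero integer determinant has value
`≥ ∑_s (lam s + ν (μ s))` (nonzero integers have value `≥ 0`; they are in `O`). -/
theorem v_det_ge {M : Type} [AddCommGroup M] {K : Type} [Field K] [Algebra k K]
    {O : ValuationSubring K} (V : NVal O)
    (χ : Multiplicative M →* K) {S : Type} [Fintype S] [DecidableEq S] (f g : S → M →₀ k)
    (hz : ∀ s, ev χ (f s) = 0) (hs : ∀ s, (f s).support ⊆ (g s).support) (θ : S → M →+ ℤ)
    {α : Type} [Fintype α] (nn : α → M →+ ℤ) (lam : S → ℤ)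
    (hterm : ∀ s m, f s m ≠ 0 → lam s + (∑ q, nn q) m ≤
      V.v (algebraMap k K (f s m) * χ (Multiplicative.ofAdd m)))
    (hadd : ∀ s, hm (g s) (∑ q, nn q) = ∑ q, hm (g s) (nn q)) (Z : Finset α)
    (hZ0 : ∀ q ∈ Z, nn q ≠ 0) (hZ : ∀ q ∈ Z, ∃ c : S → ℤ, nn q = ∑ s, c s • θ s)
    (hdet : Matrix.det (Matrix.of fun s s' : S => dl χ (f s) (θ s')) ≠ 0) :
    ∑ s, (lam s + hm (g s) (∑ q, nn q)) + (Z.card : ℤ) ≤
      V.v (Matrix.det (Matrix.of fun s s' : S => dl χ (f s) (θ s'))) := by
  classical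
  have hχ0 : ∀ x : Multiplicative M, χ x ≠ 0 := fun x hx => by
    have h : χ (x * x⁻¹) = 0 := by rw [map_mul, hx, zero_mul]
    rw [mul_inv_cancel, map_one] at h
    exact one_ne_zero h
  have hf0 : ∀ s, f s ≠ 0 := by
    intro s hs0
    apply hdet
    refine Matrix.det_eq_zero_of_row_eq_zero s fun s' => ?_
    rw [Matrix.of_apply, hs0]
    unfold dl
    exact Finsupp.sum_zero_index
  have hg0 : ∀ s, g s ≠ 0 := by
    intro s h
    obtain ⟨m, hm'⟩ := Finsupp.support_nonempty_iff.2 (hf0 s)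
    have h1 := hs s hm'
    rw [h] at h1
    simp at h1
  choose p hp1 hp2 using fun s => exists_eq_hm (g s) (hg0 s) (∑ q, nn q)
  have hνm : ∀ m : M, (∑ q, nn q) m = ∑ q, nn q m := fun m => by simp
  have hk : ∀ s q, nn q (p s) = hm (g s) (nn q) := by
    intro s
    have h1 : ∑ q, (nn q (p s) - hm (g s) (nn q)) = 0 := by
      rw [Finset.sum_sub_distrib, ← hadd s, ← hνm, hp2 s, sub_self]
    have h2 := (Finset.sum_eq_zero_iff_of_nonneg (fun q _ =>
      sub_nonneg.2 (hm_le (g s) (nn q) (hp1 s)))).1 h1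
    intro q
    exact sub_eq_zero.1 (h2 q (Finset.mem_univ q))
  have hge : ∀ s q, ∀ m ∈ (f s).support, 0 ≤ nn q (m - p s) := by
    intro s q m hm'
    rw [map_sub, hk s q]
    exact sub_nonneg.2 (hm_le (g s) (nn q) (hs s hm'))
  set c : S → M → K := fun s m => algebraMap k K (f s m) * χ (Multiplicative.ofAdd m) with hc
  have hev : ∀ s, ∑ m ∈ (f s).support, c s m = 0 := fun s => hz s
  have hmat : (Matrix.of fun s s' : S => dl χ (f s) (θ s')) = Matrix.of fun s s' : S =>
      ∑ m ∈ (f s).support, c s m * (((fun (s s' : S) (m : M) => θ s' (m - p s)) s s' m : ℤ) : K) := by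
    ext s s'
    rw [Matrix.of_apply, Matrix.of_apply]
    have h1 : dl χ (f s) (θ s') = ∑ m ∈ (f s).support, c s m * ((θ s' m : ℤ) : K) := rfl
    have h2 : ∀ m ∈ (f s).support, c s m * ((θ s' m : ℤ) : K) =
        c s m * ((θ s' (m - p s) : ℤ) : K) + c s m * ((θ s' (p s) : ℤ) : K) := by
      intro m _
      rw [map_sub]
      push_cast
      ring
    rw [h1, Finset.sum_congr rfl h2, Finset.sum_add_distrib, ← Finset.sum_mul, hev s, zero_mul,
      add_zero]
  rw [hmat, det_expand] at hdet ⊢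
  have hcv : ∀ s, ∀ m ∈ (f s).support, c s m ≠ 0 ∧ lam s + (∑ q, nn q) m ≤ V.v (c s m) := by
    intro s m hm'
    have h1 : f s m ≠ 0 := Finsupp.mem_support_iff.1 hm'
    have h2 : algebraMap k K (f s m) ≠ 0 := by
      rwa [Ne, map_eq_zero]
    exact ⟨mul_ne_zero h2 (hχ0 _), hterm s m h1⟩
  have hval := V.sum (Fintype.piFinset fun s => (f s).support) (fun μ => (∏ s, c s (μ s)) *
    (((Matrix.det (Matrix.of fun s s' : S => (fun (s s' : S) (m : M) => θ s' (m - p s)) s s' (μ s)) :
      ℤ) : K))) (∑ s, (lam s + hm (g s) (∑ q, nn q)) + (Z.card : ℤ) - 1) (by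
    intro μ hμ
    rw [Fintype.mem_piFinset] at hμ
    by_cases hD : Matrix.det (Matrix.of fun s s' : S => θ s' (μ s - p s)) = 0
    · left
      change (∏ s, c s (μ s)) *
        ((Matrix.det (Matrix.of fun s s' : S => θ s' (μ s - p s)) : ℤ) : K) = 0
      rw [hD, Int.cast_zero, mul_zero]
    · right
      change _ < V.v ((∏ s, c s (μ s)) *
        ((Matrix.det (Matrix.of fun s s' : S => θ s' (μ s - p s)) : ℤ) : K))
      have hD0 : ((Matrix.det (Matrix.of fun s s' : S => θ s' (μ s - p s)) : ℤ) : K) ≠ 0 := by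
        haveI : CharZero K := charZero_of_injective_algebraMap (algebraMap k K).injective
        exact_mod_cast hD
      have hDv : 0 ≤ V.v ((Matrix.det (Matrix.of fun s s' : S => θ s' (μ s - p s)) : ℤ) : K) :=
        (V.mem _ hD0).1 (intCast_mem O _)
      have hsum : ∑ s, (lam s + (∑ q, nn q) (μ s)) ≤ ∑ s, V.v (c s (μ s)) :=
        Finset.sum_le_sum fun s _ => (hcv s _ (hμ s)).2
      rw [V.mul _ _ (Finset.prod_ne_zero_iff.2 fun s _ => (hcv s _ (hμ s)).1) hD0,
        Bnd_v_prod V _ _ fun s _ => (hcv s _ (hμ s)).1]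
      have h1 : ∀ s, lam s + (∑ q, nn q) (μ s) =
          (lam s + hm (g s) (∑ q, nn q)) + ∑ q, nn q (μ s - p s) := by
        intro s
        rw [← hνm, map_sub, hp2 s]
        ring
      rw [Finset.sum_congr rfl fun s _ => h1 s, Finset.sum_add_distrib,
        Finset.sum_comm (f := fun s q => nn q (μ s - p s))] at hsum
      have h2 : ∀ q, 0 ≤ ∑ s, nn q (μ s - p s) := fun q =>
        Finset.sum_nonneg fun s _ => hge s q _ (hμ s)
      have h3 : ∀ q ∈ Z, (1 : ℤ) ≤ ∑ s, nn q (μ s - p s) := by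
        intro q hqZ
        by_contra hcon
        have h4 : ∑ s, nn q (μ s - p s) = 0 := le_antisymm (by omega) (h2 q)
        have h5 := (Finset.sum_eq_zero_iff_of_nonneg (fun s _ => hge s q _ (hμ s))).1 h4
        obtain ⟨a, ha⟩ := hZ q hqZ
        have h6 : (Matrix.of fun s s' : S => θ s' (μ s - p s)).mulVec a = 0 := by
          funext s
          have h7 := h5 s (Finset.mem_univ s)
          rw [ha] at h7
          rw [Matrix.mulVec, Pi.zero_apply, ← h7]
          simp only [dotProduct, Matrix.of_apply, AddMonoidHom.finsetSum_apply,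
            AddMonoidHom.coe_smul, Pi.smul_apply, smul_eq_mul]
          exact Finset.sum_congr rfl fun s' _ => mul_comm _ _
        have h8 := Matrix.eq_zero_of_mulVec_eq_zero hD h6
        apply hZ0 q hqZ
        rw [ha, h8]
        simp
      have h4 : (Z.card : ℤ) ≤ ∑ q, ∑ s, nn q (μ s - p s) := by
        calc (Z.card : ℤ) = ∑ q ∈ Z, (1 : ℤ) := by simp
          _ ≤ ∑ q ∈ Z, ∑ s, nn q (μ s - p s) := Finset.sum_le_sum h3
          _ ≤ ∑ q, ∑ s, nn q (μ s - p s) :=
            Finset.sum_le_sum_of_subset_of_nonneg (Finset.subset_univ Z) fun q _ _ => h2 q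
      linarith)
  rcases hval with h | h
  · exact absurd h hdet
  · exact Int.le_of_sub_one_lt h

end T4
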