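import Pool.Agent.Lib.MP_23b606_ag.T4.Main2
import Pool.Agent.Lib.MP_23b606_ag.T3.SchSm

/-! Cor: the case of a point as base is Theorem T3. -/

set_option autoImplicit false

open scoped BigOperators

namespace T4

open T1 T3

variable {M : Type} [AddCommGroup M] {K : Type} [Field K] [Algebra ℂ K] {ι : Type} [Fintype ι]

/-- Over a point. -/
theorem baseAt_zero {n : ℕ} {O : ValuationSubring K} (hO : IsDiv n O) (a : Fin 0 → ℂ)
    (D : Fin 0 → Derivation ℂ ℂ ℂ) : BaseAt a D O where
  dual := fun s => s.elim0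
  mem := fun t => t.elim0
  reg := fun u _ => IsDiv.const hO u

/-- Smoothness in the sense of T3 is smoothness over a point. -/
theorem smoothOver_of_smoothAt [DecidableEq ι] {n : ℕ} {f : ι → M →₀ ℂ} {B : ι → Finset M}
    {χ : Multiplicative M →* K} {O : ValuationSubring K} (hO : IsDiv n O)
    (h : SmoothAt n f B χ O) : SmoothOver n 0 f (fun i => indB (B i)) χ O := by
  obtain ⟨b1, p, hz, hp, hmin, hval⟩ := h
  have hχ0 := om_chi_ne χ
  let E : Fin n ⊕ ι ≃ Fin (Fintype.card (Fin n ⊕ ι)) := Fintype.equivFin _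
  let σ : Fin (n + 0) ⊕ ι ≃ Fin (Fintype.card (Fin n ⊕ ι)) ⊕ Fin 0 :=
    E.trans (Equiv.sumEmpty _ _).symm
  have hb : ∀ x, (b1.reindex E) (E x) = b1 x := fun x => by
    rw [Module.Basis.reindex_apply, Equiv.symm_apply_apply]
  have hb' : ∀ x, (b1.reindex E) x = b1 (E.symm x) := fun x => Module.Basis.reindex_apply _ _ _
  have hc : ∀ x, (b1.reindex E).coord x = b1.coord (E.symm x) := fun x => by
    ext m
    rw [Module.Basis.coord_apply, Module.Basis.repr_reindex, Finsupp.mapDomain_equiv_apply,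
      Module.Basis.coord_apply]
  refine ⟨Fin.elim0, Fin.elim0, 1, fun _ => 1, f, fun i => indB (B i), χ, p, _,
    b1.reindex E, σ, baseAt_zero hO _ _, ?_, fun _ => one_ne_zero, ?_, ?_, ?_, ?_, ?_, ?_, ?_⟩
  · intro m
    simp
  · intro i m
    simp
  · intro i m
    simp
  · exact fun i m => ⟨IsDiv.const hO _, IsDiv.const hO _⟩
  · intro x
    rw [hb']
    exact hz _
  · intro i m hm' x hx
    rw [hb'] at hx
    rw [hc]
    rw [indB_support] at hm'
    exact hmin i m hm' _ hx
  · left
    intro i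
    rw [indB_support]
    exact hp i
  · have h1 : (Matrix.of fun i i' : ι => Sum.elim
        (fun x => dl χ (f i) ((b1.reindex E).coord x).toAddMonoidHom /
          χ (Multiplicative.ofAdd ((b1.reindex E) x)))
        (fun t => dc ((Fin.elim0 : Fin 0 → Derivation ℂ ℂ ℂ) t) χ (f i)) (σ (Sum.inr i')) /
          χ (Multiplicative.ofAdd (p i))) =
        Matrix.of fun i i' : ι => (χ (Multiplicative.ofAdd (p i)))⁻¹ *
          (Matrix.of fun i i' : ι => (χ (Multiplicative.ofAdd (b1 (Sum.inr i'))))⁻¹ *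
          (Matrix.of fun i i' : ι => dl χ (f i) (b1.coord (Sum.inr i')).toAddMonoidHom) i i')
            i i' := by
      ext i i'
      have h2 : σ (Sum.inr i') = Sum.inl (E (Sum.inr i')) := rfl
      rw [Matrix.of_apply, h2, Sum.elim_inl, hb, hc, Equiv.symm_apply_apply, Matrix.of_apply,
        Matrix.of_apply, Matrix.of_apply, div_eq_mul_inv, div_eq_mul_inv]
      ring
    rw [h1, Matrix.det_mul_column, Matrix.det_mul_row]
    have h3 : (∏ i, (χ (Multiplicative.ofAdd (p i)))⁻¹) *
        ((∏ i, (χ (Multiplicative.ofAdd (b1 (Sum.inr i))))⁻¹) *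
        Matrix.det (Matrix.of fun i i' : ι => dl χ (f i) (b1.coord (Sum.inr i')).toAddMonoidHom)) =
        Matrix.det (Matrix.of fun i i' : ι => dl χ (f i) (b1.coord (Sum.inr i')).toAddMonoidHom) /
      ∏ i, (χ (Multiplicative.ofAdd (p i)) * χ (Multiplicative.ofAdd (b1 (Sum.inr i)))) := by
      rw [Finset.prod_mul_distrib, Finset.prod_inv_distrib, Finset.prod_inv_distrib,
        div_eq_mul_inv, mul_inv]
      ring
    rw [h3]
    exact hval

/-- A point has Kodaira dimension `0`. -/
theorem not_kodairaNegInf_zero : ¬ KodairaNegInf ℂ 0 := by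
  intro h
  have h1 := h Fin.elim0 1 1 ⟨Fin.elim0, by
    unfold jac
    rw [Matrix.det_fin_zero]
    exact one_ne_zero⟩ le_rfl fun O _ => ⟨Fin.elim0, 1, 1, fun i => i.elim0, O.one_mem,
      fun D => by
        unfold jac
        rw [Matrix.det_fin_zero, one_mul], by ring⟩
  exact one_ne_zero h1

/-- **Theorem T3** is the case of a point as base of Theorem T4. -/
theorem main3_smooth' [Module.Free ℤ M] [Module.Finite ℤ M] [DecidableEq ι]
    {f : ι → M →₀ ℂ} {B : ι → Finset M} (hB : ∀ i, (f i).support ⊆ B i)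
    (χ : Multiplicative M →* K) {n : ℕ} (hχ : T1.Pt f χ n) {D : Set (ValuationSubring K)}
    (hD : ∀ O ∈ D, IsDiv n O ∧ SmoothAt n f B χ O) (hκ : KodairaNegOn D n) : Uniruled K := by
  refine main4_smooth (k := ℂ) (e := 0) ?_ not_kodairaNegInf_zero
    (f := f) (g := fun i => indB (B i)) ?_ χ ⟨hχ.gen, hχ.zero, hχ.trd, hχ.dim⟩
    (fun O hO => ⟨(hD O hO).1, smoothOver_of_smoothAt (hD O hO).1 (hD O hO).2⟩) hκ
  · rw [Nat.cast_zero]
    exact trdeg_eq_zero
  · intro i
    rw [indB_support]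
    exact hB i

end T4
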