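import Pool.Agent.Lib.MP_23b606_ag.T4.Adj
import Pool.Agent.Lib.MP_23b606_ag.T3.SmAdj

/-! Crep: decompositions of the value function of a point of a chart. With base point freeness
on the chart the coordinate functions do it. For one equation without base point freeness on a
stratum of codimension two one toric blow-up is needed. -/

set_option autoImplicit false

open scoped BigOperators

namespace T4

open T1 T3

variable {k : Type} [Field k] {K : Type} [Field K] [Algebra k K] {M : Type} [AddCommGroup M]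
  {ι : Type} [Fintype ι] {d : ℕ}

theorem crep_hm (g : M →₀ k) (θ : M →+ ℤ) (p : M) (hp : p ∈ g.support)
    (h : ∀ m ∈ g.support, θ p ≤ θ m) : hm g θ = θ p := by
  have hne : g.support.Nonempty := ⟨p, hp⟩
  rw [hm, dif_pos hne]
  apply le_antisymm
  · exact Finset.inf'_le _ hp
  · rw [Finset.le_inf'_iff]
    exact h

/-- What is needed of the decomposition `ν = ∑ n_q` of the value function. -/
def Crep (b : Module.Basis (Fin d) ℤ M) (g : ι → M →₀ k) (ψ : Multiplicative M →* K) (p : ι → M)
    {O : ValuationSubring K} (V : NVal O) : Prop :=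
  ∃ (α : Type) (_ : Fintype α) (nn : α → M →+ ℤ), (∀ q, nn q ≠ 0) ∧ V.nu ψ = ∑ q, nn q ∧
    (∀ i, hm (g i) (V.nu ψ) = ∑ q, hm (g i) (nn q)) ∧
    ∑ i, V.nu ψ (p i) + ∑ x, V.v (ψ (Multiplicative.ofAdd (b x))) ≤
      ∑ i, hm (g i) (V.nu ψ) + (Fintype.card α : ℤ)

/-- Decompositions with common minima. -/
theorem crep_of_min (b : Module.Basis (Fin d) ℤ M) (g : ι → M →₀ k) (ψ : Multiplicative M →* K)
    (p P : ι → M) {O : ValuationSubring K} (V : NVal O) (α : Type) [Fintype α]
    (nn : α → M →+ ℤ) (h0 : ∀ q, nn q ≠ 0) (hnu : V.nu ψ = ∑ q, nn q)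
    (hP : ∀ i, P i ∈ (g i).support) (hmin : ∀ q i, ∀ m ∈ (g i).support, nn q (P i) ≤ nn q m)
    (hle : ∑ i, V.nu ψ (p i) + ∑ x, V.v (ψ (Multiplicative.ofAdd (b x))) ≤
      ∑ i, V.nu ψ (P i) + (Fintype.card α : ℤ)) : Crep b g ψ p V := by
  have h1 : ∀ i, hm (g i) (V.nu ψ) = V.nu ψ (P i) := by
    intro i
    refine crep_hm _ _ _ (hP i) fun m hm' => ?_
    rw [hnu, AddMonoidHom.finsetSum_apply, AddMonoidHom.finsetSum_apply]
    exact Finset.sum_le_sum fun q _ => hmin q i m hm'
  refine ⟨α, inferInstance, nn, h0, hnu, fun i => ?_, ?_⟩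
  · rw [h1, hnu, AddMonoidHom.finsetSum_apply]
    exact Finset.sum_congr rfl fun q _ => (crep_hm _ _ _ (hP i) (hmin q i)).symm
  · rw [Finset.sum_congr rfl fun i _ => h1 i]
    exact hle

theorem crep_nu (b : Module.Basis (Fin d) ℤ M) (ψ : Multiplicative M →* K)
    {O : ValuationSubring K} (V : NVal O) (m : M) :
    V.nu ψ m = ∑ x, V.v (ψ (Multiplicative.ofAdd (b x))) * b.coord x m := by
  conv_lhs => rw [← b.sum_repr m]
  rw [map_sum]
  refine Finset.sum_congr rfl fun x _ => ?_
  rw [map_zsmul, smul_eq_mul, mul_comm]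
  rfl

theorem crep_coord_ne (b : Module.Basis (Fin d) ℤ M) (x : Fin d) :
    (b.coord x).toAddMonoidHom ≠ 0 := by
  intro h
  have h1 := DFunLike.congr_fun h (b x)
  change b.coord x (b x) = 0 at h1
  rw [Module.Basis.coord_apply, Module.Basis.repr_self, Finsupp.single_eq_same] at h1
  exact one_ne_zero h1

/-- The base point free case. -/
theorem crep_bpf (b : Module.Basis (Fin d) ℤ M) (g : ι → M →₀ k) (ψ : Multiplicative M →* K)
    (p P : ι → M) {O : ValuationSubring K} (V : NVal O)
    (hb : ∀ x, ψ (Multiplicative.ofAdd (b x)) ∈ O) (hP : ∀ i, P i ∈ (g i).support)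
    (hmin : ∀ i, ∀ m ∈ (g i).support, ∀ x, 0 < V.v (ψ (Multiplicative.ofAdd (b x))) →
      0 ≤ b.coord x (m - P i)) (hpP : ∀ i, V.nu ψ (p i) ≤ V.nu ψ (P i)) : Crep b g ψ p V := by
  have hk0 : ∀ x, 0 ≤ V.v (ψ (Multiplicative.ofAdd (b x))) := fun x =>
    (V.mem _ (om_chi_ne ψ _)).1 (hb x)
  have hsum : ∀ F : Fin d → ℤ,
      ∑ q : (Σ x : Fin d, Fin (V.v (ψ (Multiplicative.ofAdd (b x)))).toNat), F q.1 =
        ∑ x, V.v (ψ (Multiplicative.ofAdd (b x))) * F x := by
    intro F
    rw [Fintype.sum_sigma]
    refine Finset.sum_congr rfl fun x _ => ?_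
    dsimp only
    rw [Finset.sum_const, Finset.card_univ, Fintype.card_fin, nsmul_eq_mul,
      Int.toNat_of_nonneg (hk0 x)]
  have hcard : ((Fintype.card (Σ x : Fin d,
      Fin (V.v (ψ (Multiplicative.ofAdd (b x)))).toNat) : ℕ) : ℤ) =
      ∑ x, V.v (ψ (Multiplicative.ofAdd (b x))) := by
    have h1 := hsum fun _ => 1
    simp only [mul_one] at h1
    rw [← h1, Finset.sum_const, Finset.card_univ, nsmul_eq_mul, mul_one]
  refine crep_of_min b g ψ p P V
    (Σ x : Fin d, Fin (V.v (ψ (Multiplicative.ofAdd (b x)))).toNat)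
    (fun q => (b.coord q.1).toAddMonoidHom) (fun q => crep_coord_ne b q.1) ?_ hP ?_ ?_
  · ext m
    rw [AddMonoidHom.finsetSum_apply, crep_nu b ψ V]
    exact (hsum fun x => b.coord x m).symm
  · intro q i m hm'
    have hk : 0 < V.v (ψ (Multiplicative.ofAdd (b q.1))) := by
      have := q.2.2
      omega
    have h2 := hmin i m hm' q.1 hk
    rw [map_sub] at h2
    change b.coord q.1 (P i) ≤ b.coord q.1 m
    omega
  · rw [hcard]
    exact add_le_add_left (Finset.sum_le_sum fun i _ => hpP i) _

/-- A unit partial derivative in the direction of the coordinate `x1`: some monomial which is not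
of order one in this coordinate has at most the value of the coordinate. -/
theorem crep_unit (b : Module.Basis (Fin d) ℤ M) (ψ : Multiplicative M →* K) (f g : M →₀ k)
    (p : M) {O : ValuationSubring K} (V : NVal O) (hz : ev ψ f = 0)
    (hsub : f.support ⊆ g.support) (hf : ∀ m, algebraMap k K (f m) ∈ O) (x1 : Fin d)
    (hu : O.valuation (dl ψ f (b.coord x1).toAddMonoidHom / ψ (Multiplicative.ofAdd (b x1)) /
      ψ (Multiplicative.ofAdd p)) = 1) :
    ∃ m ∈ g.support, b.coord x1 (m - p) ≠ 1 ∧
      V.nu ψ (m - p) ≤ V.v (ψ (Multiplicative.ofAdd (b x1))) := by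
  by_contra hcon
  push Not at hcon
  obtain ⟨hJ0, hJ⟩ := smAdj_eq V hu
  have hD0 : dl ψ f (b.coord x1).toAddMonoidHom ≠ 0 := by
    intro h
    rw [h, zero_div, zero_div] at hJ0
    exact hJ0 rfl
  have hb0 := om_chi_ne ψ (b x1)
  have hp0 := om_chi_ne ψ p
  have hDv : V.v (dl ψ f (b.coord x1).toAddMonoidHom) =
      V.v (ψ (Multiplicative.ofAdd (b x1))) + V.nu ψ p := by
    rw [div_eq_mul_inv, div_eq_mul_inv, V.mul _ _ (mul_ne_zero hD0 (inv_ne_zero hb0))
      (inv_ne_zero hp0), V.mul _ _ hD0 (inv_ne_zero hb0), V.inv hb0, V.inv hp0] at hJ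
    have h1 : V.nu ψ p = V.v (ψ (Multiplicative.ofAdd p)) := rfl
    rw [h1]
    linarith
  have hD : dl ψ f (b.coord x1).toAddMonoidHom =
      ∑ m ∈ f.support, algebraMap k K (f m) * ψ (Multiplicative.ofAdd m) *
        ((b.coord x1 (m - p) - 1 : ℤ) : K) := by
    have h1 : ∑ m ∈ f.support, algebraMap k K (f m) * ψ (Multiplicative.ofAdd m) = 0 := hz
    have h2 : ∑ m ∈ f.support, algebraMap k K (f m) * ψ (Multiplicative.ofAdd m) *
        ((b.coord x1 p + 1 : ℤ) : K) = 0 := by
      rw [← Finset.sum_mul, h1, zero_mul]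
    have h3 : dl ψ f (b.coord x1).toAddMonoidHom =
        ∑ m ∈ f.support, algebraMap k K (f m) * ψ (Multiplicative.ofAdd m) *
          ((b.coord x1 m : ℤ) : K) := rfl
    rw [h3, ← sub_zero (∑ m ∈ f.support, algebraMap k K (f m) * ψ (Multiplicative.ofAdd m) *
          ((b.coord x1 m : ℤ) : K)), ← h2, ← Finset.sum_sub_distrib]
    refine Finset.sum_congr rfl fun m _ => ?_
    rw [map_sub]
    push_cast
    ring
  have h4 := V.sum f.support (fun m => algebraMap k K (f m) * ψ (Multiplicative.ofAdd m) *
        ((b.coord x1 (m - p) - 1 : ℤ) : K))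
        (V.v (ψ (Multiplicative.ofAdd (b x1))) + V.nu ψ p) (fun m hm' => by
    by_cases h1 : b.coord x1 (m - p) = 1
    · left
      rw [h1]
      simp
    by_cases h2 : ((b.coord x1 (m - p) - 1 : ℤ) : K) = 0
    · left
      rw [h2, mul_zero]
    right
    have h3 := hcon m (hsub hm') h1
    have hfm : algebraMap k K (f m) ≠ 0 := by
      rw [Ne, FaithfulSMul.algebraMap_eq_zero_iff]
      exact Finsupp.mem_support_iff.1 hm'
    have hi : 0 ≤ V.v ((b.coord x1 (m - p) - 1 : ℤ) : K) :=
      (V.mem _ h2).1 (intCast_mem O _)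
    have hc : 0 ≤ V.v (algebraMap k K (f m)) := (V.mem _ hfm).1 (hf m)
    rw [V.mul _ _ (mul_ne_zero hfm (om_chi_ne ψ m)) h2, V.mul _ _ hfm (om_chi_ne ψ m)]
    have h5 : V.nu ψ (m - p) = V.v (ψ (Multiplicative.ofAdd m)) - V.nu ψ p := by
      rw [map_sub]
      rfl
    rw [h5] at h3
    linarith)
  rw [← hD] at h4
  rcases h4 with h4 | h4
  · exact hD0 h4
  · rw [hDv] at h4
    exact lt_irrefl _ h4

/-- One equation `i0` without base point freeness on a stratum of codimension at most two. -/
theorem crep_two (b : Module.Basis (Fin d) ℤ M) (g : ι → M →₀ k) (ψ : Multiplicative M →* K)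
    (p : ι → M) {O : ValuationSubring K} (V : NVal O)
    (hb : ∀ x, ψ (Multiplicative.ofAdd (b x)) ∈ O)
    (hmin : ∀ i, ∀ m ∈ (g i).support, ∀ x, 0 < V.v (ψ (Multiplicative.ofAdd (b x))) →
      0 ≤ b.coord x (m - p i)) (i0 : ι) (x1 x2 : Fin d)
    (hx : ∀ x, x ≠ x1 → x ≠ x2 → V.v (ψ (Multiplicative.ofAdd (b x))) = 0)
    (hp : ∀ i, i ≠ i0 → p i ∈ (g i).support) (f : M →₀ k) (hz : ev ψ f = 0)
    (hsub : f.support ⊆ (g i0).support) (hf : ∀ m, algebraMap k K (f m) ∈ O)
    (hu : O.valuation (dl ψ f (b.coord x1).toAddMonoidHom / ψ (Multiplicative.ofAdd (b x1)) /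
      ψ (Multiplicative.ofAdd (p i0))) = 1) : Crep b g ψ p V := by
  classical
  have hk0 : ∀ x, 0 ≤ V.v (ψ (Multiplicative.ofAdd (b x))) := fun x =>
    (V.mem _ (om_chi_ne ψ _)).1 (hb x)
  have hnn : ∀ m ∈ (g i0).support, ∀ x,
      0 ≤ V.v (ψ (Multiplicative.ofAdd (b x))) * b.coord x (m - p i0) := by
    intro m hm' x
    rcases (hk0 x).eq_or_lt with h3 | h3
    · rw [← h3, zero_mul]
    · exact mul_nonneg (hk0 x) (hmin i0 m hm' x h3)
  have hsingle : ∀ m ∈ (g i0).support, ∀ x,
      V.v (ψ (Multiplicative.ofAdd (b x))) * b.coord x (m - p i0) ≤ V.nu ψ (m - p i0) := by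
    intro m hm' x
    rw [crep_nu b ψ V (m - p i0)]
    exact Finset.single_le_sum (f := fun x => V.v (ψ (Multiplicative.ofAdd (b x))) *
      b.coord x (m - p i0)) (fun y _ => hnn m hm' y) (Finset.mem_univ x)
  obtain ⟨m3, hm3, hj3, hv3⟩ := crep_unit b ψ f (g i0) (p i0) V hz hsub hf x1 hu
  by_cases hcase : ∃ m ∈ (g i0).support, (0 < V.v (ψ (Multiplicative.ofAdd (b x1))) →
      b.coord x1 (m - p i0) = 0) ∧ (0 < V.v (ψ (Multiplicative.ofAdd (b x2))) →
      b.coord x2 (m - p i0) = 0)
  · -- the equation is base point free on the chart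
    obtain ⟨m, hm', h1, h2⟩ := hcase
    have h0 : ∀ x, 0 < V.v (ψ (Multiplicative.ofAdd (b x))) → b.coord x (m - p i0) = 0 := by
      intro x hx'
      by_cases e1 : x = x1
      · subst e1
        exact h1 hx'
      by_cases e2 : x = x2
      · subst e2
        exact h2 hx'
      rw [hx x e1 e2] at hx'
      exact absurd hx' (lt_irrefl _)
    have h3 : V.nu ψ m = V.nu ψ (p i0) := by
      have h4 : V.nu ψ (m - p i0) = 0 := by
        rw [crep_nu b ψ V]
        refine Finset.sum_eq_zero fun x _ => ?_
        rcases (hk0 x).eq_or_lt with h3 | h3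
        · rw [← h3, zero_mul]
        · rw [h0 x h3, mul_zero]
      rw [map_sub] at h4
      omega
    refine crep_bpf b g ψ p (Function.update p i0 m) V hb ?_ ?_ ?_
    · intro i
      by_cases hi : i = i0
      · subst hi
        rw [Function.update_self]
        exact hm'
      · rw [Function.update_of_ne hi]
        exact hp i hi
    · intro i m' hm'' x hx'
      by_cases hi : i = i0
      · subst hi
        rw [Function.update_self]
        have h4 := hmin i m' hm'' x hx'
        have h5 := h0 x hx'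
        rw [map_sub] at h4 h5 ⊢
        omega
      · rw [Function.update_of_ne hi]
        exact hmin i m' hm'' x hx'
    · intro i
      by_cases hi : i = i0
      · subst hi
        rw [Function.update_self, h3]
      · rw [Function.update_of_ne hi]
  · push Not at hcase
    -- `x1` is a coordinate of positive value
    have hv1 : 0 < V.v (ψ (Multiplicative.ofAdd (b x1))) := by
      by_contra hc
      have h0 : V.v (ψ (Multiplicative.ofAdd (b x1))) = 0 := le_antisymm (not_lt.1 hc) (hk0 x1)
      obtain ⟨h1, h2⟩ := hcase m3 hm3 (fun h => absurd h hc)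
      have h3 : 1 ≤ b.coord x2 (m3 - p i0) := by
        have := hmin i0 m3 hm3 x2 h1
        omega
      have h4 := hsingle m3 hm3 x2
      have h5 : V.v (ψ (Multiplicative.ofAdd (b x2))) * 1 ≤
        V.v (ψ (Multiplicative.ofAdd (b x2))) * b.coord x2 (m3 - p i0) :=
        mul_le_mul_of_nonneg_left h3 (hk0 x2)
      rw [h0] at hv3
      omega
    have hj3' : b.coord x1 (m3 - p i0) = 0 := by
      have h1 := hmin i0 m3 hm3 x1 hv1
      by_contra hne
      have h2 : 2 ≤ b.coord x1 (m3 - p i0) := by omega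
      have h4 := hsingle m3 hm3 x1
      have h5 : V.v (ψ (Multiplicative.ofAdd (b x1))) * 2 ≤
        V.v (ψ (Multiplicative.ofAdd (b x1))) * b.coord x1 (m3 - p i0) :=
        mul_le_mul_of_nonneg_left h2 (hk0 x1)
      omega
    obtain ⟨hv2, -⟩ := hcase m3 hm3 (fun _ => hj3')
    have h12 : x1 ≠ x2 := by
      rintro rfl
      exact (hcase m3 hm3 (fun _ => hj3')).2 hj3'
    -- the minimum of the second coordinate
    have hne : ((g i0).support.filter fun m => b.coord x1 (m - p i0) = 0).Nonempty :=
      ⟨m3, Finset.mem_filter.2 ⟨hm3, hj3'⟩⟩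
    obtain ⟨m2, hm2, hm2min⟩ := Finset.exists_min_image
      ((g i0).support.filter fun m => b.coord x1 (m - p i0) = 0)
      (fun m => b.coord x2 (m - p i0)) hne
    rw [Finset.mem_filter] at hm2
    obtain ⟨a, ha⟩ : ∃ a, a = b.coord x2 (m2 - p i0) := ⟨_, rfl⟩
    have ha1 : 1 ≤ a := by
      have h1 := hmin i0 m2 hm2.1 x2 hv2
      have h2 := (hcase m2 hm2.1 (fun _ => hm2.2)).2
      omega
    have hav : a * V.v (ψ (Multiplicative.ofAdd (b x2))) ≤
        V.v (ψ (Multiplicative.ofAdd (b x1))) := by
      have h1 := hsingle m3 hm3 x2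
      have h2 := hm2min m3 (Finset.mem_filter.2 ⟨hm3, hj3'⟩)
      rw [← ha] at h2
      have h3 := mul_le_mul_of_nonneg_left h2 (hk0 x2)
      rw [mul_comm] at h3
      linarith
    have hnu : ∀ m, V.nu ψ m = V.v (ψ (Multiplicative.ofAdd (b x1))) * b.coord x1 m +
        V.v (ψ (Multiplicative.ofAdd (b x2))) * b.coord x2 m := by
      intro m
      rw [crep_nu b ψ V, Finset.sum_eq_add x1 x2 h12]
      · intro x _ hx'
        rw [hx x hx'.1 hx'.2, zero_mul]
      · exact fun h => absurd (Finset.mem_univ _) h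
      · exact fun h => absurd (Finset.mem_univ _) h
    have hsumv : ∑ x, V.v (ψ (Multiplicative.ofAdd (b x))) =
        V.v (ψ (Multiplicative.ofAdd (b x1))) + V.v (ψ (Multiplicative.ofAdd (b x2))) := by
      rw [Finset.sum_eq_add x1 x2 h12]
      · intro x _ hx'
        exact hx x hx'.1 hx'.2
      · exact fun h => absurd (Finset.mem_univ _) h
      · exact fun h => absurd (Finset.mem_univ _) h
    set v1 := V.v (ψ (Multiplicative.ofAdd (b x1))) with hv1d
    set v2 := V.v (ψ (Multiplicative.ofAdd (b x2))) with hv2d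
    refine crep_of_min b g ψ p (Function.update p i0 m2) V
      (Fin (v1 - a * v2).toNat ⊕ Fin v2.toNat)
      (Sum.elim (fun _ => (b.coord x1).toAddMonoidHom)
        fun _ => a • (b.coord x1).toAddMonoidHom + (b.coord x2).toAddMonoidHom) ?_ ?_ ?_ ?_ ?_
    · rintro (q | q)
      · exact crep_coord_ne b x1
      · intro h
        have h1 := DFunLike.congr_fun h (b x2)
        change a • b.coord x1 (b x2) + b.coord x2 (b x2) = 0 at h1
        rw [Module.Basis.coord_apply, Module.Basis.repr_self, Module.Basis.coord_apply,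
          Module.Basis.repr_self, Finsupp.single_eq_same,
          Finsupp.single_eq_of_ne h12, smul_zero, zero_add] at h1
        exact one_ne_zero h1
    · ext m
      rw [AddMonoidHom.finsetSum_apply, Fintype.sum_sum_type, hnu]
      simp only [Sum.elim_inl, Sum.elim_inr, Finset.sum_const, Finset.card_univ,
        Fintype.card_fin, nsmul_eq_mul]
      change _ = ((v1 - a * v2).toNat : ℤ) * b.coord x1 m +
        (v2.toNat : ℤ) * (a • b.coord x1 m + b.coord x2 m)
      rw [Int.toNat_of_nonneg (by omega), Int.toNat_of_nonneg hv2.le, smul_eq_mul]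
      ring
    · intro i
      by_cases hi : i = i0
      · subst hi
        rw [Function.update_self]
        exact hm2.1
      · rw [Function.update_of_ne hi]
        exact hp i hi
    · intro q i m hm'
      by_cases hi : i = i0
      · subst hi
        rw [Function.update_self]
        have h1 := hmin i m hm' x1 hv1
        have h2 := hmin i m hm' x2 hv2
        have h3 := hm2.2
        have h4 : b.coord x1 (m - p i) = 0 → a ≤ b.coord x2 (m - p i) := by
          intro h
          have h5 := hm2min m (Finset.mem_filter.2 ⟨hm', h⟩)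
          rw [← ha] at h5
          exact h5
        rw [map_sub] at h1 h2 h3 h4 ha
        rw [map_sub] at h4
        rcases q with q | q
        · change b.coord x1 m2 ≤ b.coord x1 m
          omega
        · change a • b.coord x1 m2 + b.coord x2 m2 ≤ a • b.coord x1 m + b.coord x2 m
          rw [smul_eq_mul, smul_eq_mul]
          rcases h1.eq_or_lt with h5 | h5
          · have h6 := h4 (by omega)
            have h7 : b.coord x1 m = b.coord x1 m2 := by omega
            rw [h7]
            omega
          · have h6 : a * 1 ≤ a * (b.coord x1 m - b.coord x1 (p i)) :=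
              mul_le_mul_of_nonneg_left (by omega) (by omega)
            have h7 : b.coord x1 m2 = b.coord x1 (p i) := by omega
            rw [h7]
            linarith
      · rw [Function.update_of_ne hi]
        have h1 := hmin i m hm' x1 hv1
        have h2 := hmin i m hm' x2 hv2
        rw [map_sub] at h1 h2
        rcases q with q | q
        · change b.coord x1 (p i) ≤ b.coord x1 m
          omega
        · change a • b.coord x1 (p i) + b.coord x2 (p i) ≤ a • b.coord x1 m + b.coord x2 m
          rw [smul_eq_mul, smul_eq_mul]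
          have h3 : a * b.coord x1 (p i) ≤ a * b.coord x1 m :=
            mul_le_mul_of_nonneg_left (by omega) (by omega)
          linarith
    · have h1 : ∑ i, V.nu ψ (Function.update p i0 m2 i) =
          ∑ i, V.nu ψ (p i) + a * v2 := by
        have h2 : ∀ i, V.nu ψ (Function.update p i0 m2 i) =
            V.nu ψ (p i) + if i = i0 then a * v2 else 0 := by
          intro i
          by_cases hi : i = i0
          · subst hi
            rw [Function.update_self, if_pos rfl]
            have h3 := hnu (m2 - p i)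
            rw [← ha, hm2.2, map_sub] at h3
            linarith
          · rw [Function.update_of_ne hi, if_neg hi, add_zero]
        rw [Finset.sum_congr rfl fun i _ => h2 i, Finset.sum_add_distrib]
        simp
      rw [h1, hsumv, Fintype.card_sum, Fintype.card_fin, Fintype.card_fin]
      push_cast
      rw [Int.toNat_of_nonneg (by omega), Int.toNat_of_nonneg hv2.le]
      linarith

end T4
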