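import Pool.Agent.Lib.MP_23b606_ag.T1.P.Far
import Pool.Agent.Lib.MP_23b606_ag.T4.Sys

/-! Dec: points of the Fine interior are sums of points of the supports (row T4-1). -/

set_option autoImplicit false

open scoped BigOperators

namespace T4

open T1 T3

variable {k : Type} [Field k] [CharZero k]

/-- `farkas_rat` with an arbitrary finite set of unknowns. -/
theorem farkas_fin (K I : Type) [Fintype K] [Fintype I] (a : I → K → ℚ) (b : I → ℚ) :
    (∃ x : K → ℚ, ∀ i, b i ≤ ∑ k, x k * a i k) ∨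
    ∃ lam : I → ℚ, (∀ i, 0 ≤ lam i) ∧ (∀ k, ∑ i, lam i * a i k = 0) ∧
      0 < ∑ i, lam i * b i := by
  have e := Fintype.equivFin K
  rcases farkas_rat (Fintype.card K) I (fun i k => a i (e.symm k)) b with ⟨x, hx⟩ | ⟨lam, h0, h1, h2⟩
  · left
    refine ⟨fun k => x (e k), fun i => ?_⟩
    have h := hx i
    rw [← Equiv.sum_comp e] at h
    simpa only [Equiv.symm_apply_apply] using h
  · right
    refine ⟨lam, h0, fun k => ?_, h2⟩
    have h := h1 (e k)
    simpa only [Equiv.symm_apply_apply] using h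

/-- Decomposition of a multiple of `y`: `c y = ∑_i ∑_m a_i(m) m` with `∑_m a_i(m) = c m_1`.

Proof (h47_T4.md 3(a)). `farkas_rat` (T1/P/Far.lean) for the unknowns `x = (n', μ)`,
`n' ∈ ℚ^rank M` (a basis of `M`), `μ ∈ ℚ^ι`, and the inequalities `n'(m) + μ_i ≥ 0` for `i`,
`m ∈ supp (g i)`, and `- n'(y) - m_1 ∑ μ_i ≥ 1`. A solution, cleared of denominators
(`exists_den`), gives `n' : M →+ ℤ` and integers `μ_i ≥ - hm (g i) n'` with
`n'(y) < - m_1 ∑ μ_i ≤ m_1 ∑ hm (g i) n'`: impossible for `n' ≠ 0` by `hFI`, and for `n' = 0`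
since then `μ_i ≥ 0`. So there are multipliers `λ_(i,m) ≥ 0`, `λ_0 ≥ 0` with
`∑ λ_(i,m) (m, e_i) = λ_0 (y, m_1 (1,..,1))`, `λ_0 > 0`; clear denominators. -/
theorem exists_decomp {M : Type} [AddCommGroup M] [Module.Free ℤ M] [Module.Finite ℤ M]
    {ι : Type} [Fintype ι] (g : ι → M →₀ k) (hg : ∀ i, g i ≠ 0) (m1 : ℕ) (hm1 : 1 ≤ m1) (y : M)
    (hFI : ∀ n' : M →+ ℤ, n' ≠ 0 → (m1 : ℤ) * (∑ i, hm (g i) n' + 1) ≤ n' y) :
    ∃ (c : ℕ) (a : ι → M → ℕ), 1 ≤ c ∧ (∀ i, ∑ m ∈ (g i).support, a i m = c * m1) ∧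
      ∑ i, ∑ m ∈ (g i).support, a i m • m = c • y := by
  classical
  have bs := Module.finBasis ℤ M
  have hne : ∀ i, (g i).support.Nonempty := fun i => Finsupp.support_nonempty_iff.2 (hg i)
  let K := Fin (Module.finrank ℤ M) ⊕ ι
  let I := Option (Σ i : ι, {m // m ∈ (g i).support})
  let A : I → K → ℚ := fun s => match s with
    | none => Sum.elim (fun l => -(bs.repr y l : ℚ)) (fun _ => -(m1 : ℚ))
    | some p => Sum.elim (fun l => (bs.repr p.2.1 l : ℚ)) (fun j => if j = p.1 then 1 else 0)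
  let b : I → ℚ := fun s => match s with
    | none => 1
    | some _ => 0
  rcases farkas_fin K I A b with ⟨x, hx⟩ | ⟨lam, h0, h1, h2⟩
  · exfalso
    obtain ⟨m, z, hm0, hz⟩ := exists_den x
    have hmq : (0 : ℚ) < m := by exact_mod_cast hm0
    -- the integral inequalities
    have hsome : ∀ (i : ι) (v : M), v ∈ (g i).support →
        0 ≤ ∑ l, z (Sum.inl l) * bs.repr v l + z (Sum.inr i) := by
      intro i v hv
      have h := hx (some ⟨i, v, hv⟩)
      have h3 : (0 : ℚ) ≤ ∑ l, x (Sum.inl l) * (bs.repr v l : ℚ) +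
          ∑ j, x (Sum.inr j) * (if j = i then 1 else 0) := by
        rw [Fintype.sum_sum_type] at h
        exact h
      rw [Finset.sum_eq_single i (fun j _ hj => by rw [if_neg hj, mul_zero])
        (fun h => absurd (Finset.mem_univ i) h), if_pos rfl, mul_one] at h3
      have h4 := mul_nonneg hmq.le h3
      rw [mul_add, Finset.mul_sum, ← hz] at h4
      have h5 : ((∑ l, z (Sum.inl l) * bs.repr v l + z (Sum.inr i) : ℤ) : ℚ) =
          ∑ l, (m : ℚ) * (x (Sum.inl l) * (bs.repr v l : ℚ)) + (z (Sum.inr i) : ℚ) := by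
        push_cast
        congr 1
        refine Finset.sum_congr rfl fun l _ => ?_
        rw [hz, mul_assoc]
      rw [← h5] at h4
      exact_mod_cast h4
    have hnone : 1 ≤ -(∑ l, z (Sum.inl l) * bs.repr y l) - m1 * ∑ i, z (Sum.inr i) := by
      have h := hx none
      have h3 : (1 : ℚ) ≤ ∑ l, x (Sum.inl l) * -(bs.repr y l : ℚ) +
          ∑ j, x (Sum.inr j) * -(m1 : ℚ) := by
        rw [Fintype.sum_sum_type] at h
        exact h
      have h4 := mul_le_mul_of_nonneg_left h3 hmq.le
      have h5 : ((-(∑ l, z (Sum.inl l) * bs.repr y l) - m1 * ∑ i, z (Sum.inr i) : ℤ) : ℚ) =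
          m * (∑ l, x (Sum.inl l) * -(bs.repr y l : ℚ) + ∑ j, x (Sum.inr j) * -(m1 : ℚ)) := by
        push_cast
        rw [mul_add, Finset.mul_sum, Finset.mul_sum, sub_eq_add_neg, ← Finset.sum_neg_distrib,
          Finset.mul_sum, ← Finset.sum_neg_distrib]
        congr 1
        · refine Finset.sum_congr rfl fun l _ => ?_
          rw [hz]
          ring
        · refine Finset.sum_congr rfl fun l _ => ?_
          rw [hz]
          ring
      rw [← h5, mul_one] at h4
      have h6 : (m : ℤ) ≤ -(∑ l, z (Sum.inl l) * bs.repr y l) - m1 * ∑ i, z (Sum.inr i) := by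
        exact_mod_cast h4
      have h7 : (1 : ℤ) ≤ m := by exact_mod_cast hm0
      linarith
    -- the homomorphism
    obtain ⟨n', hn'⟩ : ∃ n' : M →+ ℤ, ∀ v, n' v = ∑ l, z (Sum.inl l) * bs.repr v l := by
      refine ⟨AddMonoidHom.mk' (fun v => ∑ l, z (Sum.inl l) * bs.repr v l) fun v w => ?_,
        fun v => rfl⟩
      rw [map_add, ← Finset.sum_add_distrib]
      refine Finset.sum_congr rfl fun l _ => ?_
      rw [Finsupp.add_apply, mul_add]
    have hhm : ∀ i, -z (Sum.inr i) ≤ hm (g i) n' := by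
      intro i
      rw [hm, dif_pos (hne i), Finset.le_inf'_iff]
      intro v hv
      have h := hsome i v hv
      rw [hn']
      linarith
    have hsum : -∑ i, z (Sum.inr i) ≤ ∑ i, hm (g i) n' := by
      rw [← Finset.sum_neg_distrib]
      exact Finset.sum_le_sum fun i _ => hhm i
    have hm1' : (0 : ℤ) ≤ m1 := by positivity
    have hlt : n' y < m1 * ∑ i, hm (g i) n' := by
      have h := mul_le_mul_of_nonneg_left hsum hm1'
      rw [hn']
      linarith
    by_cases hn0 : n' = 0
    · have hz0 : ∀ i, hm (g i) n' = 0 := by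
        intro i
        rw [hm, dif_pos (hne i), hn0]
        exact Finset.inf'_const (hne i) 0
      rw [Finset.sum_eq_zero fun i _ => hz0 i, hn0, mul_zero, AddMonoidHom.zero_apply] at hlt
      exact lt_irrefl _ hlt
    · have h := hFI n' hn0
      rw [mul_add] at h
      have h7 : (1 : ℤ) ≤ m1 := by exact_mod_cast hm1
      linarith
  · obtain ⟨D, z, hD, hz⟩ := exists_den lam
    have hDq : (0 : ℚ) < D := by exact_mod_cast hD
    have hz0 : ∀ s, 0 ≤ z s := fun s => by
      have h3 : (0 : ℚ) ≤ z s := by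
        rw [hz s]
        exact mul_nonneg hDq.le (h0 s)
      exact_mod_cast h3
    -- the three facts in integers
    have hpos : 0 < z none := by
      rw [Fintype.sum_option, Finset.sum_eq_zero fun s _ => mul_zero _, add_zero, mul_one] at h2
      have h3 : (0 : ℚ) < z none := by
        rw [hz]
        exact mul_pos hDq h2
      exact_mod_cast h3
    have hcol : ∀ κ : K, (∑ p : (Σ i : ι, {m // m ∈ (g i).support}),
        (z (some p) : ℚ) * A (some p) κ) = -((z none : ℚ) * A none κ) := by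
      intro κ
      have h3 := h1 κ
      rw [Fintype.sum_option] at h3
      have h4 : (D : ℚ) * ∑ p : (Σ i : ι, {m // m ∈ (g i).support}),
          lam (some p) * A (some p) κ = -((D : ℚ) * (lam none * A none κ)) := by
        rw [← mul_neg]
        congr 1
        linarith
      rw [Finset.mul_sum] at h4
      rw [hz none, mul_assoc, ← h4]
      refine Finset.sum_congr rfl fun p _ => ?_
      rw [hz, mul_assoc]
    obtain ⟨a, ha⟩ : ∃ a : ι → M → ℕ, ∀ (i : ι) (v : M) (hv : v ∈ (g i).support),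
        ((a i v : ℕ) : ℤ) = z (some ⟨i, v, hv⟩) := by
      refine ⟨fun i v => if hv : v ∈ (g i).support then (z (some ⟨i, v, hv⟩)).toNat else 0,
        fun i v hv => ?_⟩
      simp only [dif_pos hv]
      exact Int.toNat_of_nonneg (hz0 _)
    obtain ⟨c, hc⟩ : ∃ c : ℕ, (c : ℤ) = z none := ⟨(z none).toNat, Int.toNat_of_nonneg hpos.le⟩
    have hconv : ∀ f : ι → M → ℚ, (∑ p : (Σ i : ι, {m // m ∈ (g i).support}),
        (z (some p) : ℚ) * f p.1 p.2.1) = ∑ i, ∑ v ∈ (g i).support, (a i v : ℚ) * f i v := by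
      intro f
      rw [Fintype.sum_sigma]
      refine Finset.sum_congr rfl fun i _ => ?_
      rw [← Finset.sum_coe_sort (g i).support]
      refine Finset.sum_congr rfl fun v _ => ?_
      have h3 : ((a i v.1 : ℕ) : ℚ) = (z (some ⟨i, v⟩) : ℚ) := by
        exact_mod_cast ha i v.1 v.2
      rw [h3]
    refine ⟨c, a, by omega, fun i => ?_, ?_⟩
    · have h3 := hcol (Sum.inr i)
      have h4 := hconv fun j _ => if i = j then 1 else 0
      have h5 : (∑ p : (Σ i : ι, {m // m ∈ (g i).support}),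
          (z (some p) : ℚ) * A (some p) (Sum.inr i)) = ∑ p : (Σ i : ι, {m // m ∈ (g i).support}),
          (z (some p) : ℚ) * (if i = p.1 then 1 else 0) := rfl
      rw [h5, h4] at h3
      rw [Finset.sum_eq_single i (fun j _ hj => by
        rw [if_neg hj.symm]
        exact Finset.sum_eq_zero fun v _ => mul_zero _)
        (fun h => absurd (Finset.mem_univ i) h), if_pos rfl] at h3
      have h6 : (∑ v ∈ (g i).support, (a i v : ℚ)) = c * m1 := by
        have h7 : (∑ v ∈ (g i).support, (a i v : ℚ)) = ∑ v ∈ (g i).support, (a i v : ℚ) * 1 :=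
          Finset.sum_congr rfl fun v _ => (mul_one _).symm
        rw [h7, h3]
        have h8 : A none (Sum.inr i) = -(m1 : ℚ) := rfl
        have h9 : (c : ℚ) = (z none : ℚ) := by exact_mod_cast hc
        rw [h8, h9]
        ring
      exact_mod_cast h6
    · apply bs.repr.injective
      ext l
      have h3 := hcol (Sum.inl l)
      have h4 := hconv fun _ v => (bs.repr v l : ℚ)
      have h5 : (∑ p : (Σ i : ι, {m // m ∈ (g i).support}),
          (z (some p) : ℚ) * A (some p) (Sum.inl l)) = ∑ p : (Σ i : ι, {m // m ∈ (g i).support}),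
          (z (some p) : ℚ) * (bs.repr p.2.1 l : ℚ) := rfl
      rw [h5, h4] at h3
      have h8 : A none (Sum.inl l) = -(bs.repr y l : ℚ) := rfl
      have h9 : (c : ℚ) = (z none : ℚ) := by exact_mod_cast hc
      rw [h8, ← h9] at h3
      have h10 : (∑ i, ∑ v ∈ (g i).support, (a i v : ℤ) * bs.repr v l) = c * bs.repr y l := by
        have h11 : ((∑ i, ∑ v ∈ (g i).support, (a i v : ℤ) * bs.repr v l : ℤ) : ℚ) =
            ((c * bs.repr y l : ℤ) : ℚ) := by
          push_cast
          rw [h3]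
          ring
        exact_mod_cast h11
      rw [map_sum, map_nsmul, Finsupp.finsetSum_apply, Finsupp.smul_apply, nsmul_eq_mul, ← h10]
      refine Finset.sum_congr rfl fun i _ => ?_
      rw [map_sum, Finsupp.finsetSum_apply]
      refine Finset.sum_congr rfl fun v _ => ?_
      rw [map_nsmul, Finsupp.smul_apply, nsmul_eq_mul]

end T4
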