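import Pool.Agent.Lib.MP_23b606_ag.T3.Bas

/-!
# T4: definitions

T4 is T3 over a base field `k` of characteristic zero. Laurent polynomials are finitely supported
functions `f : M →₀ k` on a free abelian group `M` of finite rank, `N = M →+ ℤ`, characters are
homomorphisms `ξ : Multiplicative M →* R` with values in a `k`-algebra `R`.
-/

set_option autoImplicit false

open scoped BigOperators KaehlerDifferential

namespace T4

open T1 T3

section Laurent

variable {M : Type} [AddCommGroup M] {k : Type} [Field k]

/-- The value of the Laurent polynomial `f` at the character `ξ`. -/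
noncomputable def ev {R : Type} [CommRing R] [Algebra k R] (ξ : Multiplicative M →* R)
    (f : M →₀ k) : R :=
  f.sum fun m c => algebraMap k R c * ξ (Multiplicative.ofAdd m)

/-- The minimum of `n` on the support of `f` (`0` for `f = 0`). -/
noncomputable def hm (f : M →₀ k) (n : M →+ ℤ) : ℤ :=
  if h : f.support.Nonempty then f.support.inf' h n else 0

/-- The logarithmic differential of `f` at the character `ξ`: its derivative in the direction of
`n'` is `∑ c_m n'(m) ξ(m)`. -/
noncomputable def dl {R : Type} [CommRing R] [Algebra k R] (ξ : Multiplicative M →* R)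
    (f : M →₀ k) : (M →+ ℤ) → R :=
  fun n' => f.sum fun m c => algebraMap k R c * ξ (Multiplicative.ofAdd m) * ((n' m : ℤ) : R)

/-- The field `K` is the function field of a component of `{f = 0}` over `k` with generic point
`χ`: it is generated over `k` by the values of `χ`, all `f i` vanish at `χ`, and its transcendence
degree over `k` is `n = rank M - number of equations`. -/
structure Pt {K : Type} [Field K] [Algebra k K] {ι : Type} [Fintype ι] (f : ι → M →₀ k)
    (χ : Multiplicative M →* K) (n : ℕ) : Prop where
  gen : IntermediateField.adjoin k (Set.range χ) = ⊤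
  zero : ∀ i, ev χ (f i) = 0
  trd : Algebra.trdeg k K = n
  dim : n + Fintype.card ι = Module.finrank ℤ M

/-- A circuit certificate: `∑ λ_j n_j = 0` is the only relation of the `n_j`, up to integer
multiples, and `∑ λ_j (1 + h(n_j)) ≥ 1`. -/
structure Circ {ι : Type} [Fintype ι] (f : ι → M →₀ k) {J : Type} [Fintype J]
    (nn : J → M →+ ℤ) (lam : J → ℕ) : Prop where
  ne : ∀ j, nn j ≠ 0
  pos : ∀ j, 1 ≤ lam j
  rel : ∑ j, lam j • nn j = 0
  prim : ∀ μ : J → ℤ, ∑ j, μ j • nn j = 0 → ∃ c : ℤ, ∀ j, μ j = c * lam j
  idx : 1 ≤ ∑ j, (lam j : ℤ) * (1 + ∑ i, hm (f i) (nn j))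

/-- The number `d_i = - ∑ λ_j h_i(n_j)`. -/
noncomputable def dd (f : M →₀ k) {J : Type} [Fintype J] (nn : J → M →+ ℤ) (lam : J → ℕ) : ℕ :=
  (-∑ j, (lam j : ℤ) * hm f (nn j)).toNat

/-- The polynomial `F_i(y) = ∑ c_m χ(m) ∏ y_j ^ (n_j(m) - h_i(n_j))`. -/
noncomputable def Fp {L : Type} [Field L] [Algebra k L] (χ : Multiplicative M →* L)
    {J : Type} [Fintype J] (nn : J → M →+ ℤ) (f : M →₀ k) : MvPolynomial J L :=
  f.sum fun m c => MvPolynomial.monomial
    (Finsupp.equivFunOnFinite.symm fun j => (nn j m - hm f (nn j)).toNat)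
    (algebraMap k L c * χ (Multiplicative.ofAdd m))

end Laurent

section Forms

/-- The form `d a_1 ∧ ... ∧ d a_n` in the top exterior power of the Kähler differentials over
`k`. -/
noncomputable def W (k : Type) [Field k] {K : Type} [Field K] [Algebra k K] {n : ℕ}
    (a : Fin n → K) : ⋀[K]^n Ω[K⁄k] :=
  exteriorPower.ιMulti K n fun i => KaehlerDifferential.D k K (a i)

/-- `K` is uniruled over `k`: it embeds over `k` into a field `L(v)` of rational functions in one
variable over some field `L ⊇ k`, with image not contained in `L`. -/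
def UniruledOver (k K : Type) [Field k] [Field K] [Algebra k K] : Prop :=
  ∃ (L : Type) (_ : Field L) (_ : Algebra k L) (φ : K →ₐ[k] RatFunc L),
    ∃ x, φ x ∉ Set.range (algebraMap L (RatFunc L))

end Forms

end T4
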