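import Pool.Agent.Lib.MP_23b606_ag.T1.P.Dich
import Pool.Agent.Lib.MP_23b606_ag.T3.Fin
import Pool.Agent.Lib.MP_23b606_ag.T4.Sys

/-! Dich: the Fine interior is nonempty or there is a circuit certificate. -/

set_option autoImplicit false

namespace T4

open T1 T3

variable {k : Type} [Field k] [CharZero k]

theorem hm_indB {M : Type} [AddCommGroup M] (g : M →₀ k) (n : M →+ ℤ) :
    T1.hm (indB g.support) n = hm g n := by
  simp only [T1.hm, hm, indB_support]

theorem dichotomy {M : Type} [AddCommGroup M] [Module.Free ℤ M] [Module.Finite ℤ M] {ι : Type}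
    [Fintype ι] (g : ι → M →₀ k) (hg : ∀ i, g i ≠ 0) :
    (∃ (m : ℕ) (m0 : M), 1 ≤ m ∧ ∀ n : M →+ ℤ, n ≠ 0 →
      (m : ℤ) * (∑ i, hm (g i) n + 1) ≤ n m0) ∨
    ∃ (J : Type) (_ : Fintype J) (nn : J → M →+ ℤ) (lam : J → ℕ), Nonempty J ∧
      Circ g nn lam := by
  have h0 : ∀ i, indB (g i).support ≠ 0 := by
    intro i h
    have h1 := indB_support (g i).support
    rw [h, Finsupp.support_zero] at h1
    exact hg i (Finsupp.support_eq_empty.1 h1.symm)
  rcases T1.dichotomy (fun i => indB (g i).support) h0 with h | ⟨J, hJ, nn, lam, hne, hC⟩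
  · left
    simp only [hm_indB] at h
    exact h
  · right
    refine ⟨J, hJ, nn, lam, hne, hC.ne, hC.pos, hC.rel, hC.prim, ?_⟩
    have h1 := hC.idx
    simp only [hm_indB] at h1
    exact h1

end T4
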