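import Pool.Agent.Lib.MP_23b606_ag.T4.Rk
import Pool.Agent.Lib.MP_23b606_ag.T4.Om

/-! ElimPt: the point of the reduced system (row T3-3). -/

set_option autoImplicit false

open scoped BigOperators

namespace T4

open T1 T3

variable {k : Type} [Field k] [CharZero k]


/-- The same as the corresponding parts of the proof of `T1.elim` (T1/E/Elim.lean, `hsh`, `hz0`,
`hdl`, independence, generation, dimension; copy them), with arbitrary base points `a i`
(`sh_ev`, `sh_dl` of T1/E/Elim1.lean; here `M0 nn`, `rho nn` are the `S0`, `ρ` of that proof).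
`hsh` is a hypothesis here. -/
theorem elim_pt {M : Type} [AddCommGroup M] [Module.Free ℤ M] [Module.Finite ℤ M]
    {K : Type} [Field K] [Algebra k K] {ι : Type} [Fintype ι] {f : ι → M →₀ k}
    (χ : Multiplicative M →* K) (hI : LinearIndependent K fun i => dl χ (f i)) {n : ℕ}
    (hχ : Pt f χ n) {J : Type} [Fintype J] {nn : J → M →+ ℤ} {lam : J → ℕ} (hC : Circ f nn lam)
    (hcount : ∀ w, 1 ≤ w →
      Nat.card {j // lam j = w} = Nat.card {i // dd (f i) nn lam = w} + if w = 1 then 1 else 0)
    (hgen : IntermediateField.adjoin k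
      {x : K | ∃ m : M, (∀ j, nn j m = 0) ∧ x = χ (Multiplicative.ofAdd m)} = ⊤)
    (a : {i // dd (f i) nn lam = 0} → M)
    (hsh : ∀ i : {i // dd (f i) nn lam = 0}, ∀ m ∈ (f i.1).support, ∃ m0, rho nn m0 + a i = m) :
    (LinearIndependent K fun i => dl (χ.comp (AddMonoidHom.toMultiplicative (rho nn)))
        (sh (rho nn) (rho_inj nn) (a i) (f i.1))) ∧
      Pt (fun i => sh (rho nn) (rho_inj nn) (a i) (f i.1))
        (χ.comp (AddMonoidHom.toMultiplicative (rho nn))) n ∧
      Fintype.card ι + 1 = Fintype.card {i // dd (f i) nn lam = 0} + Fintype.card J := by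
  classical
  have hM0 : Module.finrank ℤ (M0 nn) + Fintype.card J = Module.finrank ℤ M + 1 :=
    (finrank_M0 hC).1
  have hχa : ∀ m : M, χ (Multiplicative.ofAdd m) ≠ 0 := by
    intro m h0
    have h1 : χ (Multiplicative.ofAdd m) * χ (Multiplicative.ofAdd (-m)) = 1 := by
      rw [← map_mul, ← ofAdd_add, add_neg_cancel, ofAdd_zero, map_one]
    rw [h0, zero_mul] at h1
    exact zero_ne_one h1
  have hz0 : ∀ i : {i // dd (f i) nn lam = 0},
      ev (χ.comp (AddMonoidHom.toMultiplicative (rho nn)))
        (sh (rho nn) (rho_inj nn) (a i) (f i.1)) = 0 := by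
    intro i
    have h1 := sh_ev (rho nn) (rho_inj nn) (a i) (f i.1) χ (hsh i)
    rw [hχ.zero] at h1
    rcases mul_eq_zero.mp h1.symm with h2 | h2
    · exact absurd h2 (hχa _)
    · exact h2
  have hdl : ∀ (i : {i // dd (f i) nn lam = 0}) (n' : M →+ ℤ), dl χ (f i.1) n'
      = χ (Multiplicative.ofAdd (a i)) * dl (χ.comp (AddMonoidHom.toMultiplicative (rho nn)))
        (sh (rho nn) (rho_inj nn) (a i) (f i.1)) (n'.comp (rho nn)) := by
    intro i n'
    rw [sh_dl (rho nn) (rho_inj nn) (a i) (f i.1) χ (hsh i) n', hz0 i, mul_zero, add_zero]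
  have hι : Fintype.card ι + 1
      = Fintype.card {i // dd (f i) nn lam = 0} + Fintype.card J := by
    set N : ℕ := 1 + ∑ j, lam j + ∑ i, dd (f i) nn lam with hN
    have hlamN : ∀ j, lam j ≤ N := by
      intro j
      have h1 := Finset.single_le_sum (f := lam) (fun j _ => Nat.zero_le _) (Finset.mem_univ j)
      omega
    have hdN : ∀ i, dd (f i) nn lam ≤ N := by
      intro i
      have h1 := Finset.single_le_sum (f := fun i => dd (f i) nn lam)
        (fun j _ => Nat.zero_le _) (Finset.mem_univ i)
      omega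
    have hJc : Fintype.card J
        = ∑ w ∈ Finset.Icc 1 N, (Finset.univ.filter fun j => lam j = w).card := by
      rw [← Finset.card_univ]
      apply Finset.card_eq_sum_card_fiberwise
      intro j _
      exact Finset.mem_coe.mpr (Finset.mem_Icc.mpr ⟨hC.pos j, hlamN j⟩)
    have hic : Fintype.card ι = Fintype.card {i // dd (f i) nn lam = 0}
        + ∑ w ∈ Finset.Icc 1 N, (Finset.univ.filter fun i => dd (f i) nn lam = w).card := by
      have h1 : Fintype.card ι = ∑ w ∈ Finset.range (N + 1),
          (Finset.univ.filter fun i => dd (f i) nn lam = w).card := by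
        rw [← Finset.card_univ]
        apply Finset.card_eq_sum_card_fiberwise
        intro i _
        exact Finset.mem_coe.mpr (Finset.mem_range.mpr (Nat.lt_succ_of_le (hdN i)))
      have h2 : Finset.range (N + 1) = insert 0 (Finset.Icc 1 N) := by
        ext w
        simp only [Finset.mem_range, Finset.mem_insert, Finset.mem_Icc]
        omega
      rw [h1, h2, Finset.sum_insert (by simp)]
      congr 1
      rw [← Fintype.card_subtype]
    have hc2 : ∀ w ∈ Finset.Icc 1 N, (Finset.univ.filter fun j => lam j = w).card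
        = (Finset.univ.filter fun i => dd (f i) nn lam = w).card + if w = 1 then 1 else 0 := by
      intro w hw
      have h1 := hcount w (Finset.mem_Icc.mp hw).1
      rw [Nat.card_eq_fintype_card, Nat.card_eq_fintype_card, Fintype.card_subtype,
        Fintype.card_subtype] at h1
      exact h1
    rw [Finset.sum_congr rfl hc2, Finset.sum_add_distrib, Finset.sum_ite_eq'] at hJc
    have h1N : 1 ∈ Finset.Icc 1 N := Finset.mem_Icc.mpr ⟨le_refl _, by omega⟩
    rw [if_pos h1N] at hJc
    omega
  refine ⟨?_, ⟨?_, hz0, hχ.trd, ?_⟩, hι⟩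
  · -- independence
    rw [Fintype.linearIndependent_iff]
    intro c hc i
    have h1 : LinearIndependent K fun i : {i // dd (f i) nn lam = 0} => dl χ (f i.1) :=
      hI.comp (fun i : {i // dd (f i) nn lam = 0} => i.1) Subtype.val_injective
    rw [Fintype.linearIndependent_iff] at h1
    have h2 := h1 (fun i => c i * (χ (Multiplicative.ofAdd (a i)))⁻¹) (by
      funext n'
      have h3 := congrFun hc (n'.comp (rho nn))
      rw [Finset.sum_apply, Pi.zero_apply] at h3 ⊢
      rw [← h3]
      refine Finset.sum_congr rfl fun i _ => ?_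
      rw [Pi.smul_apply, Pi.smul_apply, smul_eq_mul, smul_eq_mul, hdl i n']
      have h4 := hχa (a i)
      field_simp) i
    rcases mul_eq_zero.mp h2 with h3 | h3
    · exact h3
    · exact absurd h3 (inv_ne_zero (hχa _))
  · -- generation
    rw [eq_top_iff, ← hgen, IntermediateField.adjoin_le_iff]
    rintro x ⟨m, hm, rfl⟩
    apply IntermediateField.subset_adjoin
    exact ⟨Multiplicative.ofAdd ⟨m, (mem_M0 nn m).mpr hm⟩, rfl⟩
  · -- dimension
    have := hχ.dim
    omega

end T4
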