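import Pool.Agent.Lib.MP_23b606_ag.T4.Cmp
import Pool.Agent.Lib.MP_23b606_ag.T4.ElimPt
import Pool.Agent.Lib.MP_23b606_ag.T4.Blk
import Pool.Agent.Lib.MP_23b606_ag.T4.Bnd
import Pool.Agent.Lib.MP_23b606_ag.T4.Adj

/-! Elim: the reduced system satisfies the adjunction inequality (row T4-4). -/

set_option autoImplicit false

open scoped BigOperators KaehlerDifferential

namespace T4

open T1 T3

variable {k : Type} [Field k] [CharZero k]

/-- The value of a product. -/
theorem el4_v_prod {K : Type} [Field K] {O : ValuationSubring K} (V : NVal O) {α : Type}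
    (s : Finset α) (x : α → K) (hx : ∀ i, x i ≠ 0) : V.v (∏ i ∈ s, x i) = ∑ i ∈ s, V.v (x i) := by
  classical
  induction s using Finset.induction_on with
  | empty => rw [Finset.prod_empty, Finset.sum_empty, V.one]
  | insert a t ha ih =>
    rw [Finset.prod_insert ha, Finset.sum_insert ha,
      V.mul _ _ (hx a) (Finset.prod_ne_zero_iff.2 fun i _ => hx i), ih]

theorem el4_hm_zero {M : Type} [AddCommGroup M] (f : M →₀ k) : hm f 0 = 0 := by
  by_cases hf : f = 0
  · subst hf
    unfold hm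
    rw [dif_neg]
    simp
  · obtain ⟨m, -, h⟩ := exists_eq_hm f hf 0
    rw [← h]
    rfl

/-- The adjunction inequality passes to the reduced system, with the same `x0`, `m0`, `w`.

The proof is that of `T3.elim_adj` (T3/Elim.lean; copy it and change it), with
`lam0 i = lam i + ν (a i) - v(χ(a i))`: see h47_T4.md section 5. The terms of the reduced system:
`sh .. (f i) m = f i (rho m + a i)` (`sh_apply`), `χ (rho m + a i) = χ (rho m) χ (a i)`. -/
theorem elim_adj {M : Type} [AddCommGroup M] [Module.Free ℤ M] [Module.Finite ℤ M]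
    {K : Type} [Field K] [Algebra k K] {ι : Type} [Fintype ι] {f g : ι → M →₀ k}
    (χ : Multiplicative M →* K) {Δ : Type} {O : Δ → ValuationSubring K} {V : ∀ δ, NVal (O δ)}
    {w : Δ → ℤ} {n : ℕ} {x0 : Fin n → K} (hx0 : W k x0 ≠ 0) {m0 : ℕ}
    (hG : GoodK V w x0 m0 f g χ) (hχ : Pt f χ n) {J : Type} [Fintype J] {nn : J → M →+ ℤ}
    {lam : J → ℕ} (a : {i // dd (f i) nn lam = 0} → M)
    (hshg : ∀ i : {i // dd (f i) nn lam = 0}, ∀ m ∈ (g i.1).support,
      ∃ m0, rho nn m0 + a i = m)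
    (hχ0 : Pt (fun i : {i // dd (f i) nn lam = 0} =>
      sh (rho nn) (rho_inj nn) (a i) (f i.1)) (χ.comp (AddMonoidHom.toMultiplicative (rho nn))) n)
    {d0 : ℕ} (b0 : Module.Basis (Fin d0) ℤ (M0 nn))
    (e0 : Fin n ⊕ {i // dd (f i) nn lam = 0} ≃ Fin d0) (l0 : ⋀[K]^n Ω[K⁄k] →ₗ[K] K)
    (hl0 : IsEll b0 (χ.comp (AddMonoidHom.toMultiplicative (rho nn)))
      (fun i : {i // dd (f i) nn lam = 0} => sh (rho nn) (rho_inj nn) (a i) (f i.1)) e0 l0)
    (δ : Δ) :
    Adj (fun i : {i // dd (f i) nn lam = 0} => sh (rho nn) (rho_inj nn) (a i) (f i.1))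
      (fun i : {i // dd (f i) nn lam = 0} => sh (rho nn) (rho_inj nn) (a i) (g i.1))
      (χ.comp (AddMonoidHom.toMultiplicative (rho nn))) l0 x0 m0 (V δ) (w δ) := by
  classical
  -- the basis
  have hcard : Fintype.card {i // dd (f i) nn lam = 0} +
      Fintype.card {i // ¬ dd (f i) nn lam = 0} = Fintype.card ι := by
    rw [← Fintype.card_sum]
    exact Fintype.card_congr (Equiv.sumCompl fun i => dd (f i) nn lam = 0)
  have hd0 : n + Fintype.card {i // dd (f i) nn lam = 0} = d0 := by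
    have h1 := Fintype.card_congr e0
    rwa [Fintype.card_sum, Fintype.card_fin, Fintype.card_fin] at h1
  have hS : d0 + Fintype.card {i // ¬ dd (f i) nn lam = 0} = Module.finrank ℤ M := by
    rw [← hχ.dim]
    omega
  obtain ⟨b, hb⟩ := exists_basis_ext (M0 nn) (M0_sat nn) b0 {i // ¬ dd (f i) nn lam = 0} hS
  let E : Fin d0 ⊕ {i // ¬ dd (f i) nn lam = 0} ≃
    Fin (Fintype.card (Fin d0 ⊕ {i // ¬ dd (f i) nn lam = 0})) := Fintype.equivFin _
  obtain ⟨l, hlinj, hl⟩ := exists_ell (b.reindex E) χ hG.ind hχ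
    (eE (fun i => dd (f i) nn lam = 0) e0 E)
  obtain ⟨α, hα, nk, lm, hnk0, htf, htg, hadd, hle⟩ := hG.adj _ (b.reindex E)
    (eE (fun i => dd (f i) nn lam = 0) e0 E) l hl δ
  obtain ⟨ν, hν⟩ : ∃ ν : M →+ ℤ, ν = ∑ q, nk q := ⟨_, rfl⟩
  have hshf : ∀ i : {i // dd (f i) nn lam = 0}, ∀ m ∈ (f i.1).support,
      ∃ m0, rho nn m0 + a i = m := fun i m hm => hshg i m (hG.sub i.1 hm)
  have hell := ell_eq (rho nn) (rho_inj nn) χ f hχ.zero (fun i => dd (f i) nn lam = 0) a hshf b0 b
    hb e0 hχ0.gen l0 hl0 E l hl x0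
  have hlx : l (W k x0) ≠ 0 := by
    intro h0
    exact hx0 (hlinj (by rw [h0, map_zero]))
  set D : K := Matrix.det (Matrix.of fun s s' : {i // ¬ dd (f i) nn lam = 0} =>
        dl χ (f s.1) (b.coord (Sum.inr s')).toAddMonoidHom) with hD
  rw [hell] at hlx hle
  have hl0x : l0 (W k x0) ≠ 0 := right_ne_zero_of_mul hlx
  have hpD := left_ne_zero_of_mul hlx
  have hD0 : D ≠ 0 := right_ne_zero_of_mul hpD
  have hp0 : (∏ i, χ (Multiplicative.ofAdd (a i))) ≠ 0 := left_ne_zero_of_mul hpD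
  rw [(V δ).mul _ _ hpD hl0x, (V δ).mul _ _ hp0 hD0,
    el4_v_prod (V δ) _ _ fun i => om_chi_ne χ (a i)] at hle
  -- the bound for the determinant
  set Z : Finset α := Finset.univ.filter fun q => (nk q).comp (rho nn) = 0 with hZdef
  have hdet := v_det_ge (V δ) χ
    (fun s : {i // ¬ dd (f i) nn lam = 0} => f s.1) (fun s => g s.1) (fun s => hχ.zero s.1)
    (fun s => hG.sub s.1) (fun s => (b.coord (Sum.inr s)).toAddMonoidHom) nk (fun s => lm s.1)
    (fun s m h => htf s.1 m h)
    (fun s => hadd s.1) Z (fun q _ => hnk0 q) (by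
      intro q hq
      refine ⟨fun s => nk q (b (Sum.inr s)), comb_of_zero b (nk q) fun j => ?_⟩
      rw [hb]
      have h1 := (Finset.mem_filter.1 hq).2
      exact DFunLike.congr_fun h1 (b0 j)) hD0
  have hg0 : ∀ i, g i ≠ 0 := by
    intro i h0
    have h1 : f i ≠ 0 := by
      intro h2
      apply hG.ind.ne_zero i
      rw [h2]
      funext n'
      rfl
    have h3 := hG.sub i
    rw [h0, Finsupp.support_zero, Finset.subset_empty, Finsupp.support_eq_empty] at h3
    exact h1 h3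
  -- sums over the subtype
  have hsub : ∀ (N : Type) [AddCommMonoid N] (F : (M0 nn →+ ℤ) → N), F 0 = 0 →
      ∑ q : {q : α // (nk q).comp (rho nn) ≠ 0}, F ((nk q.1).comp (rho nn)) =
        ∑ q, F ((nk q).comp (rho nn)) := by
    intro N _ F hF
    rw [← Finset.sum_subtype (Finset.univ.filter fun q : α => (nk q).comp (rho nn) ≠ 0)
      (by simp) fun q => F ((nk q).comp (rho nn))]
    refine Finset.sum_subset (Finset.filter_subset _ _) fun q _ hq => ?_
    rw [Finset.mem_filter, not_and, not_not] at hq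
    rw [hq (Finset.mem_univ q), hF]
  have hshm : ∀ (i : {i // dd (f i) nn lam = 0}) (n' : M →+ ℤ), hm (g i.1) n' =
      hm (sh (rho nn) (rho_inj nn) (a i) (g i.1)) (n'.comp (rho nn)) + n' (a i) := fun i n' =>
    sh_hm (rho nn) (rho_inj nn) (a i) (g i.1) (hg0 i.1) (hshg i) n'
  have hνa : ∀ m, ν m = ∑ q, nk q m := by
    intro m
    rw [hν, AddMonoidHom.finsetSum_apply]
  have hν0 : ∑ q : {q : α // (nk q).comp (rho nn) ≠ 0}, (nk q.1).comp (rho nn) =
      ν.comp (rho nn) := by
    rw [hsub (M0 nn →+ ℤ) (fun F => F) rfl]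
    ext m
    rw [AddMonoidHom.comp_apply, hνa, AddMonoidHom.finsetSum_apply]
    rfl
  -- the terms
  have hterm : ∀ (i : {i // dd (f i) nn lam = 0}) (c : k) (m : M0 nn), c ≠ 0 →
      lm i.1 + (∑ q, nk q) (rho nn m + a i) ≤
        (V δ).v (algebraMap k K c * χ (Multiplicative.ofAdd (rho nn m + a i))) →
      lm i.1 + ν (a i) - (V δ).v (χ (Multiplicative.ofAdd (a i))) +
        (∑ q : {q : α // (nk q).comp (rho nn) ≠ 0}, (nk q.1).comp (rho nn)) m ≤
        (V δ).v (algebraMap k K c * (χ.comp (AddMonoidHom.toMultiplicative (rho nn)))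
          (Multiplicative.ofAdd m)) := by
    intro i c m hc h
    have h1 : algebraMap k K c ≠ 0 := by
      rwa [Ne, map_eq_zero]
    have h2 : algebraMap k K c * χ (Multiplicative.ofAdd (rho nn m + a i)) =
        (algebraMap k K c * (χ.comp (AddMonoidHom.toMultiplicative (rho nn)))
          (Multiplicative.ofAdd m)) * χ (Multiplicative.ofAdd (a i)) := by
      rw [ofAdd_add, map_mul, MonoidHom.comp_apply, AddMonoidHom.toMultiplicative_apply_apply,
        toAdd_ofAdd, mul_assoc]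
    have h3 : (χ.comp (AddMonoidHom.toMultiplicative (rho nn))) (Multiplicative.ofAdd m) ≠ 0 :=
      om_chi_ne _ m
    rw [h2, (V δ).mul _ _ (mul_ne_zero h1 h3) (om_chi_ne χ (a i)), ← hν, map_add] at h
    rw [hν0, AddMonoidHom.comp_apply]
    linarith
  refine ⟨{q : α // (nk q).comp (rho nn) ≠ 0}, inferInstance, fun q => (nk q.1).comp (rho nn),
    fun i => lm i.1 + ν (a i) - (V δ).v (χ (Multiplicative.ofAdd (a i))),
    fun q => q.2, ?_, ?_, ?_, ?_⟩
  · intro i m hm0
    rw [sh_apply] at hm0 ⊢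
    exact hterm i _ m hm0 (htf i.1 _ hm0)
  · intro i m hm0
    rw [sh_apply] at hm0 ⊢
    exact hterm i _ m hm0 (htg i.1 _ hm0)
  · intro i
    rw [hν0, hsub ℤ (fun F => hm (sh (rho nn) (rho_inj nn) (a i) (g i.1)) F) (el4_hm_zero _)]
    have h1 := hadd i.1
    rw [← hν, hshm i, Finset.sum_congr rfl fun q _ => hshm i (nk q), Finset.sum_add_distrib,
      hνa (a i)] at h1
    exact add_right_cancel h1
  · have hcα : Fintype.card {q : α // (nk q).comp (rho nn) ≠ 0} + Z.card = Fintype.card α := by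
      rw [hZdef, Fintype.card_subtype, ← Finset.card_univ, add_comm]
      exact Finset.card_filter_add_card_filter_not _
    have hcα' : (Fintype.card {q : α // (nk q).comp (rho nn) ≠ 0} : ℤ) + (Z.card : ℤ) =
        (Fintype.card α : ℤ) := by
      exact_mod_cast hcα
    have hsum : ∑ i, (lm i + hm (g i) ν) =
        ∑ i : {i // dd (f i) nn lam = 0}, (lm i.1 + hm (g i.1) ν) +
          ∑ i : {i // ¬ dd (f i) nn lam = 0}, (lm i.1 + hm (g i.1) ν) :=
      (Fintype.sum_subtype_add_sum_subtype (fun i => dd (f i) nn lam = 0)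
        fun i => lm i + hm (g i) ν).symm
    have hsum2 : ∑ i : {i // dd (f i) nn lam = 0}, (lm i.1 + hm (g i.1) ν) =
        ∑ i : {i // dd (f i) nn lam = 0}, (lm i.1 + ν (a i) -
          (V δ).v (χ (Multiplicative.ofAdd (a i))) +
            hm (sh (rho nn) (rho_inj nn) (a i) (g i.1)) (ν.comp (rho nn))) +
          ∑ i : {i // dd (f i) nn lam = 0}, (V δ).v (χ (Multiplicative.ofAdd (a i))) := by
      rw [← Finset.sum_add_distrib]
      refine Finset.sum_congr rfl fun i _ => ?_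
      rw [hshm i ν]
      ring
    rw [← hν] at hle hdet
    rw [hν0]
    have hdet' : ∑ s : {i // ¬ dd (f i) nn lam = 0}, (lm s.1 + hm (g s.1) ν) + (Z.card : ℤ) ≤
        (V δ).v D := hdet
    have hle' := mul_le_mul_of_nonneg_left hdet' (Int.natCast_nonneg m0)
    rw [hsum, hsum2] at hle
    have e1 : (m0 : ℤ) * (∑ i : {i // dd (f i) nn lam = 0}, (V δ).v (χ (Multiplicative.ofAdd (a i)))
        + (V δ).v D + (V δ).v (l0 (W k x0))) =
        m0 * ∑ i : {i // dd (f i) nn lam = 0}, (V δ).v (χ (Multiplicative.ofAdd (a i))) +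
          m0 * (V δ).v D + m0 * (V δ).v (l0 (W k x0)) := by ring
    have hcm : (m0 : ℤ) * (Fintype.card α : ℤ) =
        m0 * (Fintype.card {q : α // (nk q).comp (rho nn) ≠ 0} : ℤ) + m0 * (Z.card : ℤ) := by
      rw [← hcα']
      ring
    nlinarith [hle, hle', hcm]

end T4
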