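import Pool.Agent.Lib.MP_23b606_ag.T4.Elim

/-! Elim2: elimination. -/

set_option autoImplicit false

open scoped BigOperators KaehlerDifferential

namespace T4

open T1 T3

variable {k : Type} [Field k] [CharZero k]

theorem elim4 {M : Type} [AddCommGroup M] [Module.Free ℤ M] [Module.Finite ℤ M]
    {K : Type} [Field K] [Algebra k K] {ι : Type} [Fintype ι] {f g : ι → M →₀ k}
    (χ : Multiplicative M →* K) {Δ : Type} {O : Δ → ValuationSubring K} {V : ∀ δ, NVal (O δ)}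
    {w : Δ → ℤ} {n : ℕ} {x0 : Fin n → K} (hx0 : W k x0 ≠ 0) {m0 : ℕ}
    (hG : GoodK V w x0 m0 f g χ) (hχ : Pt f χ n) {J : Type} [Fintype J] {nn : J → M →+ ℤ}
    {lam : J → ℕ}
    (hC : Circ f nn lam) (hdd : ∀ i, dd (g i) nn lam = dd (f i) nn lam)
    (hcount : ∀ w, 1 ≤ w →
      Nat.card {j // lam j = w} = Nat.card {i // dd (f i) nn lam = w} + if w = 1 then 1 else 0)
    (hgen : IntermediateField.adjoin k
      {x : K | ∃ m : M, (∀ j, nn j m = 0) ∧ x = χ (Multiplicative.ofAdd m)} = ⊤) :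
    ∃ (M0 : Type) (_ : AddCommGroup M0) (_ : Module.Free ℤ M0) (_ : Module.Finite ℤ M0)
      (ι0 : Type) (_ : Fintype ι0) (f0 g0 : ι0 → M0 →₀ k) (χ0 : Multiplicative M0 →* K),
      GoodK V w x0 m0 f0 g0 χ0 ∧ Pt f0 χ0 n ∧ Module.finrank ℤ M0 < Module.finrank ℤ M := by
  classical
  have hne : ∀ i, f i ≠ 0 := ne_zero_of_ind χ hG.ind
  have hne' : ∀ i, g i ≠ 0 := by
    intro i h
    have h1 := hG.sub i
    rw [h, Finsupp.support_zero, Finset.subset_empty, Finsupp.support_eq_empty] at h1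
    exact hne i h1
  have hex : ∀ i, ∃ m, m ∈ (g i).support := fun i => Finsupp.support_nonempty_iff.mpr (hne' i)
  choose a0 ha0 using hex
  have hshg : ∀ i : {i // dd (f i) nn lam = 0}, ∀ m ∈ (g i.1).support,
      ∃ m0, rho nn m0 + a0 i.1 = m := by
    intro i m hm'
    have h1 := const_of_dd hG.sub hC i.1 (by rw [hdd, i.2]) (ha0 i.1) hm'
    exact ⟨⟨m - a0 i.1, h1⟩, sub_add_cancel _ _⟩
  have hsh : ∀ i : {i // dd (f i) nn lam = 0}, ∀ m ∈ (f i.1).support,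
      ∃ m0, rho nn m0 + a0 i.1 = m := fun i m hm' => hshg i m (hG.sub i.1 hm')
  obtain ⟨hI0, hχ0, hcard⟩ := elim_pt χ hG.ind hχ hC hcount hgen (fun i => a0 i.1) hsh
  have h2 := finrank_M0 hC
  refine ⟨M0 nn, inferInstance, inferInstance, inferInstance, {i // dd (f i) nn lam = 0},
    inferInstance, fun i => sh (rho nn) (rho_inj nn) (a0 i.1) (f i.1),
    fun i => sh (rho nn) (rho_inj nn) (a0 i.1) (g i.1),
    χ.comp (AddMonoidHom.toMultiplicative (rho nn)), ⟨hI0, ?_, ?_⟩, hχ0, ?_⟩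
  · intro i m hm'
    rw [mem_supp_sh] at hm' ⊢
    exact hG.sub i.1 hm'
  · intro d0 b0 e0 l0 hl0 δ
    exact elim_adj χ hx0 hG hχ (fun i => a0 i.1) hshg hχ0 b0 e0 l0 hl0 δ
  · have h3 := h2.1
    have h4 := h2.2
    show Module.finrank ℤ ↥(⨅ j, LinearMap.ker (nn j).toIntLinearMap) < _
    omega

end T4
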