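import Pool.Agent.Lib.MP_23b606_ag.T4.El

/-! EllB: the value of `l` on the characters of a basis (row T3-8). -/

set_option autoImplicit false

open scoped BigOperators KaehlerDifferential

namespace T4

open T1 T3

variable {k : Type} [Field k] [CharZero k]


/-- The logarithmic differential in terms of a basis. -/
theorem ellB_dl {M : Type} [AddCommGroup M] {K : Type} [Field K] [Algebra k K] {α : Type}
    [Fintype α] (b : Module.Basis α ℤ M) (χ : Multiplicative M →* K) (g : M →₀ k) (n' : M →+ ℤ) :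
    dl χ g n' = ∑ z, dl χ g (b.coord z).toAddMonoidHom * ((n' (b z) : ℤ) : K) := by
  have h1 : ∀ m : M, n' m = ∑ j, n' (b j) * b.coord j m := by
    intro m
    conv_lhs => rw [← b.sum_repr m]
    rw [map_sum]
    refine Finset.sum_congr rfl fun j _ => ?_
    rw [map_zsmul, smul_eq_mul, mul_comm]
    rfl
  simp only [dl, Finsupp.sum, Finset.sum_mul]
  rw [Finset.sum_comm]
  refine Finset.sum_congr rfl fun m _ => ?_
  rw [h1 m, Int.cast_sum, Finset.mul_sum]
  refine Finset.sum_congr rfl fun j _ => ?_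
  rw [Int.cast_mul]
  have : ((b.coord j).toAddMonoidHom m : ℤ) = b.coord j m := rfl
  rw [this]
  ring

/-- The change of the basis has determinant `1` or `-1`. -/
theorem ellB_unit {M : Type} [AddCommGroup M] {K : Type} [Field K] {α : Type}
    [Fintype α] [DecidableEq α] {d : ℕ} (b : Module.Basis (Fin d) ℤ M) (e : α ≃ Fin d)
    (b1 : Module.Basis α ℤ M) :
    Matrix.det (Matrix.of fun x y : α => ((b.coord (e y) (b1 x) : ℤ) : K)) = 1 ∨
      Matrix.det (Matrix.of fun x y : α => ((b.coord (e y) (b1 x) : ℤ) : K)) = -1 := by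
  have h1 : (Matrix.of fun x y : α => ((b.coord (e y) (b1 x) : ℤ) : K)) =
      ((((b.reindex e.symm).toMatrix b1).transpose).map (Int.castRingHom K)) := by
    ext x y
    simp only [Matrix.of_apply, Matrix.map_apply, Matrix.transpose_apply,
      Module.Basis.toMatrix_apply, Module.Basis.repr_reindex, eq_intCast]
    congr 1
    rw [Finsupp.mapDomain_equiv_apply, Equiv.symm_symm]
    rfl
  rw [h1, ← RingHom.mapMatrix_apply, ← RingHom.map_det, Matrix.det_transpose,
    ← Module.Basis.det_apply]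
  have h2 := (b.reindex e.symm).isUnit_det b1
  rcases Int.isUnit_iff.1 h2 with h3 | h3
  · left
    rw [h3, map_one]
  · right
    rw [h3, map_neg, map_one]

/-- The value of the linear form `l` of any basis `b` on `dx_1 ∧ ... ∧ dx_n` for
`x_t = χ (b1 (inl t))`, `b1` another basis.

Proof. `D (x_t) = x_t • odlog k χ (b1 (inl t))` (`om_D_chi`) and
`odlog k χ m = om k b χ (fun j => b.coord j m)` (`odlog_eq`, `om_apply`), so
`l (W k x) = ∏ x_t * dt b χ f e (fun t j => b.coord j (b1 (inl t)))` (`map_smul_univ`, as in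
T1/A/Fi.lean). The matrix of this determinant is `N * P` with `P x y = b.coord (e y) (b1 x)`
(an integer matrix with determinant `1` or `-1`: it is invertible over `ℤ`, cf.
`Module.Basis.toMatrix`, `Int.isUnit_iff`) and `N (inl t) x = δ`, `N (inr i) x =
dl χ (f i) (b1.coord x)`: indeed `dl χ g (b.coord j) = ∑_x dl χ g (b1.coord x) * b.coord j (b1 x)`
(like `dl_eq_sum_row`). `det N = det (dl χ (f i) (b1.coord (inr i')))` by
`Matrix.det_fromBlocks_zero₁₂`. -/
theorem ell_basis {M : Type} [AddCommGroup M] {K : Type} [Field K] [Algebra k K] {ι : Type}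
    [Fintype ι] [DecidableEq ι] {d n : ℕ} (b : Module.Basis (Fin d) ℤ M)
    (χ : Multiplicative M →* K) (f : ι → M →₀ k) (e : Fin n ⊕ ι ≃ Fin d)
    (l : ⋀[K]^n Ω[K⁄k] →ₗ[K] K) (hl : IsEll b χ f e l) (b1 : Module.Basis (Fin n ⊕ ι) ℤ M) :
    ∃ s : K, (s = 1 ∨ s = -1) ∧
      l (W k fun t => χ (Multiplicative.ofAdd (b1 (Sum.inl t)))) =
        s * ((∏ t, χ (Multiplicative.ofAdd (b1 (Sum.inl t)))) *
          Matrix.det (Matrix.of fun i i' : ι =>
            dl χ (f i) (b1.coord (Sum.inr i')).toAddMonoidHom)) := by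
  have hW : W k (fun t => χ (Multiplicative.ofAdd (b1 (Sum.inl t)))) =
      (∏ t, χ (Multiplicative.ofAdd (b1 (Sum.inl t)))) • exteriorPower.ιMulti K n
        fun t : Fin n => om k b χ fun j => ((b.coord j (b1 (Sum.inl t)) : ℤ) : K) := by
    unfold W
    have h1 : (fun t : Fin n => KaehlerDifferential.D k K (χ (Multiplicative.ofAdd (b1 (Sum.inl t)))))
        = fun t => χ (Multiplicative.ofAdd (b1 (Sum.inl t))) •
          om k b χ fun j => ((b.coord j (b1 (Sum.inl t)) : ℤ) : K) := by
      funext t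
      rw [om_D_chi, om_apply, odlog_eq b χ]
    rw [h1]
    exact (exteriorPower.ιMulti K n).toMultilinearMap.map_smul_univ _ _
  have hdt : dt b χ f e (fun t j => ((b.coord j (b1 (Sum.inl t)) : ℤ) : K)) =
      Matrix.det (Matrix.of fun i i' : ι =>
            dl χ (f i) (b1.coord (Sum.inr i')).toAddMonoidHom) *
      Matrix.det (Matrix.of fun x y : Fin n ⊕ ι => ((b.coord (e y) (b1 x) : ℤ) : K)) := by
    have h2 : (Matrix.of fun x y : Fin n ⊕ ι => Sum.elim (fun (t : Fin n) (j : Fin d) =>
        ((b.coord j (b1 (Sum.inl t)) : ℤ) : K)) (fun i => row b χ (f i)) x (e y)) =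
        Matrix.fromBlocks (1 : Matrix (Fin n) (Fin n) K) 0
          (Matrix.of fun (i : ι) (t : Fin n) =>
            dl χ (f i) (b1.coord (Sum.inl t)).toAddMonoidHom)
          (Matrix.of fun i i' : ι => dl χ (f i) (b1.coord (Sum.inr i')).toAddMonoidHom) *
        Matrix.of fun x y : Fin n ⊕ ι => ((b.coord (e y) (b1 x) : ℤ) : K) := by
      ext x y
      rw [Matrix.mul_apply, Fintype.sum_sum_type]
      rcases x with t | i
      · simp [Matrix.fromBlocks, Matrix.one_apply]
      · have h3 := ellB_dl b1 χ (f i) (b.coord (e y)).toAddMonoidHom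
        rw [Fintype.sum_sum_type] at h3
        simp only [Matrix.of_apply, Sum.elim_inr, Matrix.fromBlocks_apply₂₁,
          Matrix.fromBlocks_apply₂₂]
        exact h3
    have h4 : dt b χ f e (fun t j => ((b.coord j (b1 (Sum.inl t)) : ℤ) : K)) =
        Matrix.det (Matrix.of fun x y : Fin n ⊕ ι => Sum.elim (fun (t : Fin n) (j : Fin d) =>
        ((b.coord j (b1 (Sum.inl t)) : ℤ) : K)) (fun i => row b χ (f i)) x (e y)) := by
      unfold dt
      exact congrArg (fun inst : DecidableEq (Fin n ⊕ ι) => @Matrix.det _ inst _ K _ _)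
        (Subsingleton.elim _ _)
    rw [h4, h2, Matrix.det_mul, Matrix.det_fromBlocks_zero₁₂, Matrix.det_one, one_mul]
  refine ⟨Matrix.det (Matrix.of fun x y : Fin n ⊕ ι => ((b.coord (e y) (b1 x) : ℤ) : K)),
    ellB_unit b e b1, ?_⟩
  rw [hW, map_smul, hl, hdt, smul_eq_mul]
  ring

end T4
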