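import Pool.Agent.Lib.MP_23b606_ag.T1.A.Stz

/-! EllG: the linear form on the top exterior power of a quotient of a coordinate space. -/

set_option autoImplicit false

namespace T4

variable {K : Type} [Field K] {Y ι : Type} [Fintype ι]

open Classical in
/-- The determinant of the rows `u_1, .., u_N, R_i`. -/
noncomputable def dtG (R : ι → Y → K) {N : ℕ} (e : Fin N ⊕ ι ≃ Y) (u : Fin N → Y → K) : K :=
  Matrix.det (Matrix.of fun x y : Fin N ⊕ ι => Sum.elim u R x (e y))

open Classical in
private noncomputable def gAll {N : ℕ} (e : Fin N ⊕ ι ≃ Y) :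
    (Y → K) [⋀^(Fin N ⊕ ι)]→ₗ[K] K :=
  (Matrix.detRowAlternating (n := Fin N ⊕ ι) (R := K)).compLinearMap (LinearMap.funLeft K K e)

private theorem dtG_eq_gAll (R : ι → Y → K) {N : ℕ} (e : Fin N ⊕ ι ≃ Y) (u : Fin N → Y → K) :
    dtG R e u = gAll e (Sum.elim u R) := rfl

private noncomputable def gA (R : ι → Y → K) {N : ℕ} (e : Fin N ⊕ ι ≃ Y) :
    (Y → K) [⋀^Fin N]→ₗ[K] K where
  toFun u := dtG R e u
  map_update_add' {inst} u i x y := by
    classical
    simp only [dtG_eq_gAll]
    have hi : inst = (fun a b => instDecidableEqFin N a b) := Subsingleton.elim _ _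
    subst hi
    rw [Sum.elim_update_left, Sum.elim_update_left, Sum.elim_update_left]
    exact (gAll e).map_update_add _ _ _ _
  map_update_smul' {inst} u i c x := by
    classical
    simp only [dtG_eq_gAll]
    have hi : inst = (fun a b => instDecidableEqFin N a b) := Subsingleton.elim _ _
    subst hi
    rw [Sum.elim_update_left, Sum.elim_update_left]
    exact (gAll e).map_update_smul _ _ _ _
  map_eq_zero_of_eq' u i j h hij := by
    rw [dtG_eq_gAll]
    exact (gAll e).map_eq_zero_of_eq _ (i := Sum.inl i) (j := Sum.inl j) (by simpa using h)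
      (fun h2 => hij (Sum.inl_injective h2))

private theorem gA_apply (R : ι → Y → K) {N : ℕ} (e : Fin N ⊕ ι ≃ Y) (u : Fin N → Y → K) :
    gA R e u = dtG R e u := rfl

private theorem gA_zero (R : ι → Y → K) {N : ℕ} (e : Fin N ⊕ ι ≃ Y) (u : Fin N → Y → K)
    (i : Fin N) (v : Y → K) (hv : v ∈ Submodule.span K (Set.range R)) :
    gA R e (Function.update u i v) = 0 := by
  classical
  have h1 : Submodule.span K (Set.range R)
      ≤ LinearMap.ker ((gA R e).toMultilinearMap.toLinearMap u i) := by
    rw [Submodule.span_le]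
    rintro _ ⟨j, rfl⟩
    rw [SetLike.mem_coe, LinearMap.mem_ker, MultilinearMap.toLinearMap_apply]
    change gA R e (Function.update u i (R j)) = 0
    rw [gA_apply, dtG_eq_gAll]
    refine (gAll e).map_eq_zero_of_eq _ (i := Sum.inl i) (j := Sum.inr j) ?_ (by simp)
    simp
  have h2 := h1 hv
  rw [LinearMap.mem_ker, MultilinearMap.toLinearMap_apply] at h2
  exact h2

private theorem gA_congr (R : ι → Y → K) {N : ℕ} (e : Fin N ⊕ ι ≃ Y) (u u' : Fin N → Y → K)
    (h : ∀ i, u' i - u i ∈ Submodule.span K (Set.range R)) :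
    gA R e u' = gA R e u := by
  classical
  have key : ∀ s : Finset (Fin N), gA R e (s.piecewise u' u) = gA R e u := by
    intro s
    induction s using Finset.induction_on with
    | empty => rw [Finset.piecewise_empty]
    | insert i s hi ih =>
      rw [Finset.piecewise_insert, ← ih]
      have h1 : s.piecewise u' u = Function.update (s.piecewise u' u) i (u i) := by
        rw [eq_comm, Function.update_eq_self_iff, Finset.piecewise_eq_of_notMem _ _ _ hi]
      have h2 : u' i = (u' i - u i) + u i := by abel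
      rw [h2, AlternatingMap.map_update_add, gA_zero _ _ _ _ _ (h i), zero_add, ← h1]
  have := key Finset.univ
  rwa [Finset.piecewise_univ] at this

/-- The linear form on the top exterior power of the quotient `Ω` of `Y → K` by the span of the
rows `R i`. -/
theorem exists_ellG {Ω' : Type} [AddCommGroup Ω'] [Module K Ω'] (R : ι → Y → K) {N : ℕ}
    (e : Fin N ⊕ ι ≃ Y) (om : (Y → K) →ₗ[K] Ω') (hs : Function.Surjective om)
    (hker : LinearMap.ker om ≤ Submodule.span K (Set.range R)) :
    ∃ l : ⋀[K]^N Ω' →ₗ[K] K, ∀ u : Fin N → Y → K,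
      l (exteriorPower.ιMulti K N fun i => om (u i)) = dtG R e u := by
  classical
  obtain ⟨sec, hsec⟩ := LinearMap.exists_rightInverse_of_surjective om
    (LinearMap.range_eq_top.mpr hs)
  have hsec' : ∀ w, om (sec w) = w := fun w => by
    have := LinearMap.congr_fun hsec w
    simpa using this
  refine ⟨exteriorPower.alternatingMapLinearEquiv ((gA R e).compLinearMap sec), fun u => ?_⟩
  rw [exteriorPower.alternatingMapLinearEquiv_apply_ιMulti, AlternatingMap.compLinearMap_apply,
    ← gA_apply]
  apply gA_congr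
  intro i
  apply hker
  rw [LinearMap.mem_ker, map_sub, hsec', sub_self]

/-- Another order of the columns changes the determinants by a sign. -/
theorem dtG_sign (R : ι → Y → K) {N : ℕ} (e e' : Fin N ⊕ ι ≃ Y) :
    ∃ s : K, (s = 1 ∨ s = -1) ∧ ∀ u : Fin N → Y → K, dtG R e' u = s * dtG R e u := by
  classical
  let τ : Equiv.Perm (Fin N ⊕ ι) := e'.trans e.symm
  refine ⟨((Equiv.Perm.sign τ : ℤˣ) : ℤ), ?_, fun u => ?_⟩
  · rcases Int.units_eq_one_or (Equiv.Perm.sign τ) with h | h
    · left
      rw [h]
      simp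
    · right
      rw [h]
      simp
  · have h1 := Matrix.det_permute' τ (Matrix.of fun x y : Fin N ⊕ ι => Sum.elim u R x (e y))
    have h2 : (Matrix.of fun x y : Fin N ⊕ ι => Sum.elim u R x (e y)).submatrix id τ =
        Matrix.of fun x y : Fin N ⊕ ι => Sum.elim u R x (e' y) := by
      ext x y
      simp [τ]
    rw [h2] at h1
    unfold dtG
    refine Eq.trans ?_ (Eq.trans h1 ?_)
    · exact congrArg (fun inst : DecidableEq (Fin N ⊕ ι) => @Matrix.det _ inst _ K _ _)
        (Subsingleton.elim _ _)
    · exact congrArg (fun inst : DecidableEq (Fin N ⊕ ι) =>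
        (((Equiv.Perm.sign τ : ℤˣ) : ℤ) : K) * @Matrix.det _ inst _ K _ _)
        (Subsingleton.elim _ _)

/-- The determinant on coordinate vectors: the complementary minor. -/
theorem dtG_single (R : ι → Y → K) [DecidableEq Y] [DecidableEq ι] {N : ℕ} (e : Fin N ⊕ ι ≃ Y) :
    dtG R e (fun j => Pi.single (e (Sum.inl j)) 1) =
      Matrix.det (Matrix.of fun i i' : ι => R i (e (Sum.inr i'))) := by
  have h1 : (Matrix.of fun x y : Fin N ⊕ ι =>
      Sum.elim (fun j => (Pi.single (e (Sum.inl j)) 1 : Y → K)) R x (e y)) =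
      Matrix.fromBlocks (1 : Matrix (Fin N) (Fin N) K) 0
        (Matrix.of fun (i : ι) (j : Fin N) => R i (e (Sum.inl j)))
        (Matrix.of fun i i' : ι => R i (e (Sum.inr i'))) := by
    ext x y
    rcases x with j | i <;> rcases y with j' | i'
    · simp [Matrix.fromBlocks, Matrix.one_apply, Pi.single_apply, eq_comm]
    · simp [Matrix.fromBlocks]
    · simp [Matrix.fromBlocks]
    · simp [Matrix.fromBlocks]
  have h2 : dtG R e (fun j => Pi.single (e (Sum.inl j)) 1) =
      Matrix.det (Matrix.of fun x y : Fin N ⊕ ι =>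
        Sum.elim (fun j => (Pi.single (e (Sum.inl j)) 1 : Y → K)) R x (e y)) := by
    unfold dtG
    exact congrArg (fun inst : DecidableEq (Fin N ⊕ ι) => @Matrix.det _ inst _ K _ _)
      (Subsingleton.elim _ _)
  rw [h2, h1, Matrix.det_fromBlocks_zero₁₂, Matrix.det_one, one_mul]

end T4
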