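import Pool.Agent.Lib.MP_23b606_ag.T4.Om

/-! U/Emb: a point which specialises to the generic point is generic. -/

set_option autoImplicit false

namespace T4

open T1 T3

variable {k : Type} [Field k] [CharZero k]

section EmbAux

variable {M : Type} [AddCommGroup M] {K : Type} [Field K] [Algebra k K]

/-- The evaluation at a character as a homomorphism of algebras. -/
private noncomputable def embL (χ : Multiplicative M →* K) : AddMonoidAlgebra k M →ₐ[k] K :=
  AddMonoidAlgebra.lift k K M χ

private theorem embL_apply (χ : Multiplicative M →* K) (x : AddMonoidAlgebra k M) :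
    embL χ x = ev χ x.coeff := rfl

private theorem embL_of (χ : Multiplicative M →* K) (m : Multiplicative M) :
    embL χ (AddMonoidAlgebra.of k M m) = χ m := AddMonoidAlgebra.lift_of _ _

/-- The Laurent polynomial whose value at `χ` is the logarithmic derivative of `g`. -/
private noncomputable def embD (g : M →₀ k) (n' : M →+ ℤ) : AddMonoidAlgebra k M :=
  g.sum fun m c => AddMonoidAlgebra.single m (c * ((n' m : ℤ) : k))

private theorem embL_embD (χ : Multiplicative M →* K) (g : M →₀ k) (n' : M →+ ℤ) :
    embL χ (embD g n') = dl χ g n' := by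
  simp only [embD, dl, Finsupp.sum, map_sum, embL]
  refine Finset.sum_congr rfl fun m _ => ?_
  rw [AddMonoidAlgebra.lift_single, Algebra.smul_def, map_mul, map_intCast]
  ring

open Classical in
private theorem emb_ind {K' : Type} [Field K'] [Algebra k K'] {ι : Type} [Fintype ι]
    {f : ι → M →₀ k} (χ : Multiplicative M →* K) (ψ : Multiplicative M →* K')
    (hsp : ∀ g : M →₀ k, ev ψ g = 0 → ev χ g = 0) {d n : ℕ} (b : Module.Basis (Fin d) ℤ M)
    (hI : LinearIndependent K fun i => dl χ (f i)) (e : Fin n ⊕ ι ≃ Fin d) :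
    LinearIndependent K' fun i => dl ψ (f i) := by
  obtain ⟨s, hs⟩ := exists_unit_minor (fun i => row b χ (f i)) (row_independent b χ hI) e
  let Mx : Matrix (Fin n ⊕ ι) (Fin n ⊕ ι) (AddMonoidAlgebra k M) := Matrix.of fun x y =>
    Sum.elim (fun i => if e y = s i then (1 : AddMonoidAlgebra k M) else 0)
      (fun i => embD (f i) (b.coord (e y)).toAddMonoidHom) x
  have h1 : (embL χ).mapMatrix Mx = Matrix.of fun x y : Fin n ⊕ ι =>
      Sum.elim (fun i => (Pi.single (s i) 1 : Fin d → K)) (fun i => row b χ (f i)) x (e y) := by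
    ext x y
    rcases x with i | i
    · show embL χ (if e y = s i then (1 : AddMonoidAlgebra k M) else 0)
        = (Pi.single (s i) 1 : Fin d → K) (e y)
      rw [Pi.single_apply]
      split_ifs <;> simp
    · exact embL_embD χ (f i) _
  have h2 : embL χ Mx.det ≠ 0 := by
    rw [AlgHom.map_det, h1]
    exact hs
  have h3 : embL (k := k) ψ Mx.det ≠ 0 := fun h => h2 (hsp _ h)
  rw [AlgHom.map_det] at h3
  have h4 : IsUnit ((embL (k := k) ψ).mapMatrix Mx) := by
    rw [Matrix.isUnit_iff_isUnit_det]
    exact isUnit_iff_ne_zero.mpr h3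
  rw [← Matrix.linearIndependent_rows_iff_isUnit] at h4
  have h5 := h4.comp Sum.inr Sum.inr_injective
  refine LinearIndependent.of_comp (LinearMap.funLeft K' K' fun y : Fin n ⊕ ι =>
    (b.coord (e y)).toAddMonoidHom) ?_
  have h6 : (fun i => (LinearMap.funLeft K' K' fun y : Fin n ⊕ ι =>
    (b.coord (e y)).toAddMonoidHom) (dl ψ (f i)))
      = ((embL (k := k) ψ).mapMatrix Mx).row ∘ Sum.inr := by
    funext i y
    exact (embL_embD ψ (f i) _).symm
  show LinearIndependent K' (fun i => (LinearMap.funLeft K' K' fun y : Fin n ⊕ ι =>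
    (b.coord (e y)).toAddMonoidHom) (dl ψ (f i)))
  rw [h6]
  exact h5

private theorem emb_trdeg {ι : Type} [Fintype ι]
    {f : ι → M →₀ k} (ψ : Multiplicative M →* K) {d : ℕ} (b : Module.Basis (Fin d) ℤ M)
    (hI : LinearIndependent K fun i => dl ψ (f i)) (hz : ∀ i, ev ψ (f i) = 0) :
    Algebra.trdeg k (embL (k := k) ψ).range + (Fintype.card ι : Cardinal) ≤ (d : Cardinal) := by
  let F : IntermediateField k K := IntermediateField.adjoin k (Set.range ψ)
  let ψ' : Multiplicative M →* F :=
    { toFun := fun m => ⟨ψ m, IntermediateField.subset_adjoin k _ ⟨m, rfl⟩⟩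
      map_one' := Subtype.ext (map_one ψ)
      map_mul' := fun m m' => Subtype.ext (map_mul ψ m m') }
  have hv : ∀ x, F.val (embL (k := k) ψ' x) = embL (k := k) ψ x := by
    intro x
    have h : (F.val).comp (embL (k := k) ψ') = embL (k := k) ψ := by
      apply AddMonoidAlgebra.algHom_ext
      · intro m
        show F.val (embL (k := k) ψ' (AddMonoidAlgebra.of k M (Multiplicative.ofAdd m)))
          = embL (k := k) ψ (AddMonoidAlgebra.of k M (Multiplicative.ofAdd m))
        rw [embL_of, embL_of]
        rfl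
      · exact Subsingleton.elim _ _
    exact DFunLike.congr_fun h x
  have hev : ∀ g : M →₀ k, F.val (ev ψ' g) = ev ψ g := fun g =>
    hv (AddMonoidAlgebra.ofCoeff g)
  have hdl : ∀ (g : M →₀ k) (n' : M →+ ℤ), F.val (dl ψ' g n') = dl ψ g n' := fun g n' => by
    rw [← embL_embD, ← embL_embD, hv]
  have hz' : ∀ i, ev ψ' (f i) = 0 := fun i => by
    have h : F.val (ev ψ' (f i)) = F.val 0 := by rw [hev, hz, map_zero]
    exact Subtype.ext h
  have hgen : IntermediateField.adjoin k (Set.range ψ') = ⊤ := by
    apply IntermediateField.lift_injective F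
    rw [IntermediateField.lift_adjoin, IntermediateField.lift_top, ← Set.range_comp]
    rfl
  have hI' : LinearIndependent F fun i => dl ψ' (f i) := by
    have h1 : LinearIndependent F fun i => dl ψ (f i) := by
      refine hI.restrict_scalars ?_
      intro a c h
      have h' : a • (1 : K) = c • (1 : K) := h
      rw [Algebra.smul_def, Algebra.smul_def, mul_one, mul_one] at h'
      exact (algebraMap F K).injective h'
    let T : ((M →+ ℤ) → F) →ₗ[F] ((M →+ ℤ) → K) :=
      LinearMap.compLeft (Algebra.linearMap F K) (M →+ ℤ)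
    refine LinearIndependent.of_comp T ?_
    have h2 : (T ∘ fun i => dl ψ' (f i)) = fun i => dl ψ (f i) := by
      funext i n'
      exact hdl (f i) n'
    rw [h2]
    exact h1
  have h3 := trdeg_add_le b ψ' hI' hz' hgen
  refine le_trans (add_le_add_left ?_ _) h3
  let g : (embL (k := k) ψ).range →ₐ[k] F :=
    { toFun := fun z => ⟨z, by
        obtain ⟨z, x, rfl⟩ := z
        have := hv x
        show embL (k := k) ψ x ∈ F
        rw [← this]
        exact (embL (k := k) ψ' x).2⟩
      map_one' := rfl
      map_mul' := fun _ _ => rfl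
      map_zero' := rfl
      map_add' := fun _ _ => rfl
      commutes' := fun _ => rfl }
  exact trdeg_le_of_injective g fun x y h => Subtype.ext (congrArg (fun z : F => (z : K)) h)

end EmbAux

/-- A point `ψ` of `{f = 0}` which specialises to the generic point `χ` is generic: the field
of `χ` embeds. -/
theorem exists_emb {M : Type} [AddCommGroup M] [Module.Free ℤ M] [Module.Finite ℤ M]
    {K K' : Type} [Field K] [Algebra k K] [Field K'] [Algebra k K'] {ι : Type} [Fintype ι]
    {f : ι → M →₀ k} (χ : Multiplicative M →* K)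
    (hI : LinearIndependent K fun i => dl χ (f i)) {n : ℕ} (hχ : Pt f χ n)
    (ψ : Multiplicative M →* K') (hψ : ∀ i, ev ψ (f i) = 0)
    (hsp : ∀ g : M →₀ k, ev ψ g = 0 → ev χ g = 0) :
    ∃ φ : K →ₐ[k] K', ∀ m, φ (χ m) = ψ m := by
  let b : Module.Basis (Fin (Module.finrank ℤ M)) ℤ M := Module.finBasis ℤ M
  have e : Fin n ⊕ ι ≃ Fin (Module.finrank ℤ M) :=
    Fintype.equivFinOfCardEq (by rw [Fintype.card_sum, Fintype.card_fin, hχ.dim])
  have hI' := emb_ind χ ψ hsp b hI e
  have htr : Algebra.trdeg k (embL (k := k) ψ).range ≤ (n : Cardinal) := by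
    have h := emb_trdeg ψ b hI' hψ
    have h1 : ((Module.finrank ℤ M : ℕ) : Cardinal) = (n : Cardinal) + (Fintype.card ι : Cardinal) := by
      rw [← hχ.dim]; push_cast; rfl
    rw [h1] at h
    exact (Cardinal.add_le_add_iff_of_lt_aleph0 (Cardinal.natCast_lt_aleph0)).mp h
  let A := (embL (k := k) ψ).range
  have hsurj : Function.Surjective (embL (k := k) ψ).rangeRestrict := (embL (k := k) ψ).rangeRestrict_surjective
  have hker : RingHom.ker ((embL (k := k) ψ).rangeRestrict).toRingHom ≤ RingHom.ker (embL χ).toRingHom := by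
    intro x hx
    rw [RingHom.mem_ker] at hx ⊢
    have hx' : embL (k := k) ψ x = 0 := congrArg Subtype.val hx
    exact hsp _ hx'
  let π : A →ₐ[k] K := AlgHom.liftOfSurjective (embL (k := k) ψ).rangeRestrict hsurj (embL χ) hker
  have hπ : ∀ x, π ((embL (k := k) ψ).rangeRestrict x) = embL χ x :=
    AlgHom.liftOfSurjective_apply (embL (k := k) ψ).rangeRestrict hsurj (embL χ) hker
  let y : Multiplicative M → A := fun m => (embL (k := k) ψ).rangeRestrict (AddMonoidAlgebra.of k M m)
  have hπy : ∀ m, π (y m) = χ m := fun m => by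
    rw [hπ]; exact embL_of χ m
  have hyv : ∀ m, ((y m : A) : K') = ψ m := fun m => embL_of ψ m
  have hdiv : ∀ x : K, ∃ r ∈ Algebra.adjoin k (Set.range χ), ∃ s ∈ Algebra.adjoin k (Set.range χ),
      x = r / s := fun x => by
    rw [← IntermediateField.mem_adjoin_iff_div, hχ.gen]
    trivial
  have halg : Algebra.IsAlgebraic (Algebra.adjoin k (Set.range χ)) K := by
    refine ⟨fun x => ?_⟩
    obtain ⟨r, hr, s, hs, rfl⟩ := hdiv x
    have h1 : IsAlgebraic (Algebra.adjoin k (Set.range χ)) r :=
      isAlgebraic_algebraMap (⟨r, hr⟩ : Algebra.adjoin k (Set.range χ))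
    have h2 : IsAlgebraic (Algebra.adjoin k (Set.range χ)) s :=
      isAlgebraic_algebraMap (⟨s, hs⟩ : Algebra.adjoin k (Set.range χ))
    rw [div_eq_mul_inv]
    exact h1.mul (IsAlgebraic.inv_iff.mpr h2)
  obtain ⟨t, ht, htb⟩ := exists_isTranscendenceBasis_subset (R := k) (A := K) (Set.range χ)
  choose m hm using fun i : t => ht i.2
  have hx : (fun i : t => π (y (m i))) = Subtype.val := by
    funext i
    rw [hπy, hm]
  have hyi : AlgebraicIndependent k (fun i : t => y (m i)) := by
    refine AlgebraicIndependent.of_comp π ?_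
    show AlgebraicIndependent k (fun i : t => π (y (m i)))
    rw [hx]
    exact htb.1
  have hcard : Cardinal.mk t = (n : Cardinal) := htb.cardinalMk_eq_trdeg.trans hχ.trd
  have hfin : Finite t := by
    rw [← Cardinal.lt_aleph0_iff_finite, hcard]
    exact Cardinal.natCast_lt_aleph0
  have hyb : IsTranscendenceBasis k (fun i : t => y (m i)) :=
    hyi.isTranscendenceBasis_of_trdeg_le_of_finite (by rw [hcard]; exact htr)
  have hπinj : Function.Injective π := by
    rw [injective_iff_map_eq_zero]
    intro z hz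
    by_contra hz0
    have := hyb.isAlgebraic
    obtain ⟨r, hr, w, hw⟩ := (Algebra.IsAlgebraic.isAlgebraic
      (R := Algebra.adjoin k (Set.range fun i : t => y (m i))) z).exists_nonzero_dvd
        (mem_nonZeroDivisors_of_ne_zero hz0)
    obtain ⟨P, hP⟩ : ∃ P : MvPolynomial t k,
        MvPolynomial.aeval (fun i : t => y (m i)) P = (r : A) := by
      exact (Algebra.adjoin_range_eq_range_aeval k fun i : t => y (m i)).le r.2
    have h1 : π (r : A) = MvPolynomial.aeval (Subtype.val : t → K) P := by
      rw [← hP, ← hx]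
      exact (MvPolynomial.comp_aeval_apply _ π P).symm ▸ rfl
    have h2 : P ≠ 0 := by
      rintro rfl
      rw [map_zero] at hP
      exact hr (Subtype.ext hP.symm)
    have h3 : MvPolynomial.aeval (Subtype.val : t → K) P ≠ 0 := fun h =>
      h2 (htb.1 (h.trans (map_zero _).symm))
    apply h3
    rw [← h1]
    have h4 : (r : A) = z * w := hw
    rw [h4, map_mul, hz, zero_mul]
  let _ : Algebra A K := π.toRingHom.toAlgebra
  have : IsScalarTower k A K := IsScalarTower.of_algebraMap_eq fun r => (π.commutes r).symm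
  have : FaithfulSMul A K := (faithfulSMul_iff_algebraMap_injective A K).mpr hπinj
  have hadj : ∀ r ∈ Algebra.adjoin k (Set.range χ), ∃ a : A, r = algebraMap A K a := by
    have h : Algebra.adjoin k (Set.range χ) ≤ π.range := by
      rw [Algebra.adjoin_le_iff]
      rintro _ ⟨m, rfl⟩
      exact ⟨y m, hπy m⟩
    intro r hr
    obtain ⟨a, ha⟩ := h hr
    exact ⟨a, ha.symm⟩
  have : IsFractionRing A K := IsFractionRing.of_field A K fun z => by
    obtain ⟨r, hr, s, hs, rfl⟩ := hdiv z
    obtain ⟨a, rfl⟩ := hadj r hr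
    obtain ⟨c, rfl⟩ := hadj s hs
    exact ⟨a, c, rfl⟩
  have hval : Function.Injective A.val := Subtype.val_injective
  refine ⟨IsFractionRing.liftAlgHom hval, fun m' => ?_⟩
  have h1 : χ m' = algebraMap A K (y m') := (hπy m').symm
  rw [h1, IsFractionRing.liftAlgHom_apply, IsFractionRing.lift_algebraMap]
  exact hyv m'

end T4
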