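import Pool.Agent.Lib.MP_23b606_ag.T4.Base
import Pool.Agent.Lib.MP_23b606_ag.T3.Sch

/-! Jc: Jacobian determinants over the base (section 6 (iii), (iv)). -/

set_option autoImplicit false

open scoped BigOperators KaehlerDifferential

namespace T4

open T1 T3

variable {k : Type} [Field k] [Algebra ℂ k] {K : Type} [Field K] [Algebra ℂ K] [Algebra k K]
  [IsScalarTower ℂ k K] {n e : ℕ}

/-- On the base: `dy = det(D_s y_t) da`. Proof: `der_base` with `K = k`, `Matrix.det_mul`. -/
theorem jac_base (he : Algebra.trdeg ℂ k = e) (a : Fin e → k) (D : Fin e → Derivation ℂ k k)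
    (hD : ∀ s t, D s (a t) = if s = t then 1 else 0) (y : Fin e → k)
    (E : Fin e → Derivation ℂ k k) : jac E y = jac D y * jac E a := by
  have h1 : (Matrix.of fun i t => E i (y t)) =
      (Matrix.of fun i s => E i (a s)) * (Matrix.of fun s t => D s (y t)) := by
    ext i t
    rw [Matrix.mul_apply, Matrix.of_apply]
    have h2 := der_base (K := k) he a D hD (E i) (y t)
    rw [Algebra.algebraMap_self_apply] at h2
    rw [h2]
    refine Finset.sum_congr rfl fun s _ => ?_
    rw [Matrix.of_apply, Matrix.of_apply, Algebra.algebraMap_self_apply,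
      Algebra.algebraMap_self_apply, mul_comm]
  unfold jac
  rw [h1, Matrix.det_mul, mul_comm]

/-- In `K`: `dx ∧ dy = det(D_s y_t) (dx ∧ da)`. Proof: `der_base`; the matrix `E_i(x ⊔ y)` is the
matrix `E_i(x ⊔ a)` times the block diagonal matrix of `1` and `(D_s y_t)`. -/
theorem jac_append (he : Algebra.trdeg ℂ k = e) (a : Fin e → k) (D : Fin e → Derivation ℂ k k)
    (hD : ∀ s t, D s (a t) = if s = t then 1 else 0) (y : Fin e → k) (x : Fin n → K)
    (E : Fin (n + e) → Derivation ℂ K K) :
    jac E (Fin.append x fun t => algebraMap k K (y t)) =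
      algebraMap k K (jac D y) * jac E (Fin.append x fun t => algebraMap k K (a t)) := by
  let B : Matrix (Fin e) (Fin e) K := (Matrix.of fun s t => D s (y t)).map (algebraMap k K)
  let C : Matrix (Fin n ⊕ Fin e) (Fin n ⊕ Fin e) K := Matrix.fromBlocks 1 0 0 B
  have hdet : (C.submatrix finSumFinEquiv.symm finSumFinEquiv.symm).det =
      algebraMap k K (jac D y) := by
    rw [Matrix.det_submatrix_equiv_self]
    show (Matrix.fromBlocks (1 : Matrix (Fin n) (Fin n) K) 0 0 B).det = _
    rw [Matrix.det_fromBlocks_zero₂₁, Matrix.det_one, one_mul]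
    show ((Matrix.of fun s t => D s (y t)).map (algebraMap k K)).det = _
    rw [← RingHom.mapMatrix_apply, ← RingHom.map_det]
    rfl
  have h1 : (Matrix.of fun i j => E i ((Fin.append x fun t => algebraMap k K (y t)) j)) =
      (Matrix.of fun i j => E i ((Fin.append x fun t => algebraMap k K (a t)) j)) *
        (C.submatrix finSumFinEquiv.symm finSumFinEquiv.symm) := by
    ext i j
    rw [Matrix.mul_apply, Fin.sum_univ_add]
    have e1 : ∀ j' : Fin n, (finSumFinEquiv.symm (Fin.castAdd e j') : Fin n ⊕ Fin e) =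
        Sum.inl j' := fun j' => finSumFinEquiv_symm_apply_castAdd j'
    have e2 : ∀ t : Fin e, (finSumFinEquiv.symm (Fin.natAdd n t) : Fin n ⊕ Fin e) =
        Sum.inr t := fun t => finSumFinEquiv_symm_apply_natAdd t
    refine Fin.addCases (fun j => ?_) (fun t => ?_) j
    · have h2 : ∀ s : Fin e, (C.submatrix finSumFinEquiv.symm finSumFinEquiv.symm)
          (Fin.natAdd n s) (Fin.castAdd e j) = 0 := by
        intro s
        rw [Matrix.submatrix_apply, e1, e2]
        rfl
      have h3 : ∀ j' : Fin n, (C.submatrix finSumFinEquiv.symm finSumFinEquiv.symm)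
          (Fin.castAdd e j') (Fin.castAdd e j) = if j' = j then 1 else 0 := by
        intro j'
        rw [Matrix.submatrix_apply, e1, e1]
        show (1 : Matrix (Fin n) (Fin n) K) j' j = _
        rw [Matrix.one_apply]
      simp only [h2, h3, Matrix.of_apply, Fin.append_left, mul_zero, Finset.sum_const_zero,
        add_zero, mul_ite, mul_one]
      simp
    · have h2 : ∀ s : Fin e, (C.submatrix finSumFinEquiv.symm finSumFinEquiv.symm)
          (Fin.natAdd n s) (Fin.natAdd n t) = algebraMap k K (D s (y t)) := by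
        intro s
        rw [Matrix.submatrix_apply, e2, e2]
        rfl
      have h3 : ∀ j' : Fin n, (C.submatrix finSumFinEquiv.symm finSumFinEquiv.symm)
          (Fin.castAdd e j') (Fin.natAdd n t) = 0 := by
        intro j'
        rw [Matrix.submatrix_apply, e1, e2]
        rfl
      simp only [h2, h3, Matrix.of_apply, Fin.append_left, Fin.append_right, mul_zero,
        Finset.sum_const_zero, zero_add]
      rw [der_base he a D hD (E i) (y t)]
      exact Finset.sum_congr rfl fun s _ => mul_comm _ _
  unfold jac at hdet ⊢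
  rw [h1, Matrix.det_mul, hdet, mul_comm]

/-- The coefficient of a regular form in local coordinates is regular at `O`: with
`c_a = g0 κ^m0`, `κ = det(D_s y_t)`. Proof: for `O'` as in `BaseAt.reg`, `RegularAt O' y m0 g0` gives
`a'', c'', j''` with `jac D a'' = j'' κ`, `jac D a'' ∈ O'` (entries `D s (a'' t) ∈ O'`), so
`g0 κ^m0 = c'' (jac D a'')^m0 ∈ O'`. -/
theorem coef_mem {a : Fin e → k} {D : Fin e → Derivation ℂ k k} {O : ValuationSubring K}
    (hB : BaseAt a D O) (y : Fin e → k) (m0 : ℕ) (g0 : k)
    (hreg : ∀ O' : ValuationSubring k, IsDiv e O' → RegularAt O' y m0 g0) :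
    algebraMap k K (g0 * jac D y ^ m0) ∈ O := by
  refine hB.reg _ fun O' hO' _ hD => ?_
  obtain ⟨a', c', j', ha', hc', hj', hg⟩ := hreg O' hO'
  have h1 : jac D a' ∈ O' := by
    unfold jac
    rw [Matrix.det_apply]
    refine sum_mem fun σ _ => ?_
    rw [Units.smul_def]
    refine zsmul_mem (prod_mem fun i _ => ?_) _
    rw [Matrix.of_apply]
    exact hD _ _ (ha' _)
  have h2 : g0 * jac D y ^ m0 = c' * jac D a' ^ m0 := by
    rw [hj' D, hg]
    ring
  rw [h2]
  exact mul_mem hc' (pow_mem h1 _)

end T4
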