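import Pool.Agent.Lib.MP_23b606_ag.T4.Adj
import Pool.Agent.Lib.MP_23b606_ag.T4.Dec

/-! NotNeg: a lattice point of the Fine interior gives a form (row T4-2). -/

set_option autoImplicit false

open scoped BigOperators KaehlerDifferential

namespace T4

open T1 T3

variable {k : Type} [Field k] [CharZero k]

private theorem NotNeg_ne {M : Type} [AddCommGroup M] {K : Type} [Field K]
    (χ : Multiplicative M →* K) (x : Multiplicative M) : χ x ≠ 0 := fun hx => by
  have h : χ (x * x⁻¹) = 0 := by rw [map_mul, hx, zero_mul]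
  rw [mul_inv_cancel, map_one] at h
  exact one_ne_zero h

private theorem NotNeg_pow {K : Type} [Field K] {O : ValuationSubring K} (V : NVal O) {x : K}
    (hx : x ≠ 0) (j : ℕ) : V.v (x ^ j) = j * V.v x := by
  have h := V.zpow hx (j : ℤ)
  rwa [zpow_natCast] at h

private theorem NotNeg_prod {K : Type} [Field K] {O : ValuationSubring K} (V : NVal O) {α : Type}
    (s : Finset α) (x : α → K) (hx : ∀ i ∈ s, x i ≠ 0) :
    V.v (∏ i ∈ s, x i) = ∑ i ∈ s, V.v (x i) := by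
  classical
  induction s using Finset.induction_on with
  | empty => rw [Finset.prod_empty, Finset.sum_empty, V.one]
  | insert a s ha ih =>
    rw [Finset.prod_insert ha, Finset.sum_insert ha,
      V.mul _ _ (hx a (Finset.mem_insert_self a s))
        (Finset.prod_ne_zero_iff.2 fun i hi => hx i (Finset.mem_insert_of_mem hi)),
      ih fun i hi => hx i (Finset.mem_insert_of_mem hi)]

/-- Proof (h47_T4.md 3(b)). `b, e` as in T1/A/Fi.lean, `l` from `exists_ell` (injective, so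
`l (W k x0) ≠ 0`), `c, a` from `exists_decomp`. Take
`γ = (∏_i ∏_{m ∈ supp (g i)} (g_i(m) χ(m))^(a i m))^m0 / l(W x0)^(m0 c m)`, `m1 = c m`. At `V δ`
with `α, nn, lam` of `hG.adj`, `ν = ∑ nn q`: the product has value
`≥ ∑_i ∑_m a i m (lam i + ν m) = c m ∑ lam i + c ν(y) ≥ c m (∑ lam i + ∑ hm (g i) ν + card α)`
(`ν y = ∑ nn q y ≥ ∑ m (∑ hm (g i) (nn q) + 1)`), so
`v γ ≥ m0 c m (∑ (lam i + hm (g i) ν) + card α) - c m (m0 v(l(W x0))) ≥ - c m w δ`. -/
theorem exists_form {M : Type} [AddCommGroup M] [Module.Free ℤ M] [Module.Finite ℤ M]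
    {K : Type} [Field K] [Algebra k K] {ι : Type} [Fintype ι] {f g : ι → M →₀ k}
    (χ : Multiplicative M →* K) {Δ : Type} {O : Δ → ValuationSubring K} {V : ∀ δ, NVal (O δ)}
    {w : Δ → ℤ} {n : ℕ} {x0 : Fin n → K} (hx0 : W k x0 ≠ 0) {m0 : ℕ}
    (hG : GoodK V w x0 m0 f g χ) (hχ : Pt f χ n) (m : ℕ) (hm1 : 1 ≤ m) (y : M)
    (hFI : ∀ n' : M →+ ℤ, n' ≠ 0 → (m : ℤ) * (∑ i, hm (g i) n' + 1) ≤ n' y) :
    ∃ (γ : K) (m1 : ℕ), γ ≠ 0 ∧ 1 ≤ m1 ∧ ∀ δ, 0 ≤ (V δ).v γ + m1 * w δ := by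
  have hg : ∀ i, g i ≠ 0 := by
    intro i hi
    have h1 : f i = 0 := by
      rw [← Finsupp.support_eq_empty, ← Finset.subset_empty]
      have h2 := hG.sub i
      rwa [hi, Finsupp.support_zero] at h2
    have h3 := hG.ind.ne_zero i
    apply h3
    funext n'
    change dl χ (f i) n' = 0
    rw [h1]
    exact Finsupp.sum_zero_index
  obtain ⟨c, a, hc, ha, hy⟩ := exists_decomp g hg m hm1 y hFI
  set b : Module.Basis (Fin (Module.finrank ℤ M)) ℤ M := Module.finBasis ℤ M with hb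
  have hcard : Fintype.card (Fin n ⊕ ι) = Fintype.card (Fin (Module.finrank ℤ M)) := by
    rw [Fintype.card_sum, Fintype.card_fin, Fintype.card_fin, hχ.dim]
  set e : Fin n ⊕ ι ≃ Fin (Module.finrank ℤ M) := Fintype.equivOfCardEq hcard with he
  obtain ⟨l, hlinj, hl⟩ := exists_ell b χ hG.ind hχ e
  have hlx : l (W k x0) ≠ 0 := by
    intro h
    exact hx0 (hlinj (by rw [h, map_zero]))
  have ht : ∀ i, ∀ v ∈ (g i).support,
      algebraMap k K (g i v) * χ (Multiplicative.ofAdd v) ≠ 0 := fun i v hv =>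
    mul_ne_zero (by
      rw [Ne, FaithfulSMul.algebraMap_eq_zero_iff]
      exact Finsupp.mem_support_iff.1 hv) (NotNeg_ne χ _)
  obtain ⟨P, hP⟩ : ∃ P : K, P = ∏ i, ∏ v ∈ (g i).support,
      (algebraMap k K (g i v) * χ (Multiplicative.ofAdd v)) ^ a i v := ⟨_, rfl⟩
  have hPi : ∀ i, ∏ v ∈ (g i).support,
      (algebraMap k K (g i v) * χ (Multiplicative.ofAdd v)) ^ a i v ≠ 0 := fun i =>
    Finset.prod_ne_zero_iff.2 fun v hv => pow_ne_zero _ (ht i v hv)
  have hP0 : P ≠ 0 := by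
    rw [hP]
    exact Finset.prod_ne_zero_iff.2 fun i _ => hPi i
  refine ⟨P ^ m0 / l (W k x0) ^ (m0 * (c * m)), c * m,
    div_ne_zero (pow_ne_zero _ hP0) (pow_ne_zero _ hlx), Nat.mul_pos hc hm1, fun δ => ?_⟩
  obtain ⟨α, _, nn, lam, hnn, -, hgv, hadd, hval⟩ := hG.adj _ b e l hl δ
  have hv1 : (V δ).v (P ^ m0 / l (W k x0) ^ (m0 * (c * m))) =
      m0 * (V δ).v P - m0 * (c * m) * (V δ).v (l (W k x0)) := by
    rw [div_eq_mul_inv, (V δ).mul _ _ (pow_ne_zero _ hP0) (inv_ne_zero (pow_ne_zero _ hlx)),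
      (V δ).inv (pow_ne_zero _ hlx), NotNeg_pow (V δ) hP0, NotNeg_pow (V δ) hlx]
    push_cast
    ring
  have hv2 : (V δ).v P = ∑ i, ∑ v ∈ (g i).support, (a i v : ℤ) *
      (V δ).v (algebraMap k K (g i v) * χ (Multiplicative.ofAdd v)) := by
    rw [hP, NotNeg_prod (V δ) _ _ fun i _ => hPi i]
    refine Finset.sum_congr rfl fun i _ => ?_
    rw [NotNeg_prod (V δ) _ _ fun v hv => pow_ne_zero _ (ht i v hv)]
    exact Finset.sum_congr rfl fun v hv => NotNeg_pow (V δ) (ht i v hv) _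
  have hv3 : ∑ i, ∑ v ∈ (g i).support, (a i v : ℤ) * (lam i + (∑ q, nn q) v) ≤ (V δ).v P := by
    rw [hv2]
    refine Finset.sum_le_sum fun i _ => Finset.sum_le_sum fun v hv => ?_
    exact mul_le_mul_of_nonneg_left (hgv i v (Finsupp.mem_support_iff.1 hv)) (Int.natCast_nonneg _)
  have hv4 : ∑ i, ∑ v ∈ (g i).support, (a i v : ℤ) * (lam i + (∑ q, nn q) v) =
      c * m * ∑ i, lam i + c * (∑ q, nn q) y := by
    have h1 : ∀ i, ∑ v ∈ (g i).support, (a i v : ℤ) * (lam i + (∑ q, nn q) v) =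
        (c * m : ℤ) * lam i + (∑ q, nn q) (∑ v ∈ (g i).support, a i v • v) := by
      intro i
      have h2 : (∑ v ∈ (g i).support, (a i v : ℤ)) = c * m := by exact_mod_cast ha i
      rw [← h2, Finset.sum_mul, map_sum, ← Finset.sum_add_distrib]
      refine Finset.sum_congr rfl fun v _ => ?_
      rw [map_nsmul, nsmul_eq_mul, mul_add]
    rw [Finset.sum_congr rfl fun i _ => h1 i, Finset.sum_add_distrib, ← Finset.mul_sum, ← map_sum,
      hy, map_nsmul, nsmul_eq_mul]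
  have h3 : (m : ℤ) * (∑ i, hm (g i) (∑ q, nn q) + (Fintype.card α : ℤ)) ≤ (∑ q, nn q) y := by
    have h4 : ∑ q, (m : ℤ) * (∑ i, hm (g i) (nn q) + 1) ≤ ∑ q, nn q y :=
      Finset.sum_le_sum fun q _ => hFI (nn q) (hnn q)
    have h5 : (∑ q, nn q) y = ∑ q, nn q y := AddMonoidHom.finsetSum_apply _ _ _
    have h6 : ∑ i, hm (g i) (∑ q, nn q) = ∑ q, ∑ i, hm (g i) (nn q) := by
      rw [Finset.sum_comm]
      exact Finset.sum_congr rfl fun i _ => hadd i
    rw [← Finset.mul_sum, Finset.sum_add_distrib, ← h6, Finset.sum_const, Finset.card_univ,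
      nsmul_eq_mul, mul_one, ← h5] at h4
    exact h4
  rw [hv4] at hv3
  rw [hv1]
  rw [Finset.sum_add_distrib] at hval
  have hcm : (0 : ℤ) ≤ c := Int.natCast_nonneg c
  have hm0 : (0 : ℤ) ≤ m0 := Int.natCast_nonneg m0
  have hmm : (0 : ℤ) ≤ (c : ℤ) * m := mul_nonneg hcm (Int.natCast_nonneg m)
  have h7 := mul_le_mul_of_nonneg_left h3 hcm
  have h8 : (c * m : ℤ) * (∑ i, lam i + (∑ i, hm (g i) (∑ q, nn q) + (Fintype.card α : ℤ))) ≤
      (V δ).v P := by
    linarith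
  have h9 := mul_le_mul_of_nonneg_left h8 hm0
  have h10 := mul_le_mul_of_nonneg_left hval hmm
  push_cast
  linarith

end T4
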