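import Pool.Agent.Lib.MP_23b606_ag.T4.Psi
import Pool.Agent.Lib.MP_23b606_ag.T1.U.Triv
import Pool.Agent.Lib.MP_23b606_ag.T4.Emb

/-! U/Uni: a nontrivial solution gives rational curves through the generic point. -/

set_option autoImplicit false

open Polynomial

namespace T4

open T1 T3

variable {k : Type} [Field k] [CharZero k]

/-- The value at a character with values in an extension. -/
private theorem Uni_ev {M : Type} [AddCommGroup M] {K : Type} [Field K] [Algebra k K]
    {L : Type} [Field L] [Algebra k L] [Algebra K L] [IsScalarTower k K L]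
    (χ : Multiplicative M →* K) (χ' : Multiplicative M →* L)
    (hχ' : ∀ m, χ' m = algebraMap K L (χ m)) (g : M →₀ k) :
    ev χ' g = algebraMap K L (ev χ g) := by
  unfold ev Finsupp.sum
  rw [map_sum]
  refine Finset.sum_congr rfl fun m _ => ?_
  rw [map_mul, ← IsScalarTower.algebraMap_apply, ← hχ']

theorem uniruled_of_sol {M : Type} [AddCommGroup M] [Module.Free ℤ M] [Module.Finite ℤ M]
    {K : Type} [Field K] [Algebra k K] {ι : Type} [Fintype ι] {f : ι → M →₀ k}
    (χ : Multiplicative M →* K) (hI : LinearIndependent K fun i => dl χ (f i)) {n : ℕ}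
    (hχ : Pt f χ n) {J : Type} [Fintype J]
    {nn : J → M →+ ℤ} {lam : J → ℕ} (hC : Circ f nn lam)
    (χ' : Multiplicative M →* AlgebraicClosure K)
    (hχ' : ∀ m, χ' m = algebraMap K (AlgebraicClosure K) (χ m))
    (hz : ∀ i, ev χ' (f i) = 0) (e : ℕ) (P : J → (AlgebraicClosure K)[X])
    (hP : (sysOf χ' hC hz).Sol e P) (hnt : ¬ (sysOf χ' hC hz).Triv P) : UniruledOver k K := by
  obtain ⟨hm, hd, hF⟩ := hP
  have hd' : ∀ j, (P j).natDegree = e * lam j := hd
  have hP0 : ∀ j, P j ≠ 0 := fun j => (hm j).ne_zero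
  obtain ⟨ψ, hψ⟩ := exists_psi χ' nn P hP0
  have h0 : ∀ i, ev ψ (f i) = 0 := fun i => ev_psi χ' nn P hP0 ψ hψ (f i) (hF i)
  have hsp : ∀ g : M →₀ k, ev ψ g = 0 → ev χ g = 0 := by
    intro g hg
    have h1 := ev_inf χ' nn lam hC.rel e P hm hd' ψ hψ g hg
    rw [Uni_ev χ χ' hχ'] at h1
    exact (map_eq_zero _).1 h1
  obtain ⟨φ, hφ⟩ := exists_emb χ hI hχ ψ h0 hsp
  refine ⟨AlgebraicClosure K, inferInstance, inferInstance, φ, ?_⟩
  by_contra hcon
  push Not at hcon
  apply hnt
  have h1 : ∀ m : M, ∏ j, (algebraMap (AlgebraicClosure K)[X] (RatFunc (AlgebraicClosure K)) (P j))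
      ^ (nn j m) = 1 := by
    intro m
    obtain ⟨c, hc⟩ := hcon (χ (Multiplicative.ofAdd m))
    refine (const_inf χ' nn lam hC.rel e P hm hd' ψ hψ m c ?_).2
    rw [← hφ]
    exact hc.symm
  obtain ⟨q, hq, hq'⟩ := exists_pow_of_prod_eq_one nn lam hC.pos hC.prim P hm h1
  exact ⟨q, hq, hq'⟩

end T4
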