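import Pool.Agent.Lib.MP_23b606_ag.T1.C.ThmC
import Pool.Agent.Lib.MP_23b606_ag.T4.Dich
import Pool.Agent.Lib.MP_23b606_ag.T4.NotNeg
import Pool.Agent.Lib.MP_23b606_ag.T4.Uni
import Pool.Agent.Lib.MP_23b606_ag.T4.KK
import Pool.Agent.Lib.MP_23b606_ag.T4.Elim2

/-! Main: Theorem T4, abstract form. -/

set_option autoImplicit false

open Polynomial

namespace T4

open T1 T3

variable {k : Type} [Field k] [CharZero k]

theorem main4_aux {K : Type} [Field K] [Algebra k K] {Δ : Type} {O : Δ → ValuationSubring K}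
    {V : ∀ δ, NVal (O δ)} {w : Δ → ℤ} {n : ℕ} {x0 : Fin n → K} (hx0 : W k x0 ≠ 0) {m0 : ℕ}
    (N : ℕ) : ∀ (M : Type) [AddCommGroup M] [Module.Free ℤ M]
    [Module.Finite ℤ M] (ι : Type) [Fintype ι] (f g : ι → M →₀ k), Module.finrank ℤ M ≤ N →
    ∀ (χ : Multiplicative M →* K), GoodK V w x0 m0 f g χ → Pt f χ n →
      (∃ (γ : K) (m1 : ℕ), γ ≠ 0 ∧ 1 ≤ m1 ∧ ∀ δ, 0 ≤ (V δ).v γ + m1 * w δ) ∨
        UniruledOver k K := by
  induction N with
  | zero =>
    intro M _ _ _ ι _ f g hN χ hG hχ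
    classical
    have hne : ∀ i, f i ≠ 0 := ne_zero_of_ind χ hG.ind
    have hne' : ∀ i, g i ≠ 0 := by
      intro i h
      have h1 := hG.sub i
      rw [h, Finsupp.support_zero, Finset.subset_empty, Finsupp.support_eq_empty] at h1
      exact hne i h1
    rcases dichotomy g hne' with ⟨m, y, hm1, hFI⟩ | ⟨J, _, nn, lam, _, hC⟩
    · exact Or.inl (exists_form χ hx0 hG hχ m hm1 y hFI)
    · have h := (finrank_M0 hC).1
      have h' := (finrank_M0 hC).2
      omega
  | succ N ih =>
    intro M _ _ _ ι _ f g hN χ hG hχ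
    classical
    have hne : ∀ i, f i ≠ 0 := ne_zero_of_ind χ hG.ind
    have hne' : ∀ i, g i ≠ 0 := by
      intro i h
      have h1 := hG.sub i
      rw [h, Finsupp.support_zero, Finset.subset_empty, Finsupp.support_eq_empty] at h1
      exact hne i h1
    rcases dichotomy g hne' with ⟨m, y, hm1, hFI⟩ | ⟨J, _, nn, lam, _, hCg⟩
    · exact Or.inl (exists_form χ hx0 hG hχ m hm1 y hFI)
    · have hC : Circ f nn lam := circ_mono hne hG.sub hCg
      let χ' : Multiplicative M →* AlgebraicClosure K :=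
        ((algebraMap K (AlgebraicClosure K)) : K →* AlgebraicClosure K).comp χ
      have hχ' : ∀ m, χ' m = algebraMap K (AlgebraicClosure K) (χ m) := fun m => rfl
      have hz : ∀ i, ev χ' (f i) = 0 := by
        intro i
        have h := hχ.zero i
        have h2 : ev χ' (f i) = algebraMap K (AlgebraicClosure K) (ev χ (f i)) := by
          simp only [ev, Finsupp.sum, map_sum, map_mul, hχ']
          refine Finset.sum_congr rfl fun m _ => ?_
          rw [← IsScalarTower.algebraMap_apply]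
        rw [h2, h, map_zero]
      have : CharZero (AlgebraicClosure K) := by
        have h : Function.Injective (algebraMap k (AlgebraicClosure K)) :=
          (algebraMap k (AlgebraicClosure K)).injective
        exact (RingHom.charZero_iff h).1 inferInstance
      by_cases h12 : (sysOf χ' hC hz).OnlyTriv 1 ∧ (sysOf χ' hC hz).OnlyTriv 2
      · obtain ⟨hcount, huniq⟩ := (sysOf χ' hC hz).thmC h12.1 h12.2 (idx_le hC)
        have hsum : ∑ j, lam j ≤ 1 + ∑ i, dd (f i) nn lam := (sysOf χ' hC hz).sum_le h12.1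
        have hdd := dd_eq_dd hne hG.sub hCg hsum
        have hgen := adjoin_eq_top χ hχ.gen hχ.zero hC χ' hχ' huniq
        obtain ⟨M0, _, _, _, ι0, _, f0, g0, χ0, hG0, hχ0, hlt⟩ :=
          elim4 χ hx0 hG hχ hC hdd hcount hgen
        exact ih M0 ι0 f0 g0 (by omega) χ0 hG0 hχ0
      · right
        rw [not_and_or] at h12
        rcases h12 with h12 | h12
        · unfold WSys.OnlyTriv at h12
          push Not at h12
          obtain ⟨P, hP, hnt⟩ := h12
          exact uniruled_of_sol χ hG.ind hχ hC χ' hχ' hz 1 P hP hnt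
        · unfold WSys.OnlyTriv at h12
          push Not at h12
          obtain ⟨P, hP, hnt⟩ := h12
          exact uniruled_of_sol χ hG.ind hχ hC χ' hχ' hz 2 P hP hnt

/-- **Theorem T4**, abstract form. -/
theorem main4 {K : Type} [Field K] [Algebra k K] {Δ : Type} {O : Δ → ValuationSubring K}
    {V : ∀ δ, NVal (O δ)} {w : Δ → ℤ} {n : ℕ} {x0 : Fin n → K} (hx0 : W k x0 ≠ 0) {m0 : ℕ}
    {M : Type} [AddCommGroup M] [Module.Free ℤ M] [Module.Finite ℤ M] {ι : Type} [Fintype ι]
    {f g : ι → M →₀ k} (χ : Multiplicative M →* K) (hG : GoodK V w x0 m0 f g χ)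
    (hχ : Pt f χ n) :
    (∃ (γ : K) (m1 : ℕ), γ ≠ 0 ∧ 1 ≤ m1 ∧ ∀ δ, 0 ≤ (V δ).v γ + m1 * w δ) ∨
      UniruledOver k K :=
  main4_aux hx0 _ M ι f g le_rfl χ hG hχ

end T4
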