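import Pool.Agent.Lib.MP_23b606_ag.T4.SmC
import Pool.Agent.Lib.MP_23b606_ag.T4.Crep

/-! SmA: smoothness over a base implies the adjunction inequality (section 6). -/

set_option autoImplicit false

open scoped BigOperators KaehlerDifferential

namespace T4

open T1 T3

variable {k : Type} [Field k] [Algebra ℂ k] [CharZero k] {K : Type} [Field K] [Algebra ℂ K]
  [Algebra k K] [IsScalarTower ℂ k K] {M : Type} [AddCommGroup M] {ι : Type} [Fintype ι]

/-- Section 6 (i) - (iii): the local coordinates `ζ` at `O`, the factor `j` of their form, and the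
adjunction inequality for all `w ≥ - m_0 v(j)`. -/
theorem SmoothOver.adj [Module.Free ℤ M] [Module.Finite ℤ M] [DecidableEq ι] {n e : ℕ}
    (he : Algebra.trdeg ℂ k = e) {f g : ι → M →₀ k} (hsub : ∀ i, (f i).support ⊆ (g i).support)
    (χ : Multiplicative M →* K)
    (hχ : Pt f χ n) {x0 : Fin n → K} (hx0 : W k x0 ≠ 0) {O : ValuationSubring K}
    (hS : SmoothOver n e f g χ O) (V : NVal O) :
    ∃ (a : Fin e → k) (D : Fin e → Derivation ℂ k k) (ζ : Fin (n + e) → K) (j : K),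
      BaseAt a D O ∧ (∀ i, ζ i ∈ O) ∧ j ≠ 0 ∧
      W ℂ ζ = j • W ℂ (Fin.append x0 fun t => algebraMap k K (a t)) ∧
      ∀ (m0 : ℕ) (w : ℤ), 0 ≤ w + m0 * V.v j → ∀ (d : ℕ) (b : Module.Basis (Fin d) ℤ M)
        (e' : Fin n ⊕ ι ≃ Fin d) (l : ⋀[K]^n Ω[K⁄k] →ₗ[K] K), IsEll b χ f e' l →
          Adj f g χ l x0 m0 V w := by
  obtain ⟨a, D, s, ℓ, f', g', ψ, p, d1, b1, σ, hB, hψs, hℓ, hf, hg, hco, hz, hmin, halt, hdet⟩ :=
    hS
  refine adj_core he χ hχ hx0 V hB hψs hℓ hf hg hco hz hdet ?_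
  rcases halt with hp | ⟨i0, x1, x2, hp, hx, hu⟩
  · exact dec_min V hz hp hmin
  · have hψ : Pt f' ψ n := sml_pt hℓ hψs hf hχ
    exact crep_two b1 g ψ p V hz
      (fun i m hm' x hx' => hmin i m hm' x (smAdj_lt V (om_chi_ne ψ _) hx')) i0 x1 x2
      (fun x e1 e2 => (smAdj_eq V (hx x e1 e2)).2) hp (f' i0) (hψ.zero i0)
      (by rw [← (sml_ev (hℓ i0) hψs (hf i0)).1]; exact hsub i0) (fun m => (hco i0 m).1) hu

/-- The relative rows are independent if there is a `SmoothOver` point. -/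
theorem SmoothOver.ind [Module.Free ℤ M] [Module.Finite ℤ M] [DecidableEq ι] {n e : ℕ}
    (he : Algebra.trdeg ℂ k = e) {f g : ι → M →₀ k} (χ : Multiplicative M →* K)
    (hχ : Pt f χ n) {O : ValuationSubring K} (hS : SmoothOver n e f g χ O) :
    LinearIndependent K fun i => dl χ (f i) := by
  obtain ⟨a, D, s, ℓ, f', g', ψ, p, d1, b1, σ, hB, hψs, hℓ, hf, hg, hco, hz, hmin, halt, hdet⟩ :=
    hS
  exact ind_core he χ hχ hB hψs hℓ hf hdet

end T4
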