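import Pool.Agent.Lib.MP_23b606_ag.T4.Main
import Pool.Agent.Lib.MP_23b606_ag.T4.SmA
import Pool.Agent.Lib.MP_23b606_ag.T4.Jc

/-! Main2: Theorem T4. -/

set_option autoImplicit false

open scoped KaehlerDifferential

namespace T4

open T1 T3

section aux

variable {k : Type} [Field k] [CharZero k] {K : Type} [Field K] [Algebra k K]

omit [CharZero k] in
/-- A transcendence basis. -/
theorem exists_ai {n : ℕ} (h : Algebra.trdeg k K = n) :
    ∃ x : Fin n → K, AlgebraicIndependent k x := by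
  obtain ⟨q, y, hy⟩ := exists_isTranscendenceBasis' k K
  have h1 := hy.cardinalMk_eq_trdeg
  rw [h, ← Cardinal.mk_fin n] at h1
  obtain ⟨σ⟩ := Cardinal.eq.1 h1
  exact ⟨fun i => y (σ.symm i), hy.1.comp _ σ.symm.injective⟩

/-- Dual linear forms. -/
theorem exists_dualf {n : ℕ} {x : Fin n → K} (hx : AlgebraicIndependent k x) :
    ∃ φ : Fin n → Ω[K⁄k] →ₗ[K] K, ∀ i j,
      φ i (KaehlerDifferential.D k K (x j)) = if i = j then 1 else 0 := by
  classical
  have hli := linearIndependent_D x hx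
  set v := fun i => KaehlerDifferential.D k K (x i) with hv
  let b := Module.Basis.span hli
  have hφ : ∀ i, ∃ φ : Ω[K⁄k] →ₗ[K] K, ∀ j, φ (v j) = if i = j then 1 else 0 := by
    intro i
    obtain ⟨φ, hφ⟩ := LinearMap.exists_extend (b.coord i)
    refine ⟨φ, fun j => ?_⟩
    have h1 : (b j : Ω[K⁄k]) = v j := congrArg Subtype.val (Module.Basis.span_apply hli j)
    rw [← h1]
    have h2 : φ (b j : Ω[K⁄k]) = (b.coord i) (b j) := by rw [← hφ]; rfl
    rw [h2, Module.Basis.coord_apply, Module.Basis.repr_self, Finsupp.single_apply]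
    simp only [eq_comm]
  choose φ hφ using hφ
  exact ⟨φ, hφ⟩

theorem W_ne_zero {n : ℕ} {x : Fin n → K} (hx : AlgebraicIndependent k x) : W k x ≠ 0 := by
  classical
  obtain ⟨φ, hφ⟩ := exists_dualf hx
  let A : Ω[K⁄k] [⋀^Fin n]→ₗ[K] K :=
    (Matrix.detRowAlternating (R := K) (n := Fin n)).compLinearMap (LinearMap.pi φ)
  intro h
  have h1 : exteriorPower.alternatingMapLinearEquiv A (W k x) = 1 := by
    unfold W
    rw [exteriorPower.alternatingMapLinearEquiv_apply_ιMulti]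
    show Matrix.det (fun i => (LinearMap.pi φ) (KaehlerDifferential.D k K (x i))) = _
    have h2 : (fun i => (LinearMap.pi φ) (KaehlerDifferential.D k K (x i))) =
        (1 : Matrix (Fin n) (Fin n) K) := by
      ext i j
      rw [Matrix.one_apply]
      show φ j (KaehlerDifferential.D k K (x i)) = _
      rw [hφ]
      simp only [eq_comm]
    rw [h2, Matrix.det_one]
  rw [h, map_zero] at h1
  exact zero_ne_one h1

end aux

section tower

variable {k : Type} [Field k] [Algebra ℂ k] {K : Type} [Field K] [Algebra ℂ K]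
  [Algebra k K] [IsScalarTower ℂ k K]

theorem charZero_of_C (k : Type) [Field k] [Algebra ℂ k] : CharZero k :=
  (RingHom.charZero_iff (algebraMap ℂ k).injective).1 inferInstance

/-- The total form `dx_0 ∧ dy` is not zero. -/
theorem exists_jac_append {n e : ℕ} (he : Algebra.trdeg ℂ k = e) {x0 : Fin n → K}
    (hx0 : AlgebraicIndependent k x0) {y : Fin e → k} {E0 : Fin e → Derivation ℂ k k}
    (hE0 : jac E0 y ≠ 0) :
    ∃ E, jac E (Fin.append x0 fun t => algebraMap k K (y t)) ≠ 0 := by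
  obtain ⟨a, ha⟩ := exists_ai he
  obtain ⟨φ, hφ⟩ := exists_dualf ha
  let D : Fin e → Derivation ℂ k k := fun s => (φ s).compDer (KaehlerDifferential.D ℂ k)
  have hD : ∀ s t, D s (a t) = if s = t then 1 else 0 := hφ
  have h1 : AlgebraicIndependent ℂ (Sum.elim x0 (algebraMap k K ∘ a)) := ha.sumElim_comp hx0
  have h2 : AlgebraicIndependent ℂ (Fin.append x0 fun t => algebraMap k K (a t)) := by
    have h3 := h1.comp finSumFinEquiv.symm finSumFinEquiv.symm.injective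
    have h4 : (Sum.elim x0 (algebraMap k K ∘ a)) ∘ finSumFinEquiv.symm =
        Fin.append x0 fun t => algebraMap k K (a t) := by
      funext i
      refine Fin.addCases (fun j => ?_) (fun t => ?_) i
      · rw [Function.comp_apply, finSumFinEquiv_symm_apply_castAdd, Fin.append_left]
        rfl
      · rw [Function.comp_apply, finSumFinEquiv_symm_apply_natAdd, Fin.append_right]
        rfl
    rw [h4] at h3
    exact h3
  obtain ⟨E, hE⟩ := exists_jac_ne_zero _ (W_ne_zero h2)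
  refine ⟨E, ?_⟩
  rw [jac_append he a D hD y x0 E]
  refine mul_ne_zero ?_ hE
  rw [Ne, FaithfulSMul.algebraMap_eq_zero_iff]
  intro h
  have h5 := jac_base he a D hD y E0
  rw [h, zero_mul] at h5
  exact hE0 h5

/-- Uniruled over `k` implies uniruled over `ℂ`. -/
theorem UniruledOver.uniruled (h : UniruledOver k K) : Uniruled K := by
  obtain ⟨L, _, _, φ, x, hx⟩ := h
  let _ : Algebra ℂ L := ((algebraMap k L).comp (algebraMap ℂ k)).toAlgebra
  have hc : ∀ c : ℂ, (φ : K →+* RatFunc L) (algebraMap ℂ K c) = algebraMap ℂ (RatFunc L) c := by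
    intro c
    have h1 : algebraMap ℂ K c = algebraMap k K (algebraMap ℂ k c) :=
      IsScalarTower.algebraMap_apply ℂ k K c
    rw [h1]
    exact φ.commutes (algebraMap ℂ k c)
  exact ⟨L, inferInstance, inferInstance, AlgHom.mk (φ : K →+* RatFunc L) hc, x, hx⟩

end tower

/-- **Theorem T4**: complete intersections in toric bundles over a base with `κ ≥ 0`. -/
theorem main4_smooth {k : Type} [Field k] [Algebra ℂ k] {K : Type} [Field K] [Algebra ℂ K]
    [Algebra k K] [IsScalarTower ℂ k K] {M : Type} [AddCommGroup M] [Module.Free ℤ M]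
    [Module.Finite ℤ M] {ι : Type} [Fintype ι] [DecidableEq ι] {n e : ℕ}
    (he : Algebra.trdeg ℂ k = e) (hk : ¬ KodairaNegInf k e) {f g : ι → M →₀ k}
    (hsub : ∀ i, (f i).support ⊆ (g i).support) (χ : Multiplicative M →* K) (hχ : Pt f χ n)
    {D : Set (ValuationSubring K)}
    (hD : ∀ O ∈ D, IsDiv (n + e) O ∧ SmoothOver n e f g χ O) (hκ : KodairaNegOn D (n + e)) :
    Uniruled K := by
  classical
  have : CharZero k := charZero_of_C k
  unfold KodairaNegInf at hk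
  push Not at hk
  obtain ⟨y, m0, g0, ⟨E0, hE0⟩, hm0, hreg, hg0⟩ := hk
  obtain ⟨x0, hx0a⟩ := exists_ai hχ.trd
  have hx0 : W k x0 ≠ 0 := W_ne_zero hx0a
  obtain ⟨E, hE⟩ := exists_jac_append (K := K) he hx0a hE0
  by_cases hne : D.Nonempty
  · obtain ⟨O1, hO1⟩ := hne
    have hI := (hD O1 hO1).2.ind he χ hχ
    have hV : ∀ δ : D, Nonempty (NVal (δ : ValuationSubring K)) := fun δ =>
      exists_nval _ (hD δ δ.2).1.1
    let V : ∀ δ : D, NVal (δ : ValuationSubring K) := fun δ => (hV δ).some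
    have hadj := fun δ : D => (hD δ δ.2).2.adj he hsub χ hχ hx0 (V δ)
    choose a Dr ζ j hB hζ hj hW hA using hadj
    have hκ0 : ∀ δ, jac (Dr δ) y ≠ 0 := by
      intro δ h
      have h1 := jac_base he (a δ) (Dr δ) (hB δ).dual y E0
      rw [h, zero_mul] at h1
      exact hE0 h1
    let c : D → K := fun δ => algebraMap k K (g0 * jac (Dr δ) y ^ m0)
    have hc0 : ∀ δ, c δ ≠ 0 := by
      intro δ
      show algebraMap k K _ ≠ 0
      rw [Ne, FaithfulSMul.algebraMap_eq_zero_iff]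
      exact mul_ne_zero hg0 (pow_ne_zero _ (hκ0 δ))
    let w : D → ℤ := fun δ => (V δ).v (c δ) - m0 * (V δ).v (j δ)
    have hcv : ∀ δ, 0 ≤ (V δ).v (c δ) := fun δ =>
      ((V δ).mem _ (hc0 δ)).1 (coef_mem (hB δ) y m0 g0 hreg)
    have hG : GoodK V w x0 m0 f g χ := by
      refine ⟨hI, hsub, fun d b e' l hl δ => hA δ m0 (w δ) ?_ d b e' l hl⟩
      show 0 ≤ (V δ).v (c δ) - m0 * (V δ).v (j δ) + m0 * (V δ).v (j δ)
      rw [sub_add_cancel]
      exact hcv δ
    rcases main4 hx0 χ hG hχ with ⟨γ, m1, hγ, hm1, hv⟩ | hU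
    · exfalso
      have hg1 : algebraMap k K g0 ≠ 0 := by
        rw [Ne, FaithfulSMul.algebraMap_eq_zero_iff]
        exact hg0
      refine mul_ne_zero hγ (pow_ne_zero m1 hg1)
        (hκ _ (m0 * m1) (γ * algebraMap k K g0 ^ m1) ⟨E, hE⟩ (Nat.mul_pos hm0 hm1) ?_)
      intro O hO
      have hκ1 : algebraMap k K (jac (Dr ⟨O, hO⟩) y) ≠ 0 := by
        rw [Ne, FaithfulSMul.algebraMap_eq_zero_iff]
        exact hκ0 _
      have hjm : j ⟨O, hO⟩ ^ (m0 * m1) ≠ 0 := pow_ne_zero _ (hj _)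
      refine ⟨ζ ⟨O, hO⟩, γ * c ⟨O, hO⟩ ^ m1 * (j ⟨O, hO⟩ ^ (m0 * m1))⁻¹,
        j ⟨O, hO⟩ / algebraMap k K (jac (Dr ⟨O, hO⟩) y), hζ ⟨O, hO⟩, ?_, ?_, ?_⟩
      · have hcm : c ⟨O, hO⟩ ^ m1 ≠ 0 := pow_ne_zero _ (hc0 _)
        rw [(V ⟨O, hO⟩).mem _ (mul_ne_zero (mul_ne_zero hγ hcm) (inv_ne_zero hjm)),
          (V ⟨O, hO⟩).mul _ _ (mul_ne_zero hγ hcm) (inv_ne_zero hjm),
          (V ⟨O, hO⟩).mul _ _ hγ hcm, (V ⟨O, hO⟩).inv hjm]
        have h1 : (V ⟨O, hO⟩).v (c ⟨O, hO⟩ ^ m1) = m1 * (V ⟨O, hO⟩).v (c ⟨O, hO⟩) := by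
          rw [← zpow_natCast, (V ⟨O, hO⟩).zpow (hc0 _)]
        have h2 : (V ⟨O, hO⟩).v (j ⟨O, hO⟩ ^ (m0 * m1)) =
            (m0 * m1 : ℕ) * (V ⟨O, hO⟩).v (j ⟨O, hO⟩) := by
          rw [← zpow_natCast, (V ⟨O, hO⟩).zpow (hj _)]
        have h3 := hv ⟨O, hO⟩
        have h4 : (m1 : ℤ) * w ⟨O, hO⟩ = m1 * (V ⟨O, hO⟩).v (c ⟨O, hO⟩) -
            (m0 * m1 : ℕ) * (V ⟨O, hO⟩).v (j ⟨O, hO⟩) := by
          show (m1 : ℤ) * ((V ⟨O, hO⟩).v (c ⟨O, hO⟩) - m0 * (V ⟨O, hO⟩).v (j ⟨O, hO⟩)) = _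
          push_cast
          ring
        rw [h1, h2]
        rw [h4] at h3
        linarith
      · intro E'
        have h1 := jac_eq_of_W _ _ _ (hW ⟨O, hO⟩) E'
        have h2 := jac_append he (a ⟨O, hO⟩) (Dr ⟨O, hO⟩) (hB ⟨O, hO⟩).dual y x0 E'
        rw [h1, h2]
        field_simp
      · show _ = γ * (algebraMap k K (g0 * jac (Dr ⟨O, hO⟩) y ^ m0)) ^ m1 *
          (j ⟨O, hO⟩ ^ (m0 * m1))⁻¹ * _
        rw [div_pow, map_mul, map_pow, mul_pow, ← pow_mul]
        field_simp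
    · exact hU.uniruled
  · exfalso
    rw [Set.not_nonempty_iff_eq_empty] at hne
    have h1 := hκ _ 1 1 ⟨E, hE⟩ le_rfl (fun O hO => by
      rw [hne] at hO
      exact absurd hO (Set.notMem_empty O))
    exact one_ne_zero h1

end T4
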