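import Pool.Agent.Lib.MP_23b606_ag.T4.Sys

/-! U/Psi: the point over `L(v)` defined by a solution; specialisation at infinity. -/

set_option autoImplicit false

open Polynomial

namespace T4

open T1 T3

variable {k : Type} [Field k] [CharZero k]

variable {M : Type} [AddCommGroup M] {L : Type} [Field L] [Algebra k L] {J : Type} [Fintype J]

omit [Algebra k L] [Fintype J] in
private theorem Psi_ne {P : J → L[X]} (hP : ∀ j, P j ≠ 0) (j : J) :
    algebraMap L[X] (RatFunc L) (P j) ≠ 0 := RatFunc.algebraMap_ne_zero (hP j)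

/-- The point `ψ(m) = χ(m) ∏ P_j ^ n_j(m)` over `L(v)`. -/
theorem exists_psi (χ : Multiplicative M →* L) (nn : J → M →+ ℤ) (P : J → L[X])
    (hP : ∀ j, P j ≠ 0) :
    ∃ ψ : Multiplicative M →* RatFunc L, ∀ m : M, ψ (Multiplicative.ofAdd m)
      = algebraMap L (RatFunc L) (χ (Multiplicative.ofAdd m))
        * ∏ j, (algebraMap L[X] (RatFunc L) (P j)) ^ (nn j m) := by
  refine ⟨{ toFun := fun m => algebraMap L (RatFunc L) (χ m)
        * ∏ j, (algebraMap L[X] (RatFunc L) (P j)) ^ (nn j (Multiplicative.toAdd m))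
            map_one' := ?_
            map_mul' := ?_ }, fun m => rfl⟩
  · simp
  · intro m m'
    rw [map_mul, map_mul, toAdd_mul]
    simp only [map_add, zpow_add₀ (Psi_ne hP _), Finset.prod_mul_distrib]
    ring

theorem ev_psi (χ : Multiplicative M →* L) (nn : J → M →+ ℤ) (P : J → L[X])
    (hP : ∀ j, P j ≠ 0) (ψ : Multiplicative M →* RatFunc L)
    (hψ : ∀ m : M, ψ (Multiplicative.ofAdd m)
      = algebraMap L (RatFunc L) (χ (Multiplicative.ofAdd m))
        * ∏ j, (algebraMap L[X] (RatFunc L) (P j)) ^ (nn j m))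
    (f : M →₀ k) (hF : MvPolynomial.aeval P (Fp χ nn f) = 0) : ev ψ f = 0 := by
  rw [ev_twist χ f nn (fun j => algebraMap L[X] (RatFunc L) (P j)) (Psi_ne hP) ψ hψ]
  have h := MvPolynomial.aeval_algebraMap_apply (RatFunc L) P (Fp χ nn f)
  rw [hF, map_zero] at h
  have h2 : (algebraMap L[X] (RatFunc L) ∘ P) = fun j => algebraMap L[X] (RatFunc L) (P j) := rfl
  rw [h2] at h
  rw [h, mul_zero]

omit [Algebra k L] in
/-- A common denominator. -/
private theorem Psi_den (nn : J → M →+ ℤ) (lam : J → ℕ)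
    (hrel : ∑ j, lam j • nn j = 0) (e : ℕ) (P : J → L[X])
    (hP : ∀ j, (P j).Monic) (hd : ∀ j, (P j).natDegree = e * lam j) (B : ℕ) (m : M)
    (hB : ∀ j, |nn j m| ≤ B) :
    ∃ D : L[X], D.Monic ∧ D.natDegree = e * B * ∑ j, lam j ∧
      algebraMap L[X] (RatFunc L) D = algebraMap L[X] (RatFunc L) (∏ j, P j ^ B)
        * ∏ j, (algebraMap L[X] (RatFunc L) (P j)) ^ (nn j m) := by
  have hm : ∀ j ∈ Finset.univ, (P j ^ ((B : ℤ) + nn j m).toNat).Monic := fun j _ => (hP j).pow _
  have hnn : ∀ j, (((B : ℤ) + nn j m).toNat : ℤ) = B + nn j m := fun j =>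
    Int.toNat_of_nonneg (by have := (abs_le.1 (hB j)).1; omega)
  refine ⟨∏ j, P j ^ ((B : ℤ) + nn j m).toNat, monic_prod_of_monic _ _ hm, ?_, ?_⟩
  · rw [natDegree_prod_of_monic _ _ hm]
    have h1 : ∀ j, (P j ^ ((B : ℤ) + nn j m).toNat).natDegree
        = ((B : ℤ) + nn j m).toNat * (e * lam j) := by
      intro j
      rw [(hP j).natDegree_pow, hd j]
    simp only [h1]
    have h2 : ((∑ j, ((B : ℤ) + nn j m).toNat * (e * lam j) : ℕ) : ℤ)
        = ((e * B * ∑ j, lam j : ℕ) : ℤ) := by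
      push_cast
      simp only [hnn]
      have h3 : ∑ j, (lam j : ℤ) * nn j m = 0 := by
        have h4 := DFunLike.congr_fun hrel m
        rw [AddMonoidHom.finsetSum_apply] at h4
        simpa using h4
      have h5 : ∀ j, ((B : ℤ) + nn j m) * (e * lam j)
          = (e * B) * lam j + e * ((lam j : ℤ) * nn j m) := fun j => by ring
      simp only [h5]
      rw [Finset.sum_add_distrib, ← Finset.mul_sum, ← Finset.mul_sum, h3, mul_zero, add_zero]
    exact_mod_cast h2
  · rw [map_prod, map_prod, ← Finset.prod_mul_distrib]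
    refine Finset.prod_congr rfl fun j _ => ?_
    have h0 := RatFunc.algebraMap_ne_zero (hP j).ne_zero
    rw [map_pow, map_pow, ← zpow_natCast, hnn j, zpow_add₀ h0, zpow_natCast]

/-- Specialisation at infinity. -/
theorem ev_inf (χ : Multiplicative M →* L) (nn : J → M →+ ℤ) (lam : J → ℕ)
    (hrel : ∑ j, lam j • nn j = 0) (e : ℕ) (P : J → L[X])
    (hP : ∀ j, (P j).Monic) (hd : ∀ j, (P j).natDegree = e * lam j)
    (ψ : Multiplicative M →* RatFunc L)
    (hψ : ∀ m : M, ψ (Multiplicative.ofAdd m)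
      = algebraMap L (RatFunc L) (χ (Multiplicative.ofAdd m))
        * ∏ j, (algebraMap L[X] (RatFunc L) (P j)) ^ (nn j m))
    (g : M →₀ k) (hg : ev ψ g = 0) : ev χ g = 0 := by
  classical
  obtain ⟨B, hB⟩ : ∃ B : ℕ, ∀ m ∈ g.support, ∀ j, |nn j m| ≤ B := by
    refine ⟨∑ m ∈ g.support, ∑ j, (nn j m).natAbs, fun m hm j => ?_⟩
    rw [Int.abs_eq_natAbs]
    have h1 : (nn j m).natAbs ≤ ∑ j, (nn j m).natAbs :=
      Finset.single_le_sum (f := fun j => (nn j m).natAbs) (fun _ _ => Nat.zero_le _)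
        (Finset.mem_univ j)
    have h2 : ∑ j, (nn j m).natAbs ≤ ∑ m ∈ g.support, ∑ j, (nn j m).natAbs :=
      Finset.single_le_sum (f := fun m => ∑ j, (nn j m).natAbs) (fun _ _ => Nat.zero_le _) hm
    exact_mod_cast h1.trans h2
  have hD : ∀ m : g.support, ∃ D : L[X], D.Monic ∧ D.natDegree = e * B * ∑ j, lam j ∧
      algebraMap L[X] (RatFunc L) D = algebraMap L[X] (RatFunc L) (∏ j, P j ^ B)
        * ∏ j, (algebraMap L[X] (RatFunc L) (P j)) ^ (nn j (m : M)) := fun m =>
    Psi_den nn lam hrel e P hP hd B m (hB m m.2)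
  choose D hD1 hD2 hD3 using hD
  have h1 : ∑ m : g.support, C (algebraMap k L (g m) * χ (Multiplicative.ofAdd (m : M))) * D m
      = 0 := by
    apply RatFunc.algebraMap_injective L
    rw [map_zero, map_sum]
    have h2 : ∀ m : g.support, algebraMap L[X] (RatFunc L)
        (C (algebraMap k L (g m) * χ (Multiplicative.ofAdd (m : M))) * D m)
        = algebraMap L[X] (RatFunc L) (∏ j, P j ^ B)
          * (algebraMap k (RatFunc L) (g m) * ψ (Multiplicative.ofAdd (m : M))) := by
      intro m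
      rw [map_mul, hD3, hψ, RatFunc.algebraMap_C, map_mul, RatFunc.algebraMap_eq_C,
        IsScalarTower.algebraMap_apply k L (RatFunc L), RatFunc.algebraMap_eq_C]
      ring
    simp only [h2]
    rw [← Finset.mul_sum]
    have h3 : ∑ m : g.support, algebraMap k (RatFunc L) (g m) * ψ (Multiplicative.ofAdd (m : M))
        = ev ψ g := by
      rw [ev, Finsupp.sum]
      exact Finset.sum_coe_sort g.support (fun m => algebraMap k (RatFunc L) (g m)
        * ψ (Multiplicative.ofAdd m))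
    rw [h3, hg, mul_zero]
  have h4 := congrArg (fun p => coeff p (e * B * ∑ j, lam j)) h1
  simp only [finsetSum_coeff, coeff_C_mul, coeff_zero] at h4
  have h5 : ∀ m : g.support, (D m).coeff (e * B * ∑ j, lam j) = 1 := by
    intro m
    rw [← hD2 m]
    exact (hD1 m).coeff_natDegree
  simp only [h5, mul_one] at h4
  rw [ev, Finsupp.sum, ← Finset.sum_coe_sort g.support (fun m => algebraMap k L (g m)
        * χ (Multiplicative.ofAdd m))]
  exact h4

/-- If `ψ(m)` is a constant then the constant is `χ(m)`. -/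
theorem const_inf (χ : Multiplicative M →* L) (nn : J → M →+ ℤ) (lam : J → ℕ)
    (hrel : ∑ j, lam j • nn j = 0) (e : ℕ) (P : J → L[X])
    (hP : ∀ j, (P j).Monic) (hd : ∀ j, (P j).natDegree = e * lam j)
    (ψ : Multiplicative M →* RatFunc L)
    (hψ : ∀ m : M, ψ (Multiplicative.ofAdd m)
      = algebraMap L (RatFunc L) (χ (Multiplicative.ofAdd m))
        * ∏ j, (algebraMap L[X] (RatFunc L) (P j)) ^ (nn j m))
    (m : M) (c : L) (hc : ψ (Multiplicative.ofAdd m) = algebraMap L (RatFunc L) c) :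
    c = χ (Multiplicative.ofAdd m) ∧
      ∏ j, (algebraMap L[X] (RatFunc L) (P j)) ^ (nn j m) = 1 := by
  obtain ⟨B, hB⟩ : ∃ B : ℕ, ∀ j, |nn j m| ≤ B := by
    refine ⟨∑ j, (nn j m).natAbs, fun j => ?_⟩
    rw [Int.abs_eq_natAbs]
    have h1 : (nn j m).natAbs ≤ ∑ j, (nn j m).natAbs :=
      Finset.single_le_sum (f := fun j => (nn j m).natAbs) (fun _ _ => Nat.zero_le _)
        (Finset.mem_univ j)
    exact_mod_cast h1
  obtain ⟨D, hD1, hD2, hD3⟩ := Psi_den nn lam hrel e P hP hd B m hB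
  obtain ⟨E, hE1, hE2, hE3⟩ := Psi_den nn lam hrel e P hP hd B (0 : M) (fun j => by simp)
  have h1 : C (χ (Multiplicative.ofAdd m)) * D = C c * E := by
    apply RatFunc.algebraMap_injective L
    rw [map_mul, map_mul, hD3, hE3, RatFunc.algebraMap_C, RatFunc.algebraMap_C]
    rw [hψ, RatFunc.algebraMap_eq_C] at hc
    simp only [map_zero, zpow_zero, Finset.prod_const_one, mul_one]
    rw [← hc]
    ring
  have h2 := congrArg (fun p => coeff p (e * B * ∑ j, lam j)) h1
  simp only [coeff_C_mul] at h2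
  have h3 : D.coeff (e * B * ∑ j, lam j) = 1 := by
    rw [← hD2]
    exact hD1.coeff_natDegree
  have h4 : E.coeff (e * B * ∑ j, lam j) = 1 := by
    rw [← hE2]
    exact hE1.coeff_natDegree
  rw [h3, h4, mul_one, mul_one] at h2
  refine ⟨h2.symm, ?_⟩
  rw [hψ, h2] at hc
  have hc0 : algebraMap L (RatFunc L) c ≠ 0 := by
    rw [← h2]
    have h5 : χ (Multiplicative.ofAdd m) ≠ 0 := by
      have h6 : IsUnit (χ (Multiplicative.ofAdd m)) := (Group.isUnit _).map χ
      exact h6.ne_zero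
    exact (_root_.map_ne_zero _).2 h5
  exact mul_left_cancel₀ hc0 (by rw [hc, mul_one])

end T4
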