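import Pool.Agent.Lib.MP_23b606_ag.T4.Elim1

/-! Rk: the rank of `M_0`. -/

set_option autoImplicit false

namespace T4

open T1 T3

variable {k : Type} [Field k] [CharZero k]

/-- The rank of `M_0 = {m : n_j(m) = 0}` is `rank M - (|J| - 1)` for a circuit. -/
theorem finrank_M0 {M : Type} [AddCommGroup M] [Module.Free ℤ M] [Module.Finite ℤ M]
    {ι : Type} [Fintype ι] {f : ι → M →₀ k}
    {J : Type} [Fintype J] {nn : J → M →+ ℤ} {lam : J → ℕ} (hC : Circ f nn lam) :
    Module.finrank ℤ ↥(⨅ j, LinearMap.ker (nn j).toIntLinearMap) + Fintype.card J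
      = Module.finrank ℤ M + 1 ∧ 2 ≤ Fintype.card J := by
  classical
  have hJ : Nonempty J := by
    by_contra hJ
    rw [not_nonempty_iff] at hJ
    have := hC.idx
    simp at this
  obtain ⟨j0⟩ := hJ
  have hcard : 2 ≤ Fintype.card J := by
    by_contra hlt
    have h1 : Fintype.card J ≤ 1 := by omega
    have h2 : Subsingleton J := Fintype.card_le_one_iff_subsingleton.mp h1
    have h3 : ∑ j, lam j • nn j = lam j0 • nn j0 := by
      rw [Fintype.sum_eq_single j0]
      intro j hj
      exact absurd (Subsingleton.elim j j0) hj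
    rw [hC.rel] at h3
    apply hC.ne j0
    ext m
    have h4 := DFunLike.congr_fun h3 m
    rw [AddMonoidHom.zero_apply, AddMonoidHom.smul_apply, nsmul_eq_mul] at h4
    have h5 := hC.pos j0
    rcases mul_eq_zero.mp h4.symm with h6 | h6
    · exfalso
      have : lam j0 = 0 := by exact_mod_cast h6
      omega
    · exact h6
  refine ⟨?_, hcard⟩
  set T : M →ₗ[ℤ] (J → ℤ) := LinearMap.pi fun j => (nn j).toIntLinearMap with hT
  have hker : LinearMap.ker T = ⨅ j, LinearMap.ker (nn j).toIntLinearMap := by
    rw [hT, LinearMap.ker_pi]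
  have hrn := el_rank_nullity T
  rw [hker] at hrn
  -- upper bound
  have hup : Module.finrank ℤ (LinearMap.range T) + 1 ≤ Fintype.card J := by
    set ψ : (J → ℤ) →ₗ[ℤ] ℤ := ∑ j, (lam j : ℤ) • LinearMap.proj j with hψ
    have h1 := el_rank_nullity ψ
    rw [Module.finrank_fintype_fun_eq_card] at h1
    have h2 : LinearMap.range T ≤ LinearMap.ker ψ := by
      rintro _ ⟨m, rfl⟩
      rw [LinearMap.mem_ker, hψ]
      have h3 := DFunLike.congr_fun hC.rel m
      simp only [AddMonoidHom.finsetSum_apply, AddMonoidHom.smul_apply, nsmul_eq_mul,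
        AddMonoidHom.zero_apply] at h3
      simp only [LinearMap.sum_apply, LinearMap.smul_apply, LinearMap.proj_apply, hT,
        LinearMap.pi_apply, smul_eq_mul]
      exact h3
    have h4 := Submodule.finrank_mono h2
    have h5 : Module.finrank ℤ (LinearMap.range ψ) ≠ 0 := by
      intro h6
      rw [Submodule.finrank_eq_zero, LinearMap.range_eq_bot] at h6
      have h7 := LinearMap.congr_fun h6 (Pi.single j0 1)
      rw [hψ] at h7
      simp only [LinearMap.sum_apply, LinearMap.smul_apply, LinearMap.proj_apply, smul_eq_mul,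
        LinearMap.zero_apply] at h7
      rw [Fintype.sum_eq_single j0 (by
        intro j hj
        rw [Pi.single_eq_of_ne hj, mul_zero])] at h7
      rw [Pi.single_eq_same, mul_one] at h7
      have h8 := hC.pos j0
      have : lam j0 = 0 := by exact_mod_cast h7
      omega
    omega
  -- lower bound
  have hlow : Fintype.card J ≤ Module.finrank ℤ (LinearMap.range T) + 1 := by
    set φ : (J → ℤ) →ₗ[ℤ] (↥(LinearMap.range T) →ₗ[ℤ] ℤ) :=
      Fintype.linearCombination ℤ
        (fun j => (LinearMap.proj j : (J → ℤ) →ₗ[ℤ] ℤ).comp (LinearMap.range T).subtype) with hφ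
    have h1 := el_rank_nullity φ
    rw [Module.finrank_fintype_fun_eq_card] at h1
    have h2 : Module.finrank ℤ (LinearMap.range φ) ≤ Module.finrank ℤ (LinearMap.range T) := by
      have h3 := Submodule.finrank_le (LinearMap.range φ)
      rw [Module.finrank_linearMap, Module.finrank_self, mul_one] at h3
      exact h3
    have h4 : Module.finrank ℤ (LinearMap.ker φ) ≤ 1 := by
      have h5 : LinearMap.ker φ ≤ Submodule.span ℤ {fun j => (lam j : ℤ)} := by
        intro μ hμ
        rw [LinearMap.mem_ker] at hμ
        have h6 : ∑ j, μ j • nn j = 0 := by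
          ext m
          have h7 := LinearMap.congr_fun hμ ⟨T m, ⟨m, rfl⟩⟩
          rw [hφ, Fintype.linearCombination_apply] at h7
          simp only [LinearMap.sum_apply, LinearMap.smul_apply, LinearMap.comp_apply,
            Submodule.subtype_apply, LinearMap.proj_apply, LinearMap.zero_apply, hT,
            LinearMap.pi_apply] at h7
          simp only [AddMonoidHom.finsetSum_apply, AddMonoidHom.smul_apply,
            AddMonoidHom.zero_apply]
          exact h7
        obtain ⟨c, hc⟩ := hC.prim μ h6
        rw [Submodule.mem_span_singleton]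
        refine ⟨c, ?_⟩
        ext j
        rw [hc j]
        rfl
      have h6 := Submodule.finrank_mono h5
      have h7 := finrank_span_le_card (R := ℤ) ({fun j => (lam j : ℤ)} : Set (J → ℤ))
      simp only [Set.toFinset_singleton, Finset.card_singleton] at h7
      omega
    omega
  omega

end T4
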