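import Pool.Agent.Lib.MP_23b606_ag.T4.SmL
import Pool.Agent.Lib.MP_23b606_ag.T3.SmAdj

/-! SmC: smoothness over a base implies the adjunction inequality (section 6), core lemmas. -/

set_option autoImplicit false

open scoped BigOperators KaehlerDifferential

namespace T4

open T1 T3

theorem smA_hm {k : Type} [Field k] {M : Type} [AddCommGroup M] (g : M →₀ k) (θ : M →+ ℤ) (p : M)
    (hp : p ∈ g.support) (h : ∀ m ∈ g.support, θ p ≤ θ m) : hm g θ = θ p := by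
  have hne : g.support.Nonempty := ⟨p, hp⟩
  rw [hm, dif_pos hne]
  apply le_antisymm
  · exact Finset.inf'_le _ hp
  · rw [Finset.le_inf'_iff]
    exact h

variable {k : Type} [Field k] [Algebra ℂ k] [CharZero k] {K : Type} [Field K] [Algebra ℂ K]
  [Algebra k K] [IsScalarTower ℂ k K] {M : Type} [AddCommGroup M] {ι : Type} [Fintype ι]

/-- The Jacobian determinant of `SmoothOver`. -/
theorem smA_det [DecidableEq ι] {e d : ℕ} (D : Fin e → Derivation ℂ k k)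
    (b : Module.Basis (Fin d) ℤ M) (ψ : Multiplicative M →* K) (f : ι → M →₀ k) (p : ι → M)
    (c : ι → Fin d ⊕ Fin e) :
    Matrix.det (Matrix.of fun i i' : ι => Sum.elim
      (fun x => dl ψ (f i) (b.coord x).toAddMonoidHom / ψ (Multiplicative.ofAdd (b x)))
      (fun t => dc (D t) ψ (f i)) (c i') / ψ (Multiplicative.ofAdd (p i))) =
    (∏ i, (ψ (Multiplicative.ofAdd (p i)))⁻¹) * ((∏ i', (zf e b ψ (c i'))⁻¹) *
      Matrix.det (Matrix.of fun i i' : ι => rowt b D ψ (f i) (c i'))) := by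
  rw [← Matrix.det_mul_row, ← Matrix.det_mul_column]
  congr 1
  ext i i'
  rw [Matrix.of_apply, Matrix.of_apply, Matrix.of_apply, Matrix.of_apply]
  rcases c i' with x | t
  · simp only [Sum.elim_inl, zf, rowt]
    rw [div_eq_mul_inv, div_eq_mul_inv]
    ring
  · simp only [Sum.elim_inr, zf, rowt]
    rw [div_eq_mul_inv]
    ring

omit [Algebra ℂ k] [CharZero k] [Algebra ℂ K] [IsScalarTower ℂ k K] in
/-- The decomposition of `V.nu ψ` into coordinate functions of the chart, if the generators `p i`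
are in the supports. -/
theorem dec_min {g : ι → M →₀ k} {O : ValuationSubring K} (V : NVal O)
    {ψ : Multiplicative M →* K} {p : ι → M} {d1 : ℕ} {b1 : Module.Basis (Fin d1) ℤ M}
    (hz : ∀ x, ψ (Multiplicative.ofAdd (b1 x)) ∈ O) (hp : ∀ i, p i ∈ (g i).support)
    (hmin : ∀ i, ∀ m ∈ (g i).support, ∀ x, O.valuation (ψ (Multiplicative.ofAdd (b1 x))) < 1 →
      0 ≤ b1.coord x (m - p i)) :
    ∃ (α : Type) (_ : Fintype α) (nn : α → M →+ ℤ), (∀ q, nn q ≠ 0) ∧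
      V.nu ψ = ∑ q, nn q ∧ (∀ i, hm (g i) (V.nu ψ) = ∑ q, hm (g i) (nn q)) ∧
      ∑ i, V.nu ψ (p i) + ∑ x, V.v (ψ (Multiplicative.ofAdd (b1 x))) ≤
        ∑ i, hm (g i) (V.nu ψ) + Fintype.card α := by
  have hψ0 : ∀ m : M, ψ (Multiplicative.ofAdd m) ≠ 0 := om_chi_ne ψ
  have hk0 : ∀ x, 0 ≤ V.v (ψ (Multiplicative.ofAdd (b1 x))) := fun x =>
    (V.mem _ (hψ0 _)).1 (hz x)
  have hnu : ∀ m : M, V.nu ψ m =
      ∑ x, V.v (ψ (Multiplicative.ofAdd (b1 x))) * b1.coord x m := by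
    intro m
    conv_lhs => rw [← b1.sum_repr m]
    rw [map_sum]
    refine Finset.sum_congr rfl fun x _ => ?_
    rw [map_zsmul, smul_eq_mul, mul_comm]
    rfl
  have hsum : ∀ F : Fin d1 → ℤ,
      ∑ q : (Σ x : Fin d1, Fin (V.v (ψ (Multiplicative.ofAdd (b1 x)))).toNat), F q.1 =
        ∑ x, V.v (ψ (Multiplicative.ofAdd (b1 x))) * F x := by
    intro F
    rw [Fintype.sum_sigma]
    refine Finset.sum_congr rfl fun x _ => ?_
    dsimp only
    rw [Finset.sum_const, Finset.card_univ, Fintype.card_fin, nsmul_eq_mul,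
      Int.toNat_of_nonneg (hk0 x)]
  have hnn : ∑ q : (Σ x : Fin d1, Fin (V.v (ψ (Multiplicative.ofAdd (b1 x)))).toNat),
      (b1.coord q.1).toAddMonoidHom = V.nu ψ := by
    ext m
    rw [AddMonoidHom.finsetSum_apply, hnu]
    exact hsum fun x => b1.coord x m
  have hle : ∀ i, ∀ m ∈ (g i).support, V.nu ψ (p i) ≤ V.nu ψ m := by
    intro i m hm'
    have h1 : V.nu ψ m - V.nu ψ (p i) = V.nu ψ (m - p i) := (map_sub _ _ _).symm
    have h2 : 0 ≤ V.nu ψ (m - p i) := by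
      rw [hnu]
      refine Finset.sum_nonneg fun x _ => ?_
      rcases (hk0 x).eq_or_lt with h3 | h3
      · rw [← h3, zero_mul]
      · exact mul_nonneg (hk0 x) (hmin i m hm' x (smAdj_lt V (hψ0 _) h3))
    omega
  have hhm : ∀ i, hm (g i) (V.nu ψ) = V.nu ψ (p i) := fun i =>
    smA_hm (g i) _ (p i) (hp i) (hle i)
  have hcardα : ((Fintype.card (Σ x : Fin d1,
      Fin (V.v (ψ (Multiplicative.ofAdd (b1 x)))).toNat) : ℕ) : ℤ) =
      ∑ x, V.v (ψ (Multiplicative.ofAdd (b1 x))) := by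
    have h1 := hsum fun _ => 1
    simp only [mul_one] at h1
    rw [← h1, Finset.sum_const, Finset.card_univ, nsmul_eq_mul, mul_one]
  refine ⟨(Σ x : Fin d1, Fin (V.v (ψ (Multiplicative.ofAdd (b1 x)))).toNat), inferInstance,
    fun q => (b1.coord q.1).toAddMonoidHom, ?_, hnn.symm, ?_, ?_⟩
  · intro q h
    have h1 := DFunLike.congr_fun h (b1 q.1)
    change b1.coord q.1 (b1 q.1) = 0 at h1
    rw [Module.Basis.coord_apply, Module.Basis.repr_self, Finsupp.single_eq_same] at h1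
    exact one_ne_zero h1
  · intro i
    rw [hhm i, hnu]
    have h1 : ∀ q : (Σ x : Fin d1, Fin (V.v (ψ (Multiplicative.ofAdd (b1 x)))).toNat),
        hm (g i) (b1.coord q.1).toAddMonoidHom = b1.coord q.1 (p i) := by
      intro q
      refine smA_hm (g i) _ (p i) (hp i) fun m hm' => ?_
      have hq : 0 < V.v (ψ (Multiplicative.ofAdd (b1 q.1))) := by
        have := q.2.2
        omega
      have h2 := hmin i m hm' q.1 (smAdj_lt V (hψ0 _) hq)
      rw [map_sub] at h2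
      change b1.coord q.1 (p i) ≤ b1.coord q.1 m
      omega
    rw [Finset.sum_congr rfl fun q _ => h1 q]
    exact (hsum fun x => b1.coord x (p i)).symm
  · rw [hcardα, Finset.sum_congr rfl fun i _ => hhm i]

/-- Section 6 (i) - (iii) for a given decomposition of the functional `V.nu ψ`. -/
theorem adj_core [Module.Free ℤ M] [Module.Finite ℤ M] [DecidableEq ι] {n e : ℕ}
    (he : Algebra.trdeg ℂ k = e) {f g : ι → M →₀ k} (χ : Multiplicative M →* K)
    (hχ : Pt f χ n) {x0 : Fin n → K} (hx0 : W k x0 ≠ 0) {O : ValuationSubring K} (V : NVal O)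
    {a : Fin e → k} {D : Fin e → Derivation ℂ k k} {s : Multiplicative M →* k} {ℓ : ι → k}
    {f' g' : ι → M →₀ k} {ψ : Multiplicative M →* K} {p : ι → M} {d1 : ℕ}
    {b1 : Module.Basis (Fin d1) ℤ M} {σ : Fin (n + e) ⊕ ι ≃ Fin d1 ⊕ Fin e}
    (hB : BaseAt a D O) (hψs : ∀ m, ψ m = algebraMap k K (s m) * χ m) (hℓ : ∀ i, ℓ i ≠ 0)
    (hf : ∀ i m, f i m = ℓ i * s (Multiplicative.ofAdd m) * f' i m)
    (hg : ∀ i m, g i m = ℓ i * s (Multiplicative.ofAdd m) * g' i m)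
    (hco : ∀ i m, algebraMap k K (f' i m) ∈ O ∧ algebraMap k K (g' i m) ∈ O)
    (hz : ∀ x, ψ (Multiplicative.ofAdd (b1 x)) ∈ O)
    (hdet : O.valuation (Matrix.det (Matrix.of fun i i' : ι => Sum.elim
      (fun x => dl ψ (f' i) (b1.coord x).toAddMonoidHom / ψ (Multiplicative.ofAdd (b1 x)))
      (fun t => dc (D t) ψ (f' i)) (σ (Sum.inr i')) / ψ (Multiplicative.ofAdd (p i)))) = 1)
    (hdec : ∃ (α : Type) (_ : Fintype α) (nn : α → M →+ ℤ), (∀ q, nn q ≠ 0) ∧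
      V.nu ψ = ∑ q, nn q ∧ (∀ i, hm (g i) (V.nu ψ) = ∑ q, hm (g i) (nn q)) ∧
      ∑ i, V.nu ψ (p i) + ∑ x, V.v (ψ (Multiplicative.ofAdd (b1 x))) ≤
        ∑ i, hm (g i) (V.nu ψ) + Fintype.card α) :
    ∃ (a : Fin e → k) (D : Fin e → Derivation ℂ k k) (ζ : Fin (n + e) → K) (j : K),
      BaseAt a D O ∧ (∀ i, ζ i ∈ O) ∧ j ≠ 0 ∧
      W ℂ ζ = j • W ℂ (Fin.append x0 fun t => algebraMap k K (a t)) ∧
      ∀ (m0 : ℕ) (w : ℤ), 0 ≤ w + m0 * V.v j → ∀ (d : ℕ) (b : Module.Basis (Fin d) ℤ M)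
        (e' : Fin n ⊕ ι ≃ Fin d) (l : ⋀[K]^n Ω[K⁄k] →ₗ[K] K), IsEll b χ f e' l →
          Adj f g χ l x0 m0 V w := by
  obtain ⟨α, _, nn, hnn0, hnn, hhm, hle⟩ := hdec
  have hψ : Pt f' ψ n := sml_pt hℓ hψs hf hχ
  obtain ⟨hq0, hqv⟩ := smAdj_eq V hdet
  rw [smA_det] at hq0 hqv
  set A0 : K := Matrix.det (Matrix.of fun i i' : ι => rowt b1 D ψ (f' i) (σ (Sum.inr i')))
    with hA0
  have hA0n : A0 ≠ 0 := right_ne_zero_of_mul (right_ne_zero_of_mul hq0)
  have hψ0 : ∀ m : M, ψ (Multiplicative.ofAdd m) ≠ 0 := om_chi_ne ψ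
  have hzf0 : ∀ c, zf e b1 ψ c ≠ 0 := by
    rintro (x | t)
    · exact hψ0 _
    · exact one_ne_zero
  have hk0 : ∀ x, 0 ≤ V.v (ψ (Multiplicative.ofAdd (b1 x))) := fun x =>
    (V.mem _ (hψ0 _)).1 (hz x)
  -- the value of `A0`
  have hA0v : V.v A0 = ∑ i, V.nu ψ (p i) + ∑ i' : ι, V.v (zf e b1 ψ (σ (Sum.inr i'))) := by
    have h1 : (∏ i, (ψ (Multiplicative.ofAdd (p i)))⁻¹) ≠ 0 :=
      Finset.prod_ne_zero_iff.2 fun i _ => inv_ne_zero (hψ0 _)
    have h2 : (∏ i' : ι, (zf e b1 ψ (σ (Sum.inr i')))⁻¹) ≠ 0 :=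
      Finset.prod_ne_zero_iff.2 fun i _ => inv_ne_zero (hzf0 _)
    rw [V.mul _ _ h1 (mul_ne_zero h2 hA0n), V.mul _ _ h2 hA0n,
      smAdj_prod V _ _ fun i _ => inv_ne_zero (hψ0 _),
      smAdj_prod V _ _ fun i _ => inv_ne_zero (hzf0 _)] at hqv
    have h3 : ∑ i, V.v (ψ (Multiplicative.ofAdd (p i)))⁻¹ = -∑ i, V.nu ψ (p i) := by
      rw [← Finset.sum_neg_distrib]
      exact Finset.sum_congr rfl fun i _ => V.inv (hψ0 _)
    have h4 : ∑ i' : ι, V.v (zf e b1 ψ (σ (Sum.inr i')))⁻¹ =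
        -∑ i' : ι, V.v (zf e b1 ψ (σ (Sum.inr i'))) := by
      rw [← Finset.sum_neg_distrib]
      exact Finset.sum_congr rfl fun i _ => V.inv (hzf0 _)
    rw [h3, h4] at hqv
    linarith
  -- the forms
  have hI : LinearIndependent K fun i => dl ψ (f' i) :=
    sml_ind he a D hB.dual b1 ψ hψ (sml_rowt_ind D b1 ψ (fun i' => σ (Sum.inr i')) hA0n)
  have hcard : Fintype.card (Fin n ⊕ ι) = Fintype.card (Fin d1) := by
    rw [Fintype.card_sum, Fintype.card_fin, Fintype.card_fin, hψ.dim,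
      Module.finrank_eq_card_basis b1, Fintype.card_fin]
  let e1 : Fin n ⊕ ι ≃ Fin d1 := Fintype.equivOfCardEq hcard
  obtain ⟨l1, hl1inj, hl1⟩ := exists_ell b1 ψ hI hψ e1
  obtain ⟨lt, hltinj, hlt⟩ := sml_tot he a D hB.dual b1 ψ hψ σ hA0n
  obtain ⟨s1, hs1, happ⟩ := tot_append he a D hB.dual b1 ψ hψ e1 l1 hl1 σ lt hlt
  have hcoord := tot_coord a D b1 ψ σ lt hlt
  rw [← hA0] at hcoord
  have hl10 : l1 (W k x0) ≠ 0 := by
    intro h
    exact hx0 (hl1inj (by rw [h, map_zero]))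
  obtain ⟨hs10, hs1v⟩ := smAdj_sign V hs1
  have hX0 : lt (W ℂ (Fin.append x0 fun t => algebraMap k K (a t))) ≠ 0 := by
    rw [happ]
    exact mul_ne_zero hs10 hl10
  have hP0 : (∏ j, zf e b1 ψ (σ (Sum.inl j))) ≠ 0 := Finset.prod_ne_zero_iff.2 fun i _ => hzf0 _
  set ζ : Fin (n + e) → K := fun j => zc b1 ψ a (σ (Sum.inl j)) with hζ
  have hζ0 : lt (W ℂ ζ) ≠ 0 := by
    rw [hcoord]
    exact mul_ne_zero hP0 hA0n
  set j : K := lt (W ℂ ζ) / lt (W ℂ (Fin.append x0 fun t => algebraMap k K (a t))) with hj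
  have hj0 : j ≠ 0 := div_ne_zero hζ0 hX0
  have hζv : V.v (lt (W ℂ ζ)) = ∑ x, V.v (ψ (Multiplicative.ofAdd (b1 x))) +
      ∑ i, V.nu ψ (p i) := by
    rw [hcoord, V.mul _ _ hP0 hA0n, smAdj_prod V _ _ fun i _ => hzf0 _, hA0v]
    have h1 : ∑ c : Fin d1 ⊕ Fin e, V.v (zf e b1 ψ c) =
        ∑ i, V.v (zf e b1 ψ (σ (Sum.inl i))) + ∑ i', V.v (zf e b1 ψ (σ (Sum.inr i'))) := by
      rw [← Equiv.sum_comp σ, Fintype.sum_sum_type]
    have h2 : ∑ c : Fin d1 ⊕ Fin e, V.v (zf e b1 ψ c) =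
        ∑ x, V.v (ψ (Multiplicative.ofAdd (b1 x))) := by
      rw [Fintype.sum_sum_type]
      have h3 : ∀ t : Fin e, V.v (zf e b1 ψ (Sum.inr t)) = 0 := fun t => V.one
      rw [Finset.sum_eq_zero fun t _ => h3 t, add_zero]
      rfl
    linarith
  have hjv : V.v j = V.v (lt (W ℂ ζ)) - V.v (l1 (W k x0)) := by
    rw [hj, div_eq_mul_inv, V.mul _ _ hζ0 (inv_ne_zero hX0), V.inv hX0, happ,
      V.mul _ _ hs10 hl10, hs1v]
    ring
  refine ⟨a, D, ζ, j, hB, ?_, hj0, ?_, ?_⟩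
  · intro i
    show zc b1 ψ a (σ (Sum.inl i)) ∈ O
    rcases σ (Sum.inl i) with x | t
    · exact hz x
    · exact hB.mem t
  · apply hltinj
    rw [map_smul, smul_eq_mul, hj, div_mul_cancel₀ _ hX0]
  · intro m0 w hw d b e' l hl
    obtain ⟨l', hl', hll'⟩ := sml_ell hℓ hψs hf b e' l hl
    obtain ⟨s2, hs2, hs2l⟩ := sml_sign hψ.gen b e' l' hl' b1 e1 l1 hl1
    obtain ⟨hs20, hs2v⟩ := smAdj_sign V hs2
    have hℓ0 : ∀ i, algebraMap k K (ℓ i) ≠ 0 := fun i => by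
      rw [Ne, map_eq_zero]
      exact hℓ i
    have hs0 : ∀ m : M, algebraMap k K (s (Multiplicative.ofAdd m)) ≠ 0 := fun m => by
      rw [Ne, map_eq_zero]
      exact sml_s_ne _
    have hlv : V.v (l (W k x0)) = ∑ i, V.v (algebraMap k K (ℓ i)) + V.v (l1 (W k x0)) := by
      rw [hll', LinearMap.smul_apply, smul_eq_mul, hs2l,
        V.mul _ _ (Finset.prod_ne_zero_iff.2 fun i _ => hℓ0 i) (mul_ne_zero hs20 hl10),
        V.mul _ _ hs20 hl10, smAdj_prod V _ _ fun i _ => hℓ0 i, hs2v]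
      ring
    -- the values of the terms
    have hterm : ∀ (i : ι) (c c' : k) (m : M), c = ℓ i * s (Multiplicative.ofAdd m) * c' →
        algebraMap k K c' ∈ O → c ≠ 0 →
        V.v (algebraMap k K (ℓ i)) + V.nu ψ m ≤
          V.v (algebraMap k K c * χ (Multiplicative.ofAdd m)) := by
      intro i c c' m hc hc' hc0
      have hc'0 : algebraMap k K c' ≠ 0 := by
        rw [Ne, map_eq_zero]
        rintro rfl
        exact hc0 (by rw [hc, mul_zero])
      have h1 : algebraMap k K c * χ (Multiplicative.ofAdd m) =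
          algebraMap k K (ℓ i) * (algebraMap k K c' * ψ (Multiplicative.ofAdd m)) := by
        rw [hc, hψs, map_mul, map_mul]
        ring
      rw [h1, V.mul _ _ (hℓ0 i) (mul_ne_zero hc'0 (hψ0 m)), V.mul _ _ hc'0 (hψ0 m)]
      have h2 := (V.mem _ hc'0).1 hc'
      have h3 : V.nu ψ m = V.v (ψ (Multiplicative.ofAdd m)) := rfl
      rw [h3]
      linarith
    refine ⟨α, inferInstance, nn, fun i => V.v (algebraMap k K (ℓ i)), hnn0, ?_, ?_, ?_, ?_⟩
    · intro i m h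
      rw [← hnn]
      exact hterm i _ _ m (hf i m) (hco i m).1 h
    · intro i m h
      rw [← hnn]
      exact hterm i _ _ m (hg i m) (hco i m).2 h
    · intro i
      rw [← hnn]
      exact hhm i
    · rw [← hnn, hlv, Finset.sum_add_distrib]
      have h5 : V.v (l1 (W k x0)) = V.v (lt (W ℂ ζ)) - V.v j := by
        rw [hjv]
        ring
      rw [h5, hζv]
      have h7 : (m0 : ℤ) * (∑ i, V.nu ψ (p i) + ∑ x, V.v (ψ (Multiplicative.ofAdd (b1 x)))) ≤
          m0 * (∑ i, hm (g i) (V.nu ψ) + Fintype.card α) :=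
        mul_le_mul_of_nonneg_left hle (Int.natCast_nonneg m0)
      linarith

/-- The relative rows are independent. -/
theorem ind_core [Module.Free ℤ M] [Module.Finite ℤ M] [DecidableEq ι] {n e : ℕ}
    (he : Algebra.trdeg ℂ k = e) {f : ι → M →₀ k} (χ : Multiplicative M →* K)
    (hχ : Pt f χ n) {O : ValuationSubring K}
    {a : Fin e → k} {D : Fin e → Derivation ℂ k k} {s : Multiplicative M →* k} {ℓ : ι → k}
    {f' : ι → M →₀ k} {ψ : Multiplicative M →* K} {p : ι → M} {d1 : ℕ}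
    {b1 : Module.Basis (Fin d1) ℤ M} {σ : Fin (n + e) ⊕ ι ≃ Fin d1 ⊕ Fin e}
    (hB : BaseAt a D O) (hψs : ∀ m, ψ m = algebraMap k K (s m) * χ m) (hℓ : ∀ i, ℓ i ≠ 0)
    (hf : ∀ i m, f i m = ℓ i * s (Multiplicative.ofAdd m) * f' i m)
    (hdet : O.valuation (Matrix.det (Matrix.of fun i i' : ι => Sum.elim
      (fun x => dl ψ (f' i) (b1.coord x).toAddMonoidHom / ψ (Multiplicative.ofAdd (b1 x)))
      (fun t => dc (D t) ψ (f' i)) (σ (Sum.inr i')) / ψ (Multiplicative.ofAdd (p i)))) = 1) :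
    LinearIndependent K fun i => dl χ (f i) := by
  classical
  have hψ : Pt f' ψ n := sml_pt hℓ hψs hf hχ
  rw [smA_det] at hdet
  have hA0n : Matrix.det (Matrix.of fun i i' : ι =>
      rowt b1 D ψ (f' i) (σ (Sum.inr i'))) ≠ 0 := by
    intro h
    rw [h, mul_zero, mul_zero, map_zero] at hdet
    exact zero_ne_one hdet
  have hI : LinearIndependent K fun i => dl ψ (f' i) :=
    sml_ind he a D hB.dual b1 ψ hψ (sml_rowt_ind D b1 ψ (fun i' => σ (Sum.inr i')) hA0n)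
  have hℓ0 : ∀ i, algebraMap k K (ℓ i) ≠ 0 := fun i => by
    rw [Ne, map_eq_zero]
    exact hℓ i
  rw [Fintype.linearIndependent_iff] at hI ⊢
  intro c hc i
  have h1 := hI (fun i => c i * algebraMap k K (ℓ i)) (by
    rw [← hc]
    refine Finset.sum_congr rfl fun i _ => ?_
    funext n'
    rw [Pi.smul_apply, Pi.smul_apply, smul_eq_mul, smul_eq_mul,
      (sml_ev (hℓ i) hψs (hf i)).2.2 n']
    ring) i
  exact (mul_eq_zero.1 h1).resolve_right (hℓ0 i)

end T4
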