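import Pool.Agent.Lib.MP_23b606_ag.T4.Tot2
import Pool.Agent.Lib.MP_23b606_ag.T4.EllB

/-! SmL: local trivialisations; lemmas for `SmoothOver`. -/

set_option autoImplicit false

open scoped BigOperators KaehlerDifferential TensorProduct

namespace T4

open T1 T3

section twist

variable {k : Type} [Field k] [CharZero k] {K : Type} [Field K] [Algebra k K] {M : Type}
  [AddCommGroup M] {ι : Type} [Fintype ι]

theorem sml_s_ne {s : Multiplicative M →* k} (m : Multiplicative M) : s m ≠ 0 := by
  have h := om_chi_ne s (Multiplicative.toAdd m)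
  rwa [ofAdd_toAdd] at h

/-- The value of the trivialised polynomial. -/
theorem sml_ev {χ ψ : Multiplicative M →* K} {s : Multiplicative M →* k} {ℓ : k}
    {f f' : M →₀ k} (hℓ : ℓ ≠ 0) (hψ : ∀ m, ψ m = algebraMap k K (s m) * χ m)
    (hf : ∀ m, f m = ℓ * s (Multiplicative.ofAdd m) * f' m) :
    f.support = f'.support ∧ ev χ f = algebraMap k K ℓ * ev ψ f' ∧
      ∀ n', dl χ f n' = algebraMap k K ℓ * dl ψ f' n' := by
  have hs : f.support = f'.support := by
    ext m
    rw [Finsupp.mem_support_iff, Finsupp.mem_support_iff, hf m]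
    constructor
    · exact fun h => right_ne_zero_of_mul h
    · exact fun h => mul_ne_zero (mul_ne_zero hℓ (sml_s_ne _)) h
  refine ⟨hs, ?_, fun n' => ?_⟩
  · unfold ev Finsupp.sum
    rw [hs, Finset.mul_sum]
    refine Finset.sum_congr rfl fun m _ => ?_
    beta_reduce
    rw [hf m, hψ, map_mul, map_mul]
    ring
  · unfold dl Finsupp.sum
    rw [hs, Finset.mul_sum]
    refine Finset.sum_congr rfl fun m _ => ?_
    beta_reduce
    rw [hf m, hψ, map_mul, map_mul]
    ring

/-- The point of the trivialised system. -/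
theorem sml_pt [Module.Free ℤ M] [Module.Finite ℤ M] {χ ψ : Multiplicative M →* K}
    {s : Multiplicative M →* k} {ℓ : ι → k} {f f' : ι → M →₀ k} (hℓ : ∀ i, ℓ i ≠ 0)
    (hψ : ∀ m, ψ m = algebraMap k K (s m) * χ m)
    (hf : ∀ i m, f i m = ℓ i * s (Multiplicative.ofAdd m) * f' i m) {n : ℕ} (hχ : Pt f χ n) :
    Pt f' ψ n := by
  refine ⟨?_, fun i => ?_, hχ.trd, hχ.dim⟩
  · rw [eq_top_iff, ← hχ.gen, IntermediateField.adjoin_le_iff]
    rintro _ ⟨m, rfl⟩
    have h0 : algebraMap k K (s m) ≠ 0 := by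
      rw [Ne, map_eq_zero]
      exact sml_s_ne m
    have h1 : χ m = (algebraMap k K (s m))⁻¹ * ψ m := by
      rw [hψ, ← mul_assoc, inv_mul_cancel₀ h0, one_mul]
    rw [SetLike.mem_coe, h1]
    refine mul_mem (inv_mem (IntermediateField.algebraMap_mem _ _)) ?_
    exact IntermediateField.subset_adjoin k _ ⟨m, rfl⟩
  · have h1 := (sml_ev (hℓ i) hψ (hf i)).2.1
    rw [hχ.zero i] at h1
    have h0 : algebraMap k K (ℓ i) ≠ 0 := by
      rw [Ne, map_eq_zero]
      exact hℓ i
    exact (mul_eq_zero.1 h1.symm).resolve_left h0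

/-- The relative form of the trivialised system. -/
theorem sml_ell {χ ψ : Multiplicative M →* K}
    {s : Multiplicative M →* k} {ℓ : ι → k} {f f' : ι → M →₀ k} (hℓ : ∀ i, ℓ i ≠ 0)
    (hψ : ∀ m, ψ m = algebraMap k K (s m) * χ m)
    (hf : ∀ i m, f i m = ℓ i * s (Multiplicative.ofAdd m) * f' i m) {n d : ℕ}
    (b : Module.Basis (Fin d) ℤ M) (e : Fin n ⊕ ι ≃ Fin d) (l : ⋀[K]^n Ω[K⁄k] →ₗ[K] K)
    (hl : IsEll b χ f e l) :
    ∃ l' : ⋀[K]^n Ω[K⁄k] →ₗ[K] K, IsEll b ψ f' e l' ∧ l = (∏ i, algebraMap k K (ℓ i)) • l' := by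
  classical
  have h0 : ∀ i, algebraMap k K (ℓ i) ≠ 0 := fun i => by
    rw [Ne, map_eq_zero]
    exact hℓ i
  have hp0 : (∏ i, algebraMap k K (ℓ i)) ≠ 0 := Finset.prod_ne_zero_iff.2 fun i _ => h0 i
  refine ⟨(∏ i, algebraMap k K (ℓ i))⁻¹ • l, fun u => ?_, ?_⟩
  · have hod : ∀ m, odlog k ψ m = odlog k χ m := fun m => by
      have h1 := om_D_chi (k := k) ψ m
      have h2 := om_D_chi (k := k) χ m
      have hs0 : algebraMap k K (s (Multiplicative.ofAdd m)) ≠ 0 := by
        rw [Ne, map_eq_zero]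
        exact sml_s_ne _
      have hχ0 := om_chi_ne χ m
      rw [hψ, Derivation.leibniz, Derivation.map_algebraMap, smul_zero, add_zero, h2,
        smul_smul] at h1
      exact (smul_right_injective _ (mul_ne_zero hs0 hχ0) h1).symm
    have hom : ∀ v, om k b ψ v = om k b χ v := fun v => by
      rw [om_apply, om_apply]
      exact Finset.sum_congr rfl fun j _ => by rw [hod]
    have hrow : ∀ i y, row b χ (f i) y = algebraMap k K (ℓ i) * row b ψ (f' i) y := fun i y =>
      (sml_ev (hℓ i) hψ (hf i)).2.2 _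
    have hdt : dt b χ f e u = (∏ i, algebraMap k K (ℓ i)) * dt b ψ f' e u := by
      unfold dt
      have h3 : (Matrix.of fun x y : Fin n ⊕ ι =>
          Sum.elim u (fun i => row b χ (f i)) x (e y)) =
          Matrix.of fun x y : Fin n ⊕ ι => Sum.elim (fun _ => (1 : K))
            (fun i => algebraMap k K (ℓ i)) x *
            (Matrix.of fun x y : Fin n ⊕ ι =>
              Sum.elim u (fun i => row b ψ (f' i)) x (e y)) x y := by
        ext x y
        rcases x with j | i
        · simp
        · simp [hrow]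
      rw [h3, Matrix.det_mul_column, Fintype.prod_sum_type]
      simp only [Sum.elim_inl, Sum.elim_inr, Finset.prod_const_one, one_mul]
    have h4 : (fun i => om k b ψ (u i)) = fun i => om k b χ (u i) := by
      funext i
      exact hom _
    rw [h4, LinearMap.smul_apply, hl, hdt, smul_eq_mul, ← mul_assoc, inv_mul_cancel₀ hp0, one_mul]
  · rw [smul_smul, mul_inv_cancel₀ hp0, one_smul]

/-- Two relative forms agree up to sign. -/
theorem sml_sign {ψ : Multiplicative M →* K} {f : ι → M →₀ k} {n d d1 : ℕ}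
    (hgen : IntermediateField.adjoin k (Set.range ψ) = ⊤)
    (b : Module.Basis (Fin d) ℤ M) (e : Fin n ⊕ ι ≃ Fin d) (l : ⋀[K]^n Ω[K⁄k] →ₗ[K] K)
    (hl : IsEll b ψ f e l) (b1 : Module.Basis (Fin d1) ℤ M) (e1 : Fin n ⊕ ι ≃ Fin d1)
    (l1 : ⋀[K]^n Ω[K⁄k] →ₗ[K] K) (hl1 : IsEll b1 ψ f e1 l1) :
    ∃ s : K, (s = 1 ∨ s = -1) ∧ ∀ x : Fin n → K, l (W k x) = s * l1 (W k x) := by
  classical
  set P : Matrix (Fin n ⊕ ι) (Fin n ⊕ ι) K := Matrix.of fun z y : Fin n ⊕ ι =>
    ((b1.coord (e1 y) ((b.reindex e.symm) z) : ℤ) : K) with hP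
  have hPu : P.det = 1 ∨ P.det = -1 := ellB_unit b1 e1 (b.reindex e.symm)
  have hdt : ∀ u : Fin n → Fin d → K, dt b1 ψ f e1
      (fun j y => ∑ i, u j i * ((b1.coord y (b i) : ℤ) : K)) = dt b ψ f e u * P.det := by
    intro u
    have h2 : (Matrix.of fun x y : Fin n ⊕ ι => Sum.elim
        (fun (j : Fin n) (y : Fin d1) => ∑ i, u j i * ((b1.coord y (b i) : ℤ) : K))
        (fun i => row b1 ψ (f i)) x (e1 y)) =
        (Matrix.of fun x y : Fin n ⊕ ι => Sum.elim u (fun i => row b ψ (f i)) x (e y)) * P := by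
      ext x y
      rw [Matrix.mul_apply]
      have h3 : ∀ g : Fin d → K, ∑ z : Fin n ⊕ ι, g (e z) *
          ((b1.coord (e1 y) ((b.reindex e.symm) z) : ℤ) : K) =
          ∑ i, g i * ((b1.coord (e1 y) (b i) : ℤ) : K) := by
        intro g
        rw [← Equiv.sum_comp e fun i => g i * ((b1.coord (e1 y) (b i) : ℤ) : K)]
        refine Finset.sum_congr rfl fun z _ => ?_
        rw [Module.Basis.reindex_apply, Equiv.symm_symm]
      rcases x with j | i
      · exact (h3 (u j)).symm
      · refine Eq.trans ?_ (h3 (row b ψ (f i))).symm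
        exact ellB_dl b ψ (f i) (b1.coord (e1 y)).toAddMonoidHom
    have h4 : dt b1 ψ f e1 (fun j y => ∑ i, u j i * ((b1.coord y (b i) : ℤ) : K)) =
        Matrix.det (Matrix.of fun x y : Fin n ⊕ ι => Sum.elim
          (fun (j : Fin n) (y : Fin d1) => ∑ i, u j i * ((b1.coord y (b i) : ℤ) : K))
          (fun i => row b1 ψ (f i)) x (e1 y)) := by
      unfold dt
      exact congrArg (fun inst : DecidableEq (Fin n ⊕ ι) => @Matrix.det _ inst _ K _ _)
        (Subsingleton.elim _ _)
    have h5 : dt b ψ f e u = Matrix.det (Matrix.of fun x y : Fin n ⊕ ι =>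
        Sum.elim u (fun i => row b ψ (f i)) x (e y)) := by
      unfold dt
      exact congrArg (fun inst : DecidableEq (Fin n ⊕ ι) => @Matrix.det _ inst _ K _ _)
        (Subsingleton.elim _ _)
    rw [h4, h5, h2, Matrix.det_mul]
  have hom : ∀ v : Fin d → K, om k b ψ v =
      om k b1 ψ fun y => ∑ i, v i * ((b1.coord y (b i) : ℤ) : K) := by
    intro v
    rw [om_apply, om_apply]
    simp only [Finset.sum_smul]
    rw [Finset.sum_comm]
    refine Finset.sum_congr rfl fun i _ => ?_
    rw [odlog_eq b1 ψ (b i), Finset.smul_sum]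
    refine Finset.sum_congr rfl fun y _ => ?_
    rw [smul_smul]
  refine ⟨P.det, hPu, fun x => ?_⟩
  choose u hu using fun j => om_surjective b ψ hgen (KaehlerDifferential.D k K (x j))
  have hW : W k x = exteriorPower.ιMulti K n fun j => om k b ψ (u j) := by
    unfold W
    congr 1
    funext j
    exact (hu j).symm
  have hW1 : W k x = exteriorPower.ιMulti K n fun j =>
      om k b1 ψ fun y => ∑ i, u j i * ((b1.coord y (b i) : ℤ) : K) := by
    rw [hW]
    congr 1
    funext j
    exact hom _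
  have h6 : l1 (W k x) = dt b ψ f e u * P.det := by
    rw [hW1, hl1, hdt]
  have h7 : l (W k x) = dt b ψ f e u := by
    rw [hW, hl]
  rw [h6, h7]
  rcases hPu with h | h
  · rw [h]
    ring
  · rw [h]
    ring

end twist

section tot

variable {k : Type} [Field k] [Algebra ℂ k] [CharZero k] {K : Type} [Field K] [Algebra ℂ K]
  [Algebra k K] [IsScalarTower ℂ k K] {M : Type} [AddCommGroup M] {d e : ℕ} {ι : Type}
  [Fintype ι]

/-- Independence of the relative rows from independence of the total rows. -/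
theorem sml_ind [Module.Free ℤ M] [Module.Finite ℤ M] (he : Algebra.trdeg ℂ k = e)
    (a : Fin e → k) (D : Fin e → Derivation ℂ k k)
    (hD : ∀ s t, D s (a t) = if s = t then 1 else 0)
    (b : Module.Basis (Fin d) ℤ M) (ψ : Multiplicative M →* K) {f : ι → M →₀ k} {n : ℕ}
    (hψ : Pt f ψ n) (hI : LinearIndependent K fun i => rowt b D ψ (f i)) :
    LinearIndependent K fun i => dl ψ (f i) := by
  classical
  obtain ⟨hker, -, -⟩ := omt_ker he a D hD b ψ hψ hI
  obtain ⟨hfin, hrk⟩ := finrank_omega hψ.trd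
  set S : Submodule K Ω[K⁄ℂ] := Submodule.span K
    (Set.range fun t => KaehlerDifferential.D ℂ K (algebraMap k K (a t))) with hS
  have hmap : ∀ y : Ω[k⁄ℂ], KaehlerDifferential.map ℂ ℂ k K y ∈ S := by
    intro y
    have hy : y ∈ Submodule.span k (Set.range (KaehlerDifferential.D ℂ k)) := by
      rw [KaehlerDifferential.span_range_derivation]
      trivial
    induction hy using Submodule.span_induction with
    | mem y hy =>
      obtain ⟨c, rfl⟩ := hy
      rw [KaehlerDifferential.map_D, D_base' he a D hD c]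
      exact sum_mem fun t _ => Submodule.smul_mem _ _ (Submodule.subset_span ⟨t, rfl⟩)
    | zero => rw [map_zero]; exact zero_mem _
    | add x y _ _ hx hy => rw [map_add]; exact add_mem hx hy
    | smul c x _ hx =>
      rw [map_smul, ← algebraMap_smul K c]
      exact Submodule.smul_mem _ _ hx
  have hbase : ∀ z : K ⊗[k] Ω[k⁄ℂ], KaehlerDifferential.mapBaseChange ℂ k K z ∈ S := by
    intro z
    induction z using TensorProduct.induction_on with
    | zero => rw [map_zero]; exact zero_mem _
    | tmul x y =>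
      rw [KaehlerDifferential.mapBaseChange_tmul]
      exact Submodule.smul_mem _ _ (hmap y)
    | add x y hx hy => rw [map_add]; exact add_mem hx hy
  have hle : LinearMap.ker (om k b ψ) ≤
      Submodule.span K (Set.range fun i => row b ψ (f i)) := by
    intro v hv
    rw [LinearMap.mem_ker] at hv
    have h1 := map_omt b ψ a (Sum.elim v 0)
    simp only [Sum.elim_inl] at h1
    rw [hv] at h1
    obtain ⟨z, hz⟩ := (KaehlerDifferential.exact_mapBaseChange_map ℂ k K _).1 h1
    have h2 : omt b ψ a (Sum.elim v 0) ∈ S := by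
      rw [← hz]
      exact hbase z
    obtain ⟨g, hg⟩ := (Submodule.mem_span_range_iff_exists_fun K).1 h2
    have h3 : Sum.elim v (fun t => -g t) ∈ LinearMap.ker (omt b ψ a) := by
      rw [LinearMap.mem_ker, omt_apply]
      rw [omt_apply] at hg
      simp only [Sum.elim_inl, Sum.elim_inr, Pi.zero_apply, zero_smul, Finset.sum_const_zero,
        add_zero] at hg
      simp only [Sum.elim_inl, Sum.elim_inr, neg_smul, Finset.sum_neg_distrib]
      rw [hg, add_neg_cancel]
    rw [hker] at h3
    have h4 := Submodule.mem_map_of_mem (f := LinearMap.funLeft K K (Sum.inl : Fin d → Fin d ⊕ Fin e)) h3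
    rw [Submodule.map_span, ← Set.range_comp] at h4
    exact h4
  have h5 := LinearMap.finrank_range_add_finrank_ker (om k b ψ)
  rw [LinearMap.range_eq_top.mpr (om_surjective b ψ hψ.gen), finrank_top, hrk,
    Module.finrank_fin_fun] at h5
  have h6 := Submodule.finrank_mono hle
  have h7 : Module.finrank ℤ M = d := by
    rw [Module.finrank_eq_card_basis b, Fintype.card_fin]
  have h8 := hψ.dim
  have h9 : LinearIndependent K fun i => row b ψ (f i) := by
    rw [linearIndependent_iff_card_le_finrank_span]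
    show Fintype.card ι ≤ Module.finrank K (Submodule.span K (Set.range fun i => row b ψ (f i)))
    omega
  refine LinearIndependent.of_comp (LinearMap.funLeft K K fun j : Fin d =>
    (b.coord j).toAddMonoidHom) ?_
  exact h9

/-- Independence of the total rows from a minor. -/
theorem sml_rowt_ind [DecidableEq ι] (D : Fin e → Derivation ℂ k k)
    (b : Module.Basis (Fin d) ℤ M) (ψ : Multiplicative M →* K) {f : ι → M →₀ k}
    (c : ι → Fin d ⊕ Fin e)
    (h : Matrix.det (Matrix.of fun i i' : ι => rowt b D ψ (f i) (c i')) ≠ 0) :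
    LinearIndependent K fun i => rowt b D ψ (f i) := by
  let T : (Fin d ⊕ Fin e → K) →ₗ[K] (ι → K) := LinearMap.pi fun i' => LinearMap.proj (c i')
  refine LinearIndependent.of_comp T ?_
  exact Matrix.linearIndependent_rows_of_det_ne_zero h

/-- The form on the top exterior power of the total differentials, with injectivity. -/
theorem sml_tot [Module.Free ℤ M] [Module.Finite ℤ M] [DecidableEq ι]
    (he : Algebra.trdeg ℂ k = e) (a : Fin e → k) (D : Fin e → Derivation ℂ k k)
    (hD : ∀ s t, D s (a t) = if s = t then 1 else 0)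
    (b : Module.Basis (Fin d) ℤ M) (ψ : Multiplicative M →* K) {f : ι → M →₀ k} {n : ℕ}
    (hψ : Pt f ψ n) (σ : Fin (n + e) ⊕ ι ≃ Fin d ⊕ Fin e)
    (h : Matrix.det (Matrix.of fun i i' : ι => rowt b D ψ (f i) (σ (Sum.inr i'))) ≠ 0) :
    ∃ l : ⋀[K]^(n + e) Ω[K⁄ℂ] →ₗ[K] K, Function.Injective l ∧
      ∀ u : Fin (n + e) → Fin d ⊕ Fin e → K,
        l (exteriorPower.ιMulti K (n + e) fun i => omt b ψ a (u i)) =
          dtG (fun i => rowt b D ψ (f i)) σ u := by
  obtain ⟨hker, hrank, hfin⟩ := omt_ker he a D hD b ψ hψ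
    (sml_rowt_ind D b ψ (fun i' => σ (Sum.inr i')) h)
  obtain ⟨l, hl⟩ := exists_ellG (fun i => rowt b D ψ (f i)) σ (omt b ψ a)
    (omt_surjective he a D hD b ψ hψ.gen) hker.le
  refine ⟨l, ?_, hl⟩
  have hl0 : l ≠ 0 := by
    intro h0
    apply h
    have h1 := hl fun j => Pi.single (σ (Sum.inl j)) 1
    rw [dtG_single, h0, LinearMap.zero_apply] at h1
    exact h1.symm
  have hfr : Module.finrank K (⋀[K]^(n + e) Ω[K⁄ℂ]) = Module.finrank K K := by
    rw [exteriorPower.finrank_eq, hrank, Nat.choose_self, Module.finrank_self]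
  exact (LinearMap.injective_iff_surjective_of_finrank_eq_finrank hfr).mpr
    (LinearMap.surjective hl0)

end tot

end T4
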