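import Pool.Agent.Lib.MP_23b606_ag.T4.Base
import Pool.Agent.Lib.MP_23b606_ag.T4.EllG
import Pool.Agent.Lib.MP_23b606_ag.T4.El

/-! Tot: the differentials of `K` over `ℂ` in terms of the characters and the base. -/

set_option autoImplicit false

open scoped BigOperators KaehlerDifferential

namespace T4

open T1 T3

variable {k : Type} [Field k] [Algebra ℂ k] [CharZero k] {K : Type} [Field K] [Algebra ℂ K]
  [Algebra k K] [IsScalarTower ℂ k K] {M : Type} [AddCommGroup M] {d e : ℕ}

/-- The differentials of the coordinates: `dlog ψ(b_x)` and `da_t`. -/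
noncomputable def dco (b : Module.Basis (Fin d) ℤ M) (ψ : Multiplicative M →* K) (a : Fin e → k) :
    Fin d ⊕ Fin e → Ω[K⁄ℂ] :=
  Sum.elim (fun x => odlog ℂ ψ (b x)) fun t => KaehlerDifferential.D ℂ K (algebraMap k K (a t))

/-- The map `(u, w) ↦ ∑ u_x dlog ψ(b_x) + ∑ w_t da_t`. -/
noncomputable def omt (b : Module.Basis (Fin d) ℤ M) (ψ : Multiplicative M →* K) (a : Fin e → k) :
    (Fin d ⊕ Fin e → K) →ₗ[K] Ω[K⁄ℂ] :=
  Fintype.linearCombination K (dco b ψ a)

theorem omt_apply (b : Module.Basis (Fin d) ℤ M) (ψ : Multiplicative M →* K) (a : Fin e → k)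
    (u : Fin d ⊕ Fin e → K) :
    omt b ψ a u = ∑ x, u (Sum.inl x) • odlog ℂ ψ (b x) +
      ∑ t, u (Sum.inr t) • KaehlerDifferential.D ℂ K (algebraMap k K (a t)) := by
  rw [omt, Fintype.linearCombination_apply, Fintype.sum_sum_type]
  rfl

/-- The rows of the Jacobian matrix. -/
noncomputable def rowt (b : Module.Basis (Fin d) ℤ M) (D : Fin e → Derivation ℂ k k)
    (ψ : Multiplicative M →* K) (f : M →₀ k) : Fin d ⊕ Fin e → K :=
  Sum.elim (fun x => dl ψ f (b.coord x).toAddMonoidHom) fun t => dc (D t) ψ f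

/-- `omt` of a row is the differential of the value. -/
theorem omt_rowt (he : Algebra.trdeg ℂ k = e) (a : Fin e → k) (D : Fin e → Derivation ℂ k k)
    (hD : ∀ s t, D s (a t) = if s = t then 1 else 0) (b : Module.Basis (Fin d) ℤ M)
    (ψ : Multiplicative M →* K) (f : M →₀ k) :
    omt b ψ a (rowt b D ψ f) = KaehlerDifferential.D ℂ K (ev ψ f) := by
  rw [omt_apply]
  simp only [rowt, Sum.elim_inl, Sum.elim_inr, dl, dc, ev, Finsupp.sum, map_sum, Finset.sum_smul]
  rw [Finset.sum_comm, Finset.sum_comm (s := Finset.univ) (t := f.support), ← Finset.sum_add_distrib]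
  refine Finset.sum_congr rfl fun m _ => ?_
  rw [Derivation.leibniz, D_base' he a D hD (f m), om_D_chi, odlog_eq b ψ m]
  congr 1
  · rw [Finset.smul_sum, Finset.smul_sum]
    refine Finset.sum_congr rfl fun j _ => ?_
    rw [smul_smul, smul_smul]
    congr 1
  · rw [Finset.smul_sum]
    refine Finset.sum_congr rfl fun t _ => ?_
    rw [smul_smul, mul_comm]

/-- `omt` is onto. -/
theorem omt_surjective (he : Algebra.trdeg ℂ k = e) (a : Fin e → k)
    (D : Fin e → Derivation ℂ k k) (hD : ∀ s t, D s (a t) = if s = t then 1 else 0)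
    (b : Module.Basis (Fin d) ℤ M) (ψ : Multiplicative M →* K)
    (hgen : IntermediateField.adjoin k (Set.range ψ) = ⊤) :
    Function.Surjective (omt b ψ a) := by
  have hbase : ∀ c : k, KaehlerDifferential.D ℂ K (algebraMap k K c) ∈
      LinearMap.range (omt b ψ a) := fun c => by
    rw [D_base' he a D hD c]
    refine sum_mem fun t _ => Submodule.smul_mem _ _ ⟨Pi.single (Sum.inr t) 1, ?_⟩
    rw [omt, Fintype.linearCombination_apply_single, one_smul]
    rfl
  let F : IntermediateField k K :=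
    { carrier := {x | KaehlerDifferential.D ℂ K x ∈ LinearMap.range (omt b ψ a)}
      mul_mem' := fun {x y} (hx : KaehlerDifferential.D ℂ K x ∈ LinearMap.range (omt b ψ a))
          (hy : KaehlerDifferential.D ℂ K y ∈ LinearMap.range (omt b ψ a)) => by
        show KaehlerDifferential.D ℂ K (x * y) ∈ LinearMap.range (omt b ψ a)
        rw [Derivation.leibniz]
        exact add_mem (Submodule.smul_mem _ _ hy) (Submodule.smul_mem _ _ hx)
      add_mem' := fun {x y} (hx : KaehlerDifferential.D ℂ K x ∈ LinearMap.range (omt b ψ a))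
          (hy : KaehlerDifferential.D ℂ K y ∈ LinearMap.range (omt b ψ a)) => by
        show KaehlerDifferential.D ℂ K (x + y) ∈ LinearMap.range (omt b ψ a)
        rw [map_add]
        exact add_mem hx hy
      algebraMap_mem' := hbase
      inv_mem' := fun x (hx : KaehlerDifferential.D ℂ K x ∈ LinearMap.range (omt b ψ a)) => by
        show KaehlerDifferential.D ℂ K x⁻¹ ∈ LinearMap.range (omt b ψ a)
        rw [Derivation.leibniz_inv]
        exact Submodule.smul_mem _ _ hx }
  have hF : F = ⊤ := by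
    rw [eq_top_iff, ← hgen, IntermediateField.adjoin_le_iff]
    rintro _ ⟨m, rfl⟩
    show KaehlerDifferential.D ℂ K (ψ m) ∈ LinearMap.range (omt b ψ a)
    have h1 := om_D_chi (k := ℂ) ψ (Multiplicative.toAdd m)
    rw [ofAdd_toAdd] at h1
    rw [h1]
    refine Submodule.smul_mem _ _ ?_
    rw [odlog_eq (k := ℂ) b ψ]
    refine sum_mem fun x _ => Submodule.smul_mem _ _ ⟨Pi.single (Sum.inl x) 1, ?_⟩
    rw [omt, Fintype.linearCombination_apply_single, one_smul]
    rfl
  rw [← LinearMap.range_eq_top, eq_top_iff, ← KaehlerDifferential.span_range_derivation ℂ K,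
    Submodule.span_le]
  rintro _ ⟨x, rfl⟩
  have hx : x ∈ F := by rw [hF]; trivial
  exact hx

/-- The kernel of `omt`. -/
theorem omt_ker [Module.Free ℤ M] [Module.Finite ℤ M] (he : Algebra.trdeg ℂ k = e)
    (a : Fin e → k) (D : Fin e → Derivation ℂ k k)
    (hD : ∀ s t, D s (a t) = if s = t then 1 else 0) {ι : Type} [Fintype ι]
    (b : Module.Basis (Fin d) ℤ M) (ψ : Multiplicative M →* K) {f : ι → M →₀ k} {n : ℕ}
    (hψ : Pt f ψ n) (hI : LinearIndependent K fun i => rowt b D ψ (f i)) :
    LinearMap.ker (omt b ψ a) = Submodule.span K (Set.range fun i => rowt b D ψ (f i)) ∧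
      Module.finrank K Ω[K⁄ℂ] = n + e ∧ Module.Finite K Ω[K⁄ℂ] := by
  have htr : Algebra.trdeg ℂ K = ((n + e : ℕ) : Cardinal) := by
    have h1 := trdeg_add_eq ℂ k (A := K)
    rw [he, hψ.trd] at h1
    rw [← h1]
    push_cast
    exact add_comm _ _
  obtain ⟨hfin, hrk⟩ := finrank_omega htr
  refine ⟨?_, hrk, hfin⟩
  have hs := omt_surjective he a D hD b ψ hψ.gen
  have h1 := LinearMap.finrank_range_add_finrank_ker (omt b ψ a)
  rw [LinearMap.range_eq_top.mpr hs, finrank_top, Module.finrank_fintype_fun_eq_card, hrk,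
    Fintype.card_sum, Fintype.card_fin, Fintype.card_fin] at h1
  have h3 : Module.finrank ℤ M = d := by
    rw [Module.finrank_eq_card_basis b, Fintype.card_fin]
  have h4 := hψ.dim
  symm
  refine Submodule.eq_of_le_of_finrank_eq ?_ ?_
  · rw [Submodule.span_le]
    rintro _ ⟨i, rfl⟩
    rw [SetLike.mem_coe, LinearMap.mem_ker, omt_rowt he a D hD, hψ.zero, map_zero]
  · rw [finrank_span_eq_card hI]
    omega

/-- The forgetful map of differentials. -/
theorem map_omt (b : Module.Basis (Fin d) ℤ M) (ψ : Multiplicative M →* K) (a : Fin e → k)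
    (u : Fin d ⊕ Fin e → K) :
    KaehlerDifferential.map ℂ k K K (omt b ψ a u) = om k b ψ fun x => u (Sum.inl x) := by
  rw [omt_apply, om_apply, map_add, map_sum, map_sum]
  have h1 : ∀ t, KaehlerDifferential.map ℂ k K K
      (u (Sum.inr t) • KaehlerDifferential.D ℂ K (algebraMap k K (a t))) = 0 := fun t => by
    rw [map_smul, KaehlerDifferential.map_D]
    change u (Sum.inr t) • KaehlerDifferential.D k K (algebraMap k K (a t)) = 0
    rw [Derivation.map_algebraMap, smul_zero]
  rw [Finset.sum_eq_zero fun t _ => h1 t, add_zero]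
  refine Finset.sum_congr rfl fun x _ => ?_
  rw [map_smul]
  congr 1
  change KaehlerDifferential.map ℂ k K K ((ψ (Multiplicative.ofAdd (b x)))⁻¹ •
    KaehlerDifferential.D ℂ K (ψ (Multiplicative.ofAdd (b x)))) = _
  rw [map_smul, KaehlerDifferential.map_D]
  rfl

end T4
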