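import Pool.Agent.Lib.MP_23b606_ag.T4.Tot

/-! Tot2: the total form in terms of the relative form (sections 6 (i), (ii)). -/

set_option autoImplicit false

open scoped BigOperators KaehlerDifferential

namespace T4

open T1 T3

/-- The rows in another order. -/
def epsE (n e : ℕ) (ι : Type) : Fin (n + e) ⊕ ι ≃ (Fin n ⊕ ι) ⊕ Fin e where
  toFun := Sum.elim (Fin.addCases (fun j => Sum.inl (Sum.inl j)) fun t => Sum.inr t)
    fun i => Sum.inl (Sum.inr i)
  invFun := Sum.elim (Sum.elim (fun j => Sum.inl (Fin.castAdd e j)) fun i => Sum.inr i)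
    fun t => Sum.inl (Fin.natAdd n t)
  left_inv := by
    rintro (j | i)
    · refine Fin.addCases (fun j => ?_) (fun t => ?_) j
      · simp
      · simp
    · rfl
  right_inv := by
    rintro ((j | i) | t)
    · simp
    · rfl
    · simp

/-- The determinant of the total form on `x ⊔ a`. -/
theorem dtG_append {K : Type} [Field K] {d e n : ℕ} {ι : Type} [Fintype ι] [DecidableEq ι]
    (R : ι → Fin d ⊕ Fin e → K) (e1 : Fin n ⊕ ι ≃ Fin d) (u : Fin n → Fin d ⊕ Fin e → K) :
    dtG R ((epsE n e ι).trans (Equiv.sumCongr e1 (Equiv.refl (Fin e))))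
      (Fin.append u fun t => Pi.single (Sum.inr t) 1) =
      Matrix.det (Matrix.of fun x y : Fin n ⊕ ι =>
        Sum.elim (fun j x => u j (Sum.inl x)) (fun i x => R i (Sum.inl x)) x (e1 y)) := by
  classical
  have h2 : dtG R ((epsE n e ι).trans (Equiv.sumCongr e1 (Equiv.refl (Fin e))))
      (Fin.append u fun t => Pi.single (Sum.inr t) 1) =
      Matrix.det (Matrix.of fun x y : Fin (n + e) ⊕ ι =>
        Sum.elim (Fin.append u fun t => (Pi.single (Sum.inr t) 1 : Fin d ⊕ Fin e → K)) R x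
          (((epsE n e ι).trans (Equiv.sumCongr e1 (Equiv.refl (Fin e)))) y)) := by
    unfold dtG
    exact congrArg (fun inst : DecidableEq (Fin (n + e) ⊕ ι) => @Matrix.det _ inst _ K _ _)
      (Subsingleton.elim _ _)
  rw [h2, ← Matrix.det_submatrix_equiv_self (epsE n e ι).symm]
  have h3 : (Matrix.of fun x y : Fin (n + e) ⊕ ι =>
        Sum.elim (Fin.append u fun t => (Pi.single (Sum.inr t) 1 : Fin d ⊕ Fin e → K)) R x
          (((epsE n e ι).trans (Equiv.sumCongr e1 (Equiv.refl (Fin e)))) y)).submatrix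
        (epsE n e ι).symm (epsE n e ι).symm =
      Matrix.fromBlocks (Matrix.of fun x y : Fin n ⊕ ι =>
        Sum.elim (fun j x => u j (Sum.inl x)) (fun i x => R i (Sum.inl x)) x (e1 y))
        (Matrix.of fun (x : Fin n ⊕ ι) (t : Fin e) =>
          Sum.elim (fun j => u j (Sum.inr t)) (fun i => R i (Sum.inr t)) x)
        0 (1 : Matrix (Fin e) (Fin e) K) := by
    have hσ : ∀ y, ((epsE n e ι).trans (Equiv.sumCongr e1 (Equiv.refl (Fin e))))
        ((epsE n e ι).symm y) = (Equiv.sumCongr e1 (Equiv.refl (Fin e))) y := fun y => by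
      rw [Equiv.trans_apply, Equiv.apply_symm_apply]
    have hr1 : ∀ j, (epsE n e ι).symm (Sum.inl (Sum.inl j)) = Sum.inl (Fin.castAdd e j) :=
      fun _ => rfl
    have hr2 : ∀ i, (epsE n e ι).symm (Sum.inl (Sum.inr i)) = Sum.inr i := fun _ => rfl
    have hr3 : ∀ t, (epsE n e ι).symm (Sum.inr t) = Sum.inl (Fin.natAdd n t) := fun _ => rfl
    ext x y
    rw [Matrix.submatrix_apply, Matrix.of_apply, hσ]
    rcases x with (j | i) | t <;> rcases y with y | t'
    · rw [hr1, Sum.elim_inl, Fin.append_left]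
      rfl
    · rw [hr1, Sum.elim_inl, Fin.append_left]
      rfl
    · rw [hr2]
      rfl
    · rw [hr2]
      rfl
    · rw [hr3, Sum.elim_inl, Fin.append_right]
      simp
    · rw [hr3, Sum.elim_inl, Fin.append_right]
      simp [Matrix.one_apply, Pi.single_apply, eq_comm]
  rw [h3, Matrix.det_fromBlocks_zero₂₁, Matrix.det_one, mul_one]

variable {k : Type} [Field k] [Algebra ℂ k] [CharZero k] {K : Type} [Field K] [Algebra ℂ K]
  [Algebra k K] [IsScalarTower ℂ k K] {M : Type} [AddCommGroup M] {d e : ℕ}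

/-- The value of the total form on `x ⊔ a` is, up to a sign, the value of the relative form
on `x`. -/
theorem tot_append [Module.Free ℤ M] [Module.Finite ℤ M] (he : Algebra.trdeg ℂ k = e)
    (a : Fin e → k) (D : Fin e → Derivation ℂ k k)
    (hD : ∀ s t, D s (a t) = if s = t then 1 else 0) {ι : Type} [Fintype ι] [DecidableEq ι]
    (b : Module.Basis (Fin d) ℤ M) (ψ : Multiplicative M →* K) {f : ι → M →₀ k} {n : ℕ}
    (hψ : Pt f ψ n) (e1 : Fin n ⊕ ι ≃ Fin d) (l1 : ⋀[K]^n Ω[K⁄k] →ₗ[K] K)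
    (hl1 : IsEll b ψ f e1 l1) (σ : Fin (n + e) ⊕ ι ≃ Fin d ⊕ Fin e)
    (l : ⋀[K]^(n + e) Ω[K⁄ℂ] →ₗ[K] K)
    (hl : ∀ u : Fin (n + e) → Fin d ⊕ Fin e → K,
      l (exteriorPower.ιMulti K (n + e) fun i => omt b ψ a (u i)) =
        dtG (fun i => rowt b D ψ (f i)) σ u) :
    ∃ s : K, (s = 1 ∨ s = -1) ∧ ∀ x : Fin n → K,
      l (W ℂ (Fin.append x fun t => algebraMap k K (a t))) = s * l1 (W k x) := by
  obtain ⟨s, hs, hsd⟩ := dtG_sign (fun i => rowt b D ψ (f i))
    ((epsE n e ι).trans (Equiv.sumCongr e1 (Equiv.refl (Fin e)))) σ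
  refine ⟨s, hs, fun x => ?_⟩
  have hsur := omt_surjective he a D hD b ψ hψ.gen
  choose u hu using fun j => hsur (KaehlerDifferential.D ℂ K (x j))
  have hW : W ℂ (Fin.append x fun t => algebraMap k K (a t)) =
      exteriorPower.ιMulti K (n + e) fun i =>
        omt b ψ a ((Fin.append u fun t => Pi.single (Sum.inr t) 1) i) := by
    unfold W
    congr 1
    funext i
    refine Fin.addCases (fun j => ?_) (fun t => ?_) i
    · rw [Fin.append_left, Fin.append_left, hu]
    · rw [Fin.append_right, Fin.append_right, omt, Fintype.linearCombination_apply_single,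
        one_smul]
      rfl
  have hWk : W k x = exteriorPower.ιMulti K n fun j => om k b ψ fun y => u j (Sum.inl y) := by
    unfold W
    congr 1
    funext j
    rw [← map_omt b ψ a (u j), hu, KaehlerDifferential.map_D]
    rfl
  rw [hW, hl, hsd, hWk, hl1, dtG_append]
  congr 1
  unfold dt
  exact congrArg (fun inst : DecidableEq (Fin n ⊕ ι) => @Matrix.det _ inst _ K _ _)
    (Subsingleton.elim _ _)

/-- The values of the coordinates `z_x = ψ(b_x)`, `a_t`. -/
noncomputable def zc (b : Module.Basis (Fin d) ℤ M) (ψ : Multiplicative M →* K) (a : Fin e → k) :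
    Fin d ⊕ Fin e → K :=
  Sum.elim (fun x => ψ (Multiplicative.ofAdd (b x))) fun t => algebraMap k K (a t)

/-- The factors of the differentials of the coordinates. -/
noncomputable def zf (e : ℕ) (b : Module.Basis (Fin d) ℤ M) (ψ : Multiplicative M →* K) :
    Fin d ⊕ Fin e → K :=
  Sum.elim (fun x => ψ (Multiplicative.ofAdd (b x))) fun _ => 1

/-- The value of the total form on the complementary coordinates. -/
theorem tot_coord (a : Fin e → k) (D : Fin e → Derivation ℂ k k) {ι : Type} [Fintype ι]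
    [DecidableEq ι] (b : Module.Basis (Fin d) ℤ M) (ψ : Multiplicative M →* K) {f : ι → M →₀ k}
    {n : ℕ} (σ : Fin (n + e) ⊕ ι ≃ Fin d ⊕ Fin e) (l : ⋀[K]^(n + e) Ω[K⁄ℂ] →ₗ[K] K)
    (hl : ∀ u : Fin (n + e) → Fin d ⊕ Fin e → K,
      l (exteriorPower.ιMulti K (n + e) fun i => omt b ψ a (u i)) =
        dtG (fun i => rowt b D ψ (f i)) σ u) :
    l (W ℂ fun j => zc b ψ a (σ (Sum.inl j))) = (∏ j, zf e b ψ (σ (Sum.inl j))) *
      Matrix.det (Matrix.of fun i i' : ι => rowt b D ψ (f i) (σ (Sum.inr i'))) := by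
  have h1 : ∀ c : Fin d ⊕ Fin e, KaehlerDifferential.D ℂ K (zc b ψ a c) =
      zf e b ψ c • omt b ψ a (Pi.single c 1) := by
    rintro (x | t)
    · rw [omt, Fintype.linearCombination_apply_single, one_smul]
      exact om_D_chi (k := ℂ) ψ (b x)
    · rw [omt, Fintype.linearCombination_apply_single, one_smul]
      exact (one_smul _ _).symm
  have hW : W ℂ (fun j => zc b ψ a (σ (Sum.inl j))) =
      (∏ j, zf e b ψ (σ (Sum.inl j))) • exteriorPower.ιMulti K (n + e)
        fun j => omt b ψ a (Pi.single (σ (Sum.inl j)) 1) := by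
    unfold W
    have h2 : (fun j => KaehlerDifferential.D ℂ K (zc b ψ a (σ (Sum.inl j)))) =
        fun j => zf e b ψ (σ (Sum.inl j)) • omt b ψ a (Pi.single (σ (Sum.inl j)) 1) := by
      funext j
      exact h1 _
    rw [h2]
    exact (exteriorPower.ιMulti K (n + e)).toMultilinearMap.map_smul_univ _ _
  rw [hW, map_smul, hl, dtG_single, smul_eq_mul]

end T4
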